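import Pool.Agent.W5h47.Krall.CasesJ

set_option autoImplicit false
open Polynomial MeasureTheory Set

namespace Pool.Agent.W5h47.Krall

/-- induction along a polynomial sequence with `deg p n = n` -/
lemma seq_ind {p : ℕ → ℝ[X]} (hdeg : ∀ n, (p n).degree = (n : WithBot ℕ)) (N : ℕ)
    {P : ℝ[X] → Prop} (_h0 : P 0) (hadd : ∀ f g, P f → P g → P (f + g))
    (hmul : ∀ (c : ℝ) f, P f → P (C c * f)) (hp : ∀ n ≤ N, P (p n)) :
    ∀ f : ℝ[X], f.natDegree ≤ N → P f := by
  have hne : ∀ n, p n ≠ 0 := by
    intro n h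
    have := hdeg n
    rw [h, degree_zero] at this
    exact absurd this.symm (WithBot.coe_ne_bot)
  have hnd : ∀ n, (p n).natDegree = n := fun n => natDegree_eq_of_degree_eq_some (hdeg n)
  have hlc : ∀ n, (p n).coeff n ≠ 0 := by
    intro n
    have := leadingCoeff_ne_zero.2 (hne n)
    rwa [leadingCoeff, hnd] at this
  induction N with
  | zero =>
    intro f hf
    have hfC := eq_C_of_natDegree_le_zero hf
    have hpC := eq_C_of_natDegree_le_zero (hnd 0).le
    have : f = C (f.coeff 0 / (p 0).coeff 0) * p 0 := by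
      rw [hfC, hpC]
      simp only [coeff_C_zero]
      rw [← C_mul]
      congr 1
      have := hlc 0
      field_simp
    rw [this]
    exact hmul _ _ (hp 0 le_rfl)
  | succ N ih =>
    intro f hf
    set c := f.coeff (N + 1) / (p (N + 1)).coeff (N + 1) with hc
    have h1 : (f - C c * p (N + 1)).natDegree ≤ N := by
      rw [natDegree_le_iff_coeff_eq_zero]
      intro m hm
      rw [coeff_sub, coeff_C_mul]
      by_cases hm1 : m = N + 1
      · rw [hm1, hc]
        have := hlc (N + 1)
        field_simp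
        ring
      · rw [coeff_eq_zero_of_natDegree_lt (by omega),
          coeff_eq_zero_of_natDegree_lt (by rw [hnd]; omega)]
        ring
    have h2 := ih (fun n hn => hp n (by omega)) _ h1
    have h3 := hadd _ _ h2 (hmul c _ (hp (N + 1) le_rfl))
    have : f - C c * p (N + 1) + C c * p (N + 1) = f := by ring
    rwa [this] at h3

section
variable (u v w : Fn) (p : ℕ → ℝ[X])

/-- the bilinear form -/
noncomputable def BB (f g : ℝ[X]) : ℝ :=
  v.ev (derivative f * derivative g) + w.ev (derivative (derivative f) * derivative (derivative g))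

lemma BB_zero_left (g : ℝ[X]) : BB v w 0 g = 0 := by simp [BB]
lemma BB_zero_right (f : ℝ[X]) : BB v w f 0 = 0 := by simp [BB]
lemma BB_add_left (f f' g : ℝ[X]) : BB v w (f + f') g = BB v w f g + BB v w f' g := by
  simp only [BB, derivative_add, add_mul, Fn.ev_map_add]; ring
lemma BB_add_right (f g g' : ℝ[X]) : BB v w f (g + g') = BB v w f g + BB v w f g' := by
  simp only [BB, derivative_add, mul_add, Fn.ev_map_add]; ring
lemma BB_mul_left (c : ℝ) (f g : ℝ[X]) : BB v w (C c * f) g = c * BB v w f g := by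
  simp only [BB, derivative_C_mul, mul_assoc, Fn.ev_map_C_mul]; ring
lemma BB_mul_right (c : ℝ) (f g : ℝ[X]) : BB v w f (C c * g) = c * BB v w f g := by
  simp only [BB, derivative_C_mul]
  rw [show derivative f * (C c * derivative g) = C c * (derivative f * derivative g) by ring,
    show derivative (derivative f) * (C c * derivative (derivative g))
      = C c * (derivative (derivative f) * derivative (derivative g)) by ring,
    Fn.ev_map_C_mul, Fn.ev_map_C_mul]
  ring

variable {u v w p}

lemma exists_q (hdeg : ∀ n, (p n).degree = (n : WithBot ℕ))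
    (hu : ∀ n m, n ≠ m → u.ev (p n * p m) = 0) (hpd : ∀ g : ℝ[X], g ≠ 0 → 0 < u.ev (g * g))
    (hB : ∀ n m, n ≠ m → BB v w (p n) (p m) = 0) (N : ℕ) (f : ℝ[X]) (hf : f.natDegree ≤ N) :
    ∃ q : ℝ[X], q.natDegree ≤ N ∧ ∀ g, u.ev (q * g) = BB v w f g := by
  have hne : ∀ n, p n ≠ 0 := by
    intro n h
    have := hdeg n
    rw [h, degree_zero] at this
    exact absurd this.symm (WithBot.coe_ne_bot)
  have hnd : ∀ n, (p n).natDegree = n := fun n => natDegree_eq_of_degree_eq_some (hdeg n)
  have hh : ∀ n, u.ev (p n * p n) ≠ 0 := fun n => (hpd _ (hne n)).ne'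
  have hBf : ∀ m, N < m → BB v w f (p m) = 0 := by
    intro m hm
    refine seq_ind hdeg N (P := fun f => BB v w f (p m) = 0) (BB_zero_left v w _) ?_ ?_ ?_ f hf
    · intro f g hf hg
      rw [BB_add_left, hf, hg, add_zero]
    · intro c f hf
      rw [BB_mul_left, hf, mul_zero]
    · intro n hn
      exact hB n m (by omega)
  set q : ℝ[X] := ∑ j ∈ Finset.range (N + 1), C (BB v w f (p j) / u.ev (p j * p j)) * p j with hq
  have hsum : ∀ (s : Finset ℕ) (g : ℝ[X]), u.ev ((∑ j ∈ s,
      C (BB v w f (p j) / u.ev (p j * p j)) * p j) * g)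
      = ∑ j ∈ s, BB v w f (p j) / u.ev (p j * p j) * u.ev (p j * g) := by
    intro s g
    induction s using Finset.induction_on with
    | empty => simp
    | insert a s ha ih =>
      rw [Finset.sum_insert ha, Finset.sum_insert ha, add_mul, Fn.ev_map_add, ih, mul_assoc,
        Fn.ev_map_C_mul]
  refine ⟨q, ?_, ?_⟩
  · rw [hq]
    apply natDegree_sum_le_of_forall_le
    intro j hj
    refine (natDegree_C_mul_le _ _).trans ?_
    rw [hnd]
    have := Finset.mem_range.1 hj
    omega
  · intro g
    refine seq_ind hdeg g.natDegree (P := fun g => u.ev (q * g) = BB v w f g) ?_ ?_ ?_ ?_ g le_rfl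
    · rw [BB_zero_right]; simp
    · intro f g hf hg
      rw [BB_add_right, mul_add, Fn.ev_map_add, hf, hg]
    · intro c f hf
      rw [BB_mul_right, show q * (C c * f) = C c * (q * f) by ring, Fn.ev_map_C_mul, hf]
    · intro m _
      rw [hq, hsum]
      by_cases hm : m ≤ N
      · rw [Finset.sum_eq_single m]
        · have := hh m
          field_simp
        · intro j _ hj
          rw [hu j m hj, mul_zero]
        · intro h
          exact absurd (Finset.mem_range.2 (by omega)) h
      · rw [hBf m (by omega)]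
        apply Finset.sum_eq_zero
        intro j hj
        have := Finset.mem_range.1 hj
        rw [hu j m (by omega), mul_zero]

theorem exists_KD (hdeg : ∀ n, (p n).degree = (n : WithBot ℕ))
    (hu : ∀ n m, n ≠ m → u.ev (p n * p m) = 0) (hpd : ∀ g : ℝ[X], g ≠ 0 → 0 < u.ev (g * g))
    (hv : ∀ g : ℝ[X], 0 ≤ v.ev (g * g)) (hw : ∀ g : ℝ[X], 0 ≤ w.ev (g * g)) (hw1 : 0 < w.ev 1)
    (hB : ∀ n m, n ≠ m → BB v w (p n) (p m) = 0) : Good u := by
  have hne : ∀ n, p n ≠ 0 := by
    intro n h
    have := hdeg n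
    rw [h, degree_zero] at this
    exact absurd this.symm (WithBot.coe_ne_bot)
  have hnd : ∀ n, (p n).natDegree = n := fun n => natDegree_eq_of_degree_eq_some (hdeg n)
  -- E
  obtain ⟨E, hEd, hE⟩ := exists_q hdeg hu hpd hB 1 X (by simp)
  have iv : ∀ g, v.ev (derivative g) = u.ev (E * g) := by
    intro g
    rw [hE, BB]; simp
  obtain ⟨q2, hq2d, hq2⟩ := exists_q hdeg hu hpd hB 2 (X ^ 2) (by simp)
  obtain ⟨q3, hq3d, hq3⟩ := exists_q hdeg hu hpd hB 3 (X ^ 3) (by simp)
  obtain ⟨q4, hq4d, hq4⟩ := exists_q hdeg hu hpd hB 4 (X ^ 4) (by simp)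
  have c2 : (C ((2 : ℕ) : ℝ) : ℝ[X]) = C 2 := rfl
  have c3 : (C ((3 : ℕ) : ℝ) : ℝ[X]) = C 3 := rfl
  have c4 : (C ((4 : ℕ) : ℝ) : ℝ[X]) = C 4 := rfl
  set Cp : ℝ[X] := C (1/2) * q2 - X * E with hCp
  have iii : ∀ g, w.ev (derivative (derivative g)) - v.ev g = u.ev (Cp * g) := by
    intro g
    have h1 := hq2 g
    rw [BB, derivative_X_pow, derivative_mul, derivative_C, c2] at h1
    simp only [show 2 - 1 = 1 from rfl, pow_one, derivative_X, zero_mul, zero_add, mul_one] at h1
    rw [mul_assoc, Fn.ev_map_C_mul, Fn.ev_map_C_mul] at h1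
    have h2 := iv (X * g)
    rw [derivative_mul, derivative_X, one_mul, Fn.ev_map_add] at h2
    have e : Cp * g = C (1/2) * (q2 * g) - E * (X * g) := by rw [hCp]; ring
    rw [e, Fn.ev_map_sub, Fn.ev_map_C_mul]
    linarith
  set B : ℝ[X] := C (1/12) * (q3 - C 3 * (X ^ 2 * E) - C 6 * (X * Cp)) with hBdef
  have ii : ∀ g, -w.ev (derivative g) = u.ev (B * g) := by
    intro g
    have h1 := hq3 g
    rw [BB, derivative_X_pow, derivative_mul, derivative_C, derivative_X_pow, c2, c3] at h1
    simp only [show 3 - 1 = 2 from rfl, show 2 - 1 = 1 from rfl, pow_one, zero_mul, zero_add] at h1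
    have e1 : (C 3 * X ^ 2 * derivative g : ℝ[X]) = C 3 * (X ^ 2 * derivative g) := by ring
    have e2 : (C 3 * (C 2 * X) * derivative (derivative g) : ℝ[X])
        = C (3 * 2) * (X * derivative (derivative g)) := by rw [C_mul]; ring
    rw [e1, e2, Fn.ev_map_C_mul, Fn.ev_map_C_mul] at h1
    have h2 := iv (X ^ 2 * g)
    rw [derivative_mul, derivative_X_pow, c2] at h2
    simp only [show 2 - 1 = 1 from rfl, pow_one] at h2
    have e3 : (C 2 * X * g + X ^ 2 * derivative g : ℝ[X]) = C 2 * (X * g) + X ^ 2 * derivative g := by ring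
    rw [e3, Fn.ev_map_add, Fn.ev_map_C_mul] at h2
    have h3 := iii (X * g)
    rw [derivative_mul, derivative_X, one_mul, derivative_add, derivative_mul, derivative_X, one_mul,
      Fn.ev_map_add, Fn.ev_map_add] at h3
    have e : B * g = C (1/12) * (q3 * g) - C (1/4) * (E * (X ^ 2 * g)) - C (1/2) * (Cp * (X * g)) := by
      rw [hBdef]
      have a1 : (C (1/4) : ℝ[X]) = C (1/12) * C 3 := by rw [← C_mul]; congr 1; norm_num
      have a2 : (C (1/2) : ℝ[X]) = C (1/12) * C 6 := by rw [← C_mul]; congr 1; norm_num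
      rw [a1, a2]; ring
    rw [e, Fn.ev_map_sub, Fn.ev_map_sub, Fn.ev_map_C_mul, Fn.ev_map_C_mul, Fn.ev_map_C_mul]
    linarith
  set A : ℝ[X] := C (1/24) * (q4 - C 4 * (X ^ 3 * E) - C 12 * (X ^ 2 * Cp) - C 48 * (X * B)) with hAdef
  have i1 : ∀ g, w.ev g = u.ev (A * g) := by
    intro g
    have h1 := hq4 g
    rw [BB, derivative_X_pow, derivative_mul, derivative_C, derivative_X_pow, c3, c4] at h1
    simp only [show 3 - 1 = 2 from rfl, show 4 - 1 = 3 from rfl, zero_mul, zero_add] at h1
    have e1 : (C 4 * X ^ 3 * derivative g : ℝ[X]) = C 4 * (X ^ 3 * derivative g) := by ring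
    have e2 : (C 4 * (C 3 * X ^ 2) * derivative (derivative g) : ℝ[X])
        = C (4 * 3) * (X ^ 2 * derivative (derivative g)) := by rw [C_mul]; ring
    rw [e1, e2, Fn.ev_map_C_mul, Fn.ev_map_C_mul] at h1
    have h2 := iv (X ^ 3 * g)
    rw [derivative_mul, derivative_X_pow, c3] at h2
    simp only [show 3 - 1 = 2 from rfl] at h2
    have e3 : (C 3 * X ^ 2 * g + X ^ 3 * derivative g : ℝ[X])
        = C 3 * (X ^ 2 * g) + X ^ 3 * derivative g := by ring
    rw [e3, Fn.ev_map_add, Fn.ev_map_C_mul] at h2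
    have h3 := iii (X ^ 2 * g)
    have e4 : derivative (derivative (X ^ 2 * g))
        = C 2 * g + C 4 * (X * derivative g) + X ^ 2 * derivative (derivative g) := by
      rw [derivative_mul, derivative_X_pow, c2]
      simp only [show 2 - 1 = 1 from rfl, pow_one, derivative_add, derivative_mul, derivative_C,
        derivative_X, derivative_X_pow, zero_mul, zero_add, mul_one]
      rw [c2]
      have a1 : (C 4 : ℝ[X]) = C 2 + C 2 := by rw [← C_add]; congr 1; norm_num
      rw [a1]; ring
    rw [e4, Fn.ev_map_add, Fn.ev_map_add, Fn.ev_map_C_mul, Fn.ev_map_C_mul] at h3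
    have h4 := ii (X * g)
    rw [derivative_mul, derivative_X, one_mul, Fn.ev_map_add] at h4
    have e : A * g = C (1/24) * (q4 * g) - C (1/6) * (E * (X ^ 3 * g)) - C (1/2) * (Cp * (X ^ 2 * g))
        - C 2 * (B * (X * g)) := by
      rw [hAdef]
      have a1 : (C (1/6) : ℝ[X]) = C (1/24) * C 4 := by rw [← C_mul]; congr 1; norm_num
      have a2 : (C (1/2) : ℝ[X]) = C (1/24) * C 12 := by rw [← C_mul]; congr 1; norm_num
      have a3 : (C 2 : ℝ[X]) = C (1/24) * C 48 := by rw [← C_mul]; congr 1; norm_num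
      rw [a1, a2, a3]; ring
    rw [e, Fn.ev_map_sub, Fn.ev_map_sub, Fn.ev_map_sub, Fn.ev_map_C_mul, Fn.ev_map_C_mul,
      Fn.ev_map_C_mul, Fn.ev_map_C_mul]
    linarith
  -- degrees
  have hCd : Cp.natDegree ≤ 2 := by
    rw [hCp]
    refine (natDegree_sub_le _ _).trans (max_le ((natDegree_C_mul_le _ _).trans hq2d) ?_)
    refine natDegree_mul_le.trans ?_
    rw [natDegree_X]; omega
  have hBd : B.natDegree ≤ 3 := by
    rw [hBdef]
    refine (natDegree_C_mul_le _ _).trans ?_
    refine (natDegree_sub_le _ _).trans (max_le ((natDegree_sub_le _ _).trans (max_le hq3d ?_)) ?_)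
    · refine (natDegree_C_mul_le _ _).trans (natDegree_mul_le.trans ?_)
      rw [natDegree_X_pow]; omega
    · refine (natDegree_C_mul_le _ _).trans (natDegree_mul_le.trans ?_)
      rw [natDegree_X]; omega
  have hAd : A.natDegree ≤ 4 := by
    rw [hAdef]
    refine (natDegree_C_mul_le _ _).trans ?_
    refine (natDegree_sub_le _ _).trans (max_le ((natDegree_sub_le _ _).trans (max_le
      ((natDegree_sub_le _ _).trans (max_le hq4d ?_)) ?_)) ?_)
    · refine (natDegree_C_mul_le _ _).trans (natDegree_mul_le.trans ?_)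
      rw [natDegree_X_pow]; omega
    · refine (natDegree_C_mul_le _ _).trans (natDegree_mul_le.trans ?_)
      rw [natDegree_X_pow]; omega
    · refine (natDegree_C_mul_le _ _).trans (natDegree_mul_le.trans ?_)
      rw [natDegree_X]; omega
  have hA0 : A ≠ 0 := by
    intro h
    have := i1 1
    rw [h, zero_mul, Fn.ev_map_zero] at this
    linarith
  have hndu : ∀ P : ℝ[X], (∀ g, u.ev (P * g) = 0) → P = 0 := by
    intro P h
    by_contra hP
    have := hpd P hP
    rw [h] at this
    exact lt_irrefl _ this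
  have hepos : 0 ≤ E.coeff 1 := by
    by_cases hE0 : E = 0
    · rw [hE0]; simp
    have h1 := iv E
    have h2 := hpd E hE0
    have h3 : derivative E = C (E.coeff 1) * 1 := by
      conv_lhs => rw [eq_X_add_C_of_natDegree_le_one hEd]
      simp
    rw [h3, Fn.ev_map_C_mul] at h1
    rw [← h1] at h2
    have h4 : 0 ≤ v.ev 1 := by simpa using hv 1
    by_contra hn
    push Not at hn
    have := mul_nonpos_of_nonpos_of_nonneg hn.le h4
    linarith
  let K : KD :=
    { u := u, A := A, B := B, Cp := Cp, E := E, pd := hpd, hA0 := hA0, dA := hAd, dB := hBd,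
      dC := hCd, dE := hEd
      h1 := fun g => by
        rw [Fn.ev_map_add, ← i1, ← ii]; ring
      h2 := fun g => by
        rw [Fn.ev_map_add, Fn.ev_map_add, ← ii, ← iii, ← iv]; ring
      wpos := fun g => by rw [← i1]; exact hw g
      epos := hepos }
  apply K.good
  -- no common factor
  intro π hπ h1 h2 h3 h4
  change π ∣ A at h1
  change π ∣ B at h2
  change π ∣ Cp at h3
  change π ∣ E at h4
  -- the operator
  set L : ℝ[X] → ℝ[X] := fun f => A * derivative (derivative (derivative (derivative f)))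
    + C 2 * (B * derivative (derivative (derivative f))) + Cp * derivative (derivative f)
    + E * derivative f with hL
  have hLB : ∀ f h, u.ev (L f * h) = BB v w f h := by
    intro f h
    have e : L f * h = A * (derivative (derivative (derivative (derivative f))) * h)
        + C 2 * (B * (derivative (derivative (derivative f)) * h))
        + Cp * (derivative (derivative f) * h) + E * (derivative f * h) := by
      rw [hL]; ring
    rw [e, Fn.ev_map_add, Fn.ev_map_add, Fn.ev_map_add, Fn.ev_map_C_mul, ← i1, ← ii, ← iii, ← iv]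
    simp only [derivative_mul, derivative_add, Fn.ev_map_add, BB]
    ring
  have hLp : ∀ n, L (p n) = C (BB v w (p n) (p n) / u.ev (p n * p n)) * p n := by
    intro n
    rw [← sub_eq_zero]
    apply hndu
    intro g
    refine seq_ind hdeg g.natDegree (P := fun g => u.ev ((L (p n)
      - C (BB v w (p n) (p n) / u.ev (p n * p n)) * p n) * g) = 0) ?_ ?_ ?_ ?_ g le_rfl
    · simp
    · intro f g hf hg
      rw [mul_add, Fn.ev_map_add, hf, hg, add_zero]
    · intro c f hf
      rw [show (L (p n) - C (BB v w (p n) (p n) / u.ev (p n * p n)) * p n) * (C c * f)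
        = C c * ((L (p n) - C (BB v w (p n) (p n) / u.ev (p n * p n)) * p n) * f) by ring,
        Fn.ev_map_C_mul, hf, mul_zero]
    · intro m _
      rw [sub_mul, Fn.ev_map_sub, hLB, mul_assoc, Fn.ev_map_C_mul]
      by_cases hm : m = n
      · rw [hm]
        have := (hpd _ (hne n)).ne'
        field_simp
        ring
      · rw [hB n m (Ne.symm hm), hu n m (Ne.symm hm)]; ring
  -- w is positive definite
  have hwpd : ∀ g : ℝ[X], g ≠ 0 → 0 < w.ev (g * g) := by
    intro g hg
    refine lt_of_le_of_ne (hw g) ?_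
    intro h0
    have h5 : ∀ h, w.ev (g * h) = 0 := by
      intro h
      by_contra hne
      have key : ∀ t : ℝ, 0 ≤ w.ev (h * h) + 2 * t * w.ev (g * h) := by
        intro t
        have := hw (h + C t * g)
        have e : (h + C t * g) * (h + C t * g) = h * h + C (2 * t) * (g * h) + C (t ^ 2) * (g * g) := by
          simp only [C_mul, C_pow]
          rw [show (C (2 : ℝ) : ℝ[X]) = 2 from rfl]; ring
        rw [e, Fn.ev_map_add, Fn.ev_map_add, Fn.ev_map_C_mul, Fn.ev_map_C_mul, ← h0] at this
        linarith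
      have := key (-(w.ev (h * h) + 1) / (2 * w.ev (g * h)))
      have e : 2 * (-(w.ev (h * h) + 1) / (2 * w.ev (g * h))) * w.ev (g * h) = -(w.ev (h * h) + 1) := by
        field_simp
      rw [e] at this
      linarith
    have h6 : A * g = 0 := by
      apply hndu
      intro h
      rw [mul_assoc, ← i1]; exact h5 h
    exact (mul_ne_zero hA0 hg) h6
  have hdd : ∀ n, derivative (derivative (p (n + 2))) ≠ 0 := by
    intro n h
    have h5 : (derivative (p (n + 2))).natDegree = 0 := derivative_eq_zero.1 h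
    have h6 : (derivative (p (n + 2))).natDegree = n + 1 := by
      rw [natDegree_derivative, hnd]; omega
    omega
  have hdvd : ∀ n, π ∣ p (n + 2) := by
    intro n
    have h5 : π ∣ L (p (n + 2)) := by
      rw [hL]
      refine dvd_add (dvd_add (dvd_add ?_ ?_) ?_) ?_
      · exact h1.mul_right _
      · exact (h2.mul_right _).mul_left _
      · exact h3.mul_right _
      · exact h4.mul_right _
    rw [hLp] at h5
    have hlam : BB v w (p (n + 2)) (p (n + 2)) / u.ev (p (n + 2) * p (n + 2)) ≠ 0 := by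
      have a1 := hwpd _ (hdd n)
      have a2 := hv (derivative (p (n + 2)))
      have a3 := hpd _ (hne (n + 2))
      have : 0 < BB v w (p (n + 2)) (p (n + 2)) := by rw [BB]; linarith
      positivity
    have h6 : π ∣ C (BB v w (p (n + 2)) (p (n + 2)) / u.ev (p (n + 2) * p (n + 2)))⁻¹ *
        (C (BB v w (p (n + 2)) (p (n + 2)) / u.ev (p (n + 2) * p (n + 2))) * p (n + 2)) :=
      h5.mul_left _
    rw [← mul_assoc, ← C_mul, inv_mul_cancel₀ hlam, C_1, one_mul] at h6
    exact h6
  set k := π.natDegree with hk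
  have hkpos : 0 < k := hπ.natDegree_pos
  obtain ⟨s, hs⟩ := hdvd 0
  obtain ⟨r, hr⟩ := hdvd k
  have hs0 : s ≠ 0 := by rintro rfl; exact hne 2 (by rw [hs, mul_zero])
  have hr0 : r ≠ 0 := by rintro rfl; exact hne (k + 2) (by rw [hr, mul_zero])
  have hsd : s.natDegree + k = 2 := by
    have := hnd 2
    rw [hs, natDegree_mul hπ.ne_zero hs0] at this
    omega
  have hrd : r.natDegree = 2 := by
    have := hnd (k + 2)
    rw [hr, natDegree_mul hπ.ne_zero hr0] at this
    omega
  have horth : ∀ m (f : ℝ[X]), f.natDegree < m → u.ev (p m * f) = 0 := by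
    intro m f hf
    refine seq_ind hdeg f.natDegree (P := fun f => u.ev (p m * f) = 0) ?_ ?_ ?_ ?_ f le_rfl
    · simp
    · intro f g hf hg
      rw [mul_add, Fn.ev_map_add, hf, hg, add_zero]
    · intro c f hf
      rw [show p m * (C c * f) = C c * (p m * f) by ring, Fn.ev_map_C_mul, hf, mul_zero]
    · intro n hn
      exact hu m n (by omega)
  have z1 : u.ev (p (k + 2) * s) = 0 := horth _ _ (by omega)
  have z2 : u.ev (p 2 * r) = 0 := by
    have hs' : p 2 = π * s := hs
    rw [hs', show π * s * r = (π * r) * s by ring, ← hr]; exact z1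
  -- but r = c p 2 + lower
  set c := r.coeff 2 / (p 2).coeff 2 with hc
  have hlc2 : (p 2).coeff 2 ≠ 0 := by
    have := leadingCoeff_ne_zero.2 (hne 2)
    rwa [leadingCoeff, hnd] at this
  have hlcr : r.coeff 2 ≠ 0 := by
    have := leadingCoeff_ne_zero.2 hr0
    rwa [leadingCoeff, hrd] at this
  have hlow : (r - C c * p 2).natDegree < 2 := by
    have : (r - C c * p 2).natDegree ≤ 1 := by
      rw [natDegree_le_iff_coeff_eq_zero]
      intro m hm
      rw [coeff_sub, coeff_C_mul]
      by_cases hm1 : m = 2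
      · rw [hm1, hc]
        field_simp
        ring
      · rw [coeff_eq_zero_of_natDegree_lt (by omega),
          coeff_eq_zero_of_natDegree_lt (by rw [hnd]; omega)]
        ring
    omega
  have z3 := horth 2 _ hlow
  rw [mul_sub, show p 2 * (C c * p 2) = C c * (p 2 * p 2) by ring, Fn.ev_map_sub,
    Fn.ev_map_C_mul, z2] at z3
  have z4 := hpd _ (hne 2)
  have hc0 : c ≠ 0 := div_ne_zero hlcr hlc2
  have : c * u.ev (p 2 * p 2) = 0 := by linarith
  rcases mul_eq_zero.1 this with h | h
  · exact hc0 h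
  · exact z4.ne' h

end

/-- The final theorem in the form of the frozen statement. -/
theorem main (φ ψ η : MeasureTheory.Measure ℝ) (p : ℕ → Polynomial ℝ)
    (hφ : ∀ k : ℕ, MeasureTheory.Integrable (fun x : ℝ => x ^ k) φ)
    (hψ : ∀ k : ℕ, MeasureTheory.Integrable (fun x : ℝ => x ^ k) ψ)
    (hη : ∀ k : ℕ, MeasureTheory.Integrable (fun x : ℝ => x ^ k) η)
    (hinf : ∀ s : Finset ℝ, φ ((↑s : Set ℝ)ᶜ) ≠ 0)
    (hη0 : η ≠ 0)
    (hdeg : ∀ n : ℕ, (p n).degree = ((n : ℕ) : WithBot ℕ))
    (horth : ∀ n m : ℕ, n ≠ m → ∫ x, (p n).eval x * (p m).eval x ∂φ = 0)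
    (hS : ∀ n m : ℕ, n ≠ m →
      (∫ x, (p n).eval x * (p m).eval x ∂φ)
        + (∫ x, (Polynomial.derivative (p n)).eval x
              * (Polynomial.derivative (p m)).eval x ∂ψ)
        + (∫ x, (Polynomial.derivative (Polynomial.derivative (p n))).eval x
              * (Polynomial.derivative (Polynomial.derivative (p m))).eval x ∂η) = 0) :
    Good (measFn φ hφ) := by
  have hpd : ∀ g : ℝ[X], g ≠ 0 → 0 < (measFn φ hφ).ev (g * g) := by
    intro g hg
    rw [measFn_ev]
    have hnn : 0 ≤ fun x => (g * g).eval x := fun x => by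
      simp only [eval_mul]; exact mul_self_nonneg _
    rw [integral_pos_iff_support_of_nonneg hnn (integrable_poly hφ _)]
    have : Function.support (fun x => (g * g).eval x) = (↑g.roots.toFinset : Set ℝ)ᶜ := by
      ext x
      simp only [Function.mem_support, eval_mul, mem_compl_iff, Finset.mem_coe, Multiset.mem_toFinset,
        mem_roots hg, IsRoot]
      constructor
      · intro h h2; apply h; rw [h2, mul_zero]
      · intro h h2; exact h (mul_self_eq_zero.1 h2)
    rw [this]
    exact pos_iff_ne_zero.2 (hinf _)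
  have hv : ∀ g : ℝ[X], 0 ≤ (measFn ψ hψ).ev (g * g) := by
    intro g
    rw [measFn_ev]
    exact integral_nonneg fun x => by simp only [eval_mul]; exact mul_self_nonneg _
  have hw : ∀ g : ℝ[X], 0 ≤ (measFn η hη).ev (g * g) := by
    intro g
    rw [measFn_ev]
    exact integral_nonneg fun x => by simp only [eval_mul]; exact mul_self_nonneg _
  have hw1 : 0 < (measFn η hη).ev 1 := by
    rw [measFn_ev]
    have hint : Integrable (fun x : ℝ => (1 : ℝ[X]).eval x) η := integrable_poly hη 1
    have hnn : 0 ≤ fun x : ℝ => (1 : ℝ[X]).eval x := fun x => by simp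
    rw [integral_pos_iff_support_of_nonneg hnn hint]
    have : Function.support (fun x : ℝ => (1 : ℝ[X]).eval x) = univ := by
      ext x; simp
    rw [this]
    exact pos_iff_ne_zero.2 (fun h => hη0 (Measure.measure_univ_eq_zero.1 h))
  apply exists_KD (p := p) (v := measFn ψ hψ) (w := measFn η hη) hdeg ?_ hpd hv hw hw1 ?_
  · intro n m hnm
    rw [measFn_ev]
    simp only [eval_mul]
    exact horth n m hnm
  · intro n m hnm
    rw [BB, measFn_ev, measFn_ev]
    simp only [eval_mul]
    have := hS n m hnm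
    rw [horth n m hnm, zero_add] at this
    exact this

end Pool.Agent.W5h47.Krall
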