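import Mathlib

set_option autoImplicit false
open Polynomial

namespace Pool.Agent.W5h47.Krall

/-- Abstract data: a module over `ℝ[X]` with a derivation-like additive map `D`, elements `u, v` and
polynomials `A, B, C, E` with `D (A u) = B u`, `D (B u) = C u + v`, `D v = - E u`. -/
structure Abs (M : Type*) [AddCommGroup M] [Module ℝ[X] M] where
  D : M →+ M
  hD : ∀ (P : ℝ[X]) (z : M), D (P • z) = derivative P • z + P • D z
  u : M
  v : M
  A : ℝ[X]
  B : ℝ[X]
  Cp : ℝ[X]
  E : ℝ[X]
  hA : D (A • u) = B • u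
  hB : D (B • u) = Cp • u + v
  hv : D v = -(E • u)
  hA0 : A ≠ 0
  nd : ∀ P : ℝ[X], P • u = 0 → P = 0

namespace Abs

variable {M : Type*} [AddCommGroup M] [Module ℝ[X] M] (S : Abs M)

/-- The auxiliary polynomial. -/
noncomputable def G : ℝ[X] :=
  S.A * S.Cp - S.A * derivative S.B - S.B ^ 2 + S.B * derivative S.A

lemma A_Du : S.A • S.D S.u = (S.B - derivative S.A) • S.u := by
  have h := S.hA
  rw [S.hD] at h
  rw [sub_smul, ← h]; abel

lemma B_Du : S.B • S.D S.u = (S.Cp - derivative S.B) • S.u + S.v := by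
  have h := S.hB
  rw [S.hD] at h
  have : S.B • S.D S.u = (derivative S.B • S.u + S.B • S.D S.u) - derivative S.B • S.u := by abel
  rw [this, h, sub_smul]; abel

lemma A_v : S.A • S.v = -(S.G • S.u) := by
  have h1 := S.A_Du
  have h2 := S.B_Du
  have h3 : S.v = S.B • S.D S.u - (S.Cp - derivative S.B) • S.u := by rw [h2]; abel
  rw [h3, smul_sub, smul_smul, mul_comm S.A S.B, ← smul_smul, h1, G]
  module

/-- The basic polynomial identity. -/
lemma P2 : S.A * derivative S.G + S.G * S.B - 2 * S.G * derivative S.A = S.A ^ 2 * S.E := by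
  have h1 := S.A_Du
  have h2 := S.A_v
  have h3 : S.D (S.A • S.v) = S.D (-(S.G • S.u)) := by rw [h2]
  rw [S.hD, map_neg, S.hD, S.hv] at h3
  have h4 : S.A • (derivative S.A • S.v + S.A • -(S.E • S.u))
      = S.A • -(derivative S.G • S.u + S.G • S.D S.u) := by rw [h3]
  have h5 : S.A • (derivative S.A • S.v) = derivative S.A • -(S.G • S.u) := by
    rw [smul_smul, mul_comm, ← smul_smul, h2]
  have h6 : S.A • (S.G • S.D S.u) = S.G • ((S.B - derivative S.A) • S.u) := by
    rw [smul_smul, mul_comm, ← smul_smul, h1]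
  rw [smul_add, h5, smul_neg (r := S.A) (x := derivative S.G • S.u + S.G • S.D S.u), smul_add, h6]
    at h4
  have h7 : (S.A * derivative S.G + S.G * S.B - 2 * S.G * derivative S.A - S.A ^ 2 * S.E) • S.u
      = 0 := by
    have h8 : derivative S.A • -(S.G • S.u) + S.A • S.A • -(S.E • S.u)
        - -(S.A • derivative S.G • S.u + S.G • (S.B - derivative S.A) • S.u) = 0 := by
      rw [h4]; abel
    rw [← h8]
    module
  have := S.nd _ h7
  linear_combination this

lemma P2' : S.A * (S.Cp * (S.B - derivative S.A) + S.A * derivative S.Cp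
      - S.A * derivative (derivative S.B) - 3 * S.B * derivative S.B
      + S.B * derivative (derivative S.A) + 2 * derivative S.A * derivative S.B - S.A * S.E)
    = S.B * (S.B - derivative S.A) * (S.B - 2 * derivative S.A) := by
  have h := S.P2
  have hG : derivative S.G = derivative S.A * S.Cp + S.A * derivative S.Cp
      - (derivative S.A * derivative S.B + S.A * derivative (derivative S.B))
      - 2 * S.B * derivative S.B
      + (derivative S.B * derivative S.A + S.B * derivative (derivative S.A)) := by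
    unfold G
    rw [pow_two]
    simp only [derivative_add, derivative_sub, derivative_mul]
    ring
  rw [hG] at h
  unfold G at h
  linear_combination h

/-- The localised span of `u` and `v`. -/
def Mem (Γ : ℝ[X]) (z : M) : Prop := ∃ (k : ℕ) (a b : ℝ[X]), Γ ^ k • z = a • S.u + b • S.v

lemma Gam_Du {Γ r t : ℝ[X]} (hΓ : Γ = r * S.A + t * S.B) :
    Γ • S.D S.u = (r * (S.B - derivative S.A) + t * (S.Cp - derivative S.B)) • S.u + t • S.v := by
  have h1 := S.A_Du
  have h2 := S.B_Du
  rw [hΓ, add_smul, ← smul_smul, ← smul_smul, h1, h2]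
  module

lemma Mem_D {Γ r t : ℝ[X]} (hΓ : Γ = r * S.A + t * S.B) {z : M} (hz : S.Mem Γ z) :
    S.Mem Γ (S.D z) := by
  obtain ⟨k, a, b, h⟩ := hz
  have h0 := S.Gam_Du hΓ
  set P1 := r * (S.B - derivative S.A) + t * (S.Cp - derivative S.B) with hP1
  have h1 : derivative (Γ ^ k) • z + Γ ^ k • S.D z
      = derivative a • S.u + a • S.D S.u + (derivative b • S.v + b • -(S.E • S.u)) := by
    rw [← S.hD, h, map_add, S.hD, S.hD, S.hv]
  refine ⟨2 * k + 1, Γ ^ k * (Γ * derivative a + a * P1 - Γ * b * S.E)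
      - Γ * derivative (Γ ^ k) * a,
    Γ ^ k * (a * t + Γ * derivative b) - Γ * derivative (Γ ^ k) * b, ?_⟩
  have h2 : Γ ^ (2 * k + 1) • S.D z = (Γ ^ k * Γ) • (derivative (Γ ^ k) • z + Γ ^ k • S.D z)
      - (Γ * derivative (Γ ^ k)) • (Γ ^ k • z) := by
    have : Γ ^ (2 * k + 1) = Γ ^ k * Γ * Γ ^ k := by ring
    rw [this]; module
  rw [h2, h1, h]
  have h3 : (Γ ^ k * Γ) • (derivative a • S.u + a • S.D S.u + (derivative b • S.v + b • -(S.E • S.u)))
      = (Γ ^ k * Γ) • (derivative a • S.u + (derivative b • S.v + b • -(S.E • S.u)))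
        + (Γ ^ k * a) • (Γ • S.D S.u) := by module
  rw [h3, h0]
  module

lemma tors_A {Γ : ℝ[X]} (hinj : ∀ z : M, Γ • z = 0 → z = 0) {z : M} (hz : S.Mem Γ z)
    {P : ℝ[X]} (hP : P ≠ 0) (hPz : P • z = 0) : S.A • z = 0 := by
  obtain ⟨k, a, b, h⟩ := hz
  have hinjk : ∀ (k : ℕ) (z : M), Γ ^ k • z = 0 → z = 0 := by
    intro k
    induction k with
    | zero => intro z hz; simpa using hz
    | succ n ih =>
      intro z hz
      rw [pow_succ, ← smul_smul] at hz
      exact hinj z (ih _ hz)
  have hv := S.A_v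
  have h1 : S.A • (Γ ^ k • z) = (a * S.A - b * S.G) • S.u := by
    rw [h]
    have : S.A • (a • S.u + b • S.v) = (a * S.A) • S.u + b • (S.A • S.v) := by module
    rw [this, hv]; module
  have h2 : (P * (a * S.A - b * S.G)) • S.u = 0 := by
    rw [← smul_smul, ← h1]
    have : P • S.A • Γ ^ k • z = S.A • Γ ^ k • P • z := by module
    rw [this, hPz]; simp
  have h3 := S.nd _ h2
  have h4 : a * S.A - b * S.G = 0 := (mul_eq_zero.1 h3).resolve_left hP
  rw [h4, zero_smul] at h1
  apply hinjk k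
  rw [← h1]; module

lemma tors_zero {Γ r t : ℝ[X]} (hΓ : Γ = r * S.A + t * S.B)
    (hinj : ∀ z : M, Γ • z = 0 → z = 0) {z : M} (hz : S.Mem Γ z) (hAz : S.A • z = 0) : z = 0 := by
  have key : ∀ (n : ℕ) (Q : ℝ[X]), Q.natDegree = n → Q ≠ 0 →
      (∀ z : M, S.Mem Γ z → S.A • z = 0 → Q • z = 0) →
      ∀ z : M, S.Mem Γ z → S.A • z = 0 → z = 0 := by
    intro n
    induction n using Nat.strong_induction_on with
    | _ n ih =>
      intro Q hQn hQ0 hQ z hz hAz
      by_cases hn : n = 0
      · subst hn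
        have hc := eq_C_of_natDegree_eq_zero hQn
        have hc0 : Q.coeff 0 ≠ 0 := by
          intro h; rw [h] at hc; simp at hc; exact hQ0 hc
        have h1 := hQ z hz hAz
        rw [hc] at h1
        have h2 : Polynomial.C ((Q.coeff 0)⁻¹) • (Polynomial.C (Q.coeff 0) • z) = 0 := by
          rw [h1, smul_zero]
        rw [smul_smul, ← C_mul, inv_mul_cancel₀ hc0, C_1, one_smul] at h2
        exact h2
      · have hd0 : derivative Q ≠ 0 := by
          intro h
          have := derivative_eq_zero.1 h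
          omega
        have hlt : (derivative Q).natDegree < n := by
          rw [← hQn]; exact natDegree_derivative_lt (by omega)
        refine ih _ hlt (derivative Q) rfl hd0 ?_ z hz hAz
        intro z hz hAz
        have hDz := S.Mem_D hΓ hz
        have h1 : derivative S.A • z + S.A • S.D z = 0 := by
          rw [← S.hD, hAz, map_zero]
        have h2 : (S.A * S.A) • S.D z = 0 := by
          have : (S.A * S.A) • S.D z = S.A • (derivative S.A • z + S.A • S.D z)
              - derivative S.A • (S.A • z) := by module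
          rw [this, h1, hAz]; simp
        have h3 := S.tors_A hinj hDz (mul_ne_zero S.hA0 S.hA0) h2
        have h4 := hQ _ hDz h3
        have h5 := hQ z hz hAz
        have h6 : derivative Q • z + Q • S.D z = 0 := by
          rw [← S.hD, h5, map_zero]
        rw [h4, add_zero] at h6
        exact h6
  exact key _ S.A rfl S.hA0 (fun z _ h => h) z hz hAz

/-- The main structural lemma: `u = A₀ y` with `Γ y' = T y`. -/
theorem generator {Γ r t : ℝ[X]} (hΓ : Γ = r * S.A + t * S.B)
    (hinj : ∀ z : M, Γ • z = 0 → z = 0) :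
    ∃ (y : M) (A0 T : ℝ[X]), A0 ≠ 0 ∧ A0 • y = S.u ∧ Γ • S.D y = T • y := by
  classical
  -- gcd of A and G
  obtain ⟨g, A0, G0, hA, hG, r2, t2, hb⟩ : ∃ g A0 G0 : ℝ[X], S.A = g * A0 ∧ S.G = -(g * G0) ∧
      ∃ r2 t2 : ℝ[X], r2 * G0 + t2 * A0 = 1 := by
    have hg0 : EuclideanDomain.gcd S.A S.G ≠ 0 := by
      intro h
      exact S.hA0 ((EuclideanDomain.gcd_eq_zero_iff.1 h).1)
    obtain ⟨a0, ha0⟩ := EuclideanDomain.gcd_dvd_left S.A S.G
    obtain ⟨b0, hb0⟩ := EuclideanDomain.gcd_dvd_right S.A S.G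
    have hbez := EuclideanDomain.gcd_eq_gcd_ab S.A S.G
    set g := EuclideanDomain.gcd S.A S.G
    refine ⟨g, a0, -b0, ha0, by rw [hb0]; ring, -(EuclideanDomain.gcdB S.A S.G),
      EuclideanDomain.gcdA S.A S.G, ?_⟩
    have h1 : g * (b0 * EuclideanDomain.gcdB S.A S.G + a0 * EuclideanDomain.gcdA S.A S.G) = g * 1 := by
      have e1 : g * (b0 * EuclideanDomain.gcdB S.A S.G + a0 * EuclideanDomain.gcdA S.A S.G)
        = (g * a0) * EuclideanDomain.gcdA S.A S.G + (g * b0) * EuclideanDomain.gcdB S.A S.G := by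
          ring
      rw [e1, ← ha0, ← hb0, ← hbez, mul_one]
    have h2 := mul_left_cancel₀ hg0 h1
    linear_combination h2
  have hg : g ≠ 0 := by
    intro h; apply S.hA0; rw [hA, h, zero_mul]
  have hA00 : A0 ≠ 0 := by
    intro h; apply S.hA0; rw [hA, h, mul_zero]
  have hAv := S.A_v
  -- A0 v = G0 u
  have hz : A0 • S.v - G0 • S.u = 0 := by
    apply S.tors_zero hΓ hinj (z := A0 • S.v - G0 • S.u)
    · exact ⟨0, -G0, A0, by rw [pow_zero]; module⟩
    · have : S.A • (A0 • S.v - G0 • S.u) = A0 • (S.A • S.v) - (G0 * S.A) • S.u := by module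
      rw [this, hAv, hA, hG]; module
  have hz' : A0 • S.v = G0 • S.u := sub_eq_zero.1 hz
  have hy1 : A0 • (r2 • S.v + t2 • S.u) = S.u := by
    have : A0 • (r2 • S.v + t2 • S.u) = r2 • (A0 • S.v) + (t2 * A0) • S.u := by module
    rw [this, hz']
    have : r2 • G0 • S.u + (t2 * A0) • S.u = (r2 * G0 + t2 * A0) • S.u := by module
    rw [this, hb, one_smul]
  have hy2 : G0 • (r2 • S.v + t2 • S.u) = S.v := by
    have : G0 • (r2 • S.v + t2 • S.u) = (r2 * G0) • S.v + t2 • (G0 • S.u) := by module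
    rw [this, ← hz']
    have : (r2 * G0) • S.v + t2 • A0 • S.v = (r2 * G0 + t2 * A0) • S.v := by module
    rw [this, hb, one_smul]
  set y := r2 • S.v + t2 • S.u with hy
  have hDu := S.Gam_Du hΓ
  set P1 := r * (S.B - derivative S.A) + t * (S.Cp - derivative S.B) with hP1
  have e1 : derivative A0 • y + A0 • S.D y = S.D S.u := by rw [← S.hD, hy1]
  have e2 : derivative G0 • y + G0 • S.D y = -(S.E • S.u) := by rw [← S.hD, hy2, S.hv]
  refine ⟨y, A0, -(Γ * r2 * (S.E * A0 + derivative G0))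
    + t2 * (P1 * A0 + t * G0 - Γ * derivative A0), hA00, hy1, ?_⟩
  have e3 : Γ • S.D y = (Γ * r2) • (derivative G0 • y + G0 • S.D y)
      + t2 • (Γ • (derivative A0 • y + A0 • S.D y))
      - (Γ * r2 * derivative G0 + t2 * Γ * derivative A0) • y := by
    have : Γ • S.D y = (r2 * G0 + t2 * A0) • (Γ • S.D y) := by rw [hb, one_smul]
    rw [this]; module
  rw [e3, e1, e2, hDu]
  have e4 : (Γ * r2) • -(S.E • S.u) + t2 • (P1 • S.u + t • S.v)
      = (Γ * r2) • -(S.E • (A0 • y)) + t2 • (P1 • (A0 • y) + t • (G0 • y)) := by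
    rw [hy1, hy2]
  rw [e4]
  module

end Abs

end Pool.Agent.W5h47.Krall
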