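import Pool.Agent.W5h47.Krall.Classify

set_option autoImplicit false
open Polynomial MeasureTheory

namespace Pool.Agent.W5h47.Krall

/-- The list of classical and Krall measures, as in the frozen statement. -/
def ListMeas (μ : MeasureTheory.Measure ℝ) : Prop :=
  ((∃ α β : ℝ, -1 < α ∧ -1 < β ∧
          μ = MeasureTheory.volume.withDensity (fun x : ℝ => ENNReal.ofReal
            ((Set.Icc (-1 : ℝ) 1).indicator (fun y : ℝ => (1 - y) ^ α * (1 + y) ^ β) x)))
        ∨ (∃ α : ℝ, -1 < α ∧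
          μ = MeasureTheory.volume.withDensity (fun x : ℝ => ENNReal.ofReal
            ((Set.Ioi (0 : ℝ)).indicator (fun y : ℝ => y ^ α * Real.exp (-y)) x)))
        ∨ (μ = MeasureTheory.volume.withDensity (fun x : ℝ => ENNReal.ofReal
            (Real.exp (-(x ^ 2)))))
        ∨ (∃ A : ℝ, 0 < A ∧
          μ = MeasureTheory.volume.restrict (Set.Icc (-1 : ℝ) 1)
            + ENNReal.ofReal (1 / A) • (MeasureTheory.Measure.dirac (-1 : ℝ)
                + MeasureTheory.Measure.dirac (1 : ℝ)))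
        ∨ (∃ R : ℝ, 0 < R ∧
          μ = MeasureTheory.volume.withDensity (fun x : ℝ => ENNReal.ofReal
            ((Set.Ioi (0 : ℝ)).indicator (fun y : ℝ => Real.exp (-y)) x))
            + ENNReal.ofReal (1 / R) • MeasureTheory.Measure.dirac (0 : ℝ))
        ∨ (∃ α M : ℝ, -1 < α ∧ 0 < M ∧
          μ = MeasureTheory.volume.withDensity (fun x : ℝ => ENNReal.ofReal
            ((Set.Ico (0 : ℝ) 1).indicator (fun y : ℝ => (1 - y) ^ α) x))
            + ENNReal.ofReal (1 / M) • MeasureTheory.Measure.dirac (0 : ℝ)))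

/-- The functional is, up to scaling and an affine change of variable, the moment functional of a
measure in the list. -/
def Good (z : Fn) : Prop :=
  ∃ μ : Measure ℝ, ListMeas μ ∧ ∃ a b l : ℝ, a ≠ 0 ∧ 0 < l ∧
    ∀ g : ℝ[X], z.ev g = l * ∫ x, (g.comp (C a * X + C b)).eval x ∂μ

/-- pull back -/
noncomputable def Fn.pull (z : Fn) (S : ℝ[X]) : Fn :=
  (show ℝ[X] →ₗ[ℝ] ℝ from z).comp (aeval S : ℝ[X] →ₐ[ℝ] ℝ[X]).toLinearMap

@[simp] lemma Fn.ev_pull (z : Fn) (S g : ℝ[X]) : (z.pull S).ev g = z.ev (g.comp S) := rfl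

/-- `T` -/
noncomputable def TT (a b : ℝ) : ℝ[X] := C a * X + C b
/-- `T⁻¹` -/
noncomputable def SS (a b : ℝ) : ℝ[X] := C a⁻¹ * (X - C b)

lemma TT_SS {a : ℝ} (b : ℝ) (ha : a ≠ 0) : (TT a b).comp (SS a b) = X := by
  have : C a * C a⁻¹ = (1 : ℝ[X]) := by rw [← C_mul, mul_inv_cancel₀ ha, C_1]
  simp only [TT, SS, add_comp, mul_comp, C_comp, X_comp]
  linear_combination (X - C b) * this

lemma SS_TT {a : ℝ} (b : ℝ) (ha : a ≠ 0) : (SS a b).comp (TT a b) = X := by
  have : C a * C a⁻¹ = (1 : ℝ[X]) := by rw [← C_mul, mul_inv_cancel₀ ha, C_1]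
  simp only [TT, SS, sub_comp, mul_comp, C_comp, X_comp]
  linear_combination X * this

lemma comp_TS {a : ℝ} (b : ℝ) (ha : a ≠ 0) (g : ℝ[X]) :
    (g.comp (TT a b)).comp (SS a b) = g := by
  rw [comp_assoc, TT_SS b ha, comp_X]

lemma comp_ST {a : ℝ} (b : ℝ) (ha : a ≠ 0) (g : ℝ[X]) :
    (g.comp (SS a b)).comp (TT a b) = g := by
  rw [comp_assoc, SS_TT b ha, comp_X]

lemma Good.of_pull {z : Fn} {a b : ℝ} (ha : a ≠ 0) (h : Good (z.pull (SS a b))) : Good z := by
  obtain ⟨μ, hμ, a', b', l, ha', hl, hg⟩ := h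
  refine ⟨μ, hμ, a * a', a * b' + b, l, mul_ne_zero ha ha', hl, ?_⟩
  intro g
  have h1 := hg (g.comp (TT a b))
  rw [Fn.ev_pull, comp_TS b ha] at h1
  rw [h1, comp_assoc]
  have : (TT a b).comp (C a' * X + C b') = C (a * a') * X + C (a * b' + b) := by
    simp only [TT, add_comp, mul_comp, C_comp, X_comp, C_mul, C_add]; ring
  rw [this]

lemma deriv_comp_SS {a : ℝ} (b : ℝ) (ha : a ≠ 0) (g : ℝ[X]) :
    (derivative g).comp (SS a b) = C a * derivative (g.comp (SS a b)) := by
  have : C a * C a⁻¹ = (1 : ℝ[X]) := by rw [← C_mul, mul_inv_cancel₀ ha, C_1]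
  rw [derivative_comp]
  have h2 : derivative (SS a b) = C a⁻¹ := by
    simp [SS]
  rw [h2]
  linear_combination (-(derivative g).comp (SS a b)) * this

namespace KD

/-- Affine change of variable. -/
noncomputable def aff (K : KD) (a b : ℝ) (ha : a ≠ 0) : KD where
  u := K.u.pull (SS a b)
  A := C (a⁻¹ ^ 4) * K.A.comp (TT a b)
  B := C (a⁻¹ ^ 3) * K.B.comp (TT a b)
  Cp := C (a⁻¹ ^ 2) * K.Cp.comp (TT a b)
  E := C (a⁻¹) * K.E.comp (TT a b)
  pd g hg := by
    rw [Fn.ev_pull, mul_comp]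
    apply K.pd
    intro h
    apply hg
    rw [← comp_ST b ha g, h, zero_comp]
  hA0 := by
    intro h
    have h1 : K.A.comp (TT a b) = 0 :=
      (mul_eq_zero.1 h).resolve_left (fun h => pow_ne_zero 4 (inv_ne_zero ha) (C_eq_zero.1 h))
    apply K.hA0
    rw [← comp_TS b ha K.A, h1, zero_comp]
  dA := by
    refine (natDegree_C_mul_le _ _).trans (natDegree_comp_le.trans ?_)
    have : (TT a b).natDegree = 1 := by rw [TT]; exact natDegree_linear ha
    rw [this, mul_one]; exact K.dA
  dB := by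
    refine (natDegree_C_mul_le _ _).trans (natDegree_comp_le.trans ?_)
    have : (TT a b).natDegree = 1 := by rw [TT]; exact natDegree_linear ha
    rw [this, mul_one]; exact K.dB
  dC := by
    refine (natDegree_C_mul_le _ _).trans (natDegree_comp_le.trans ?_)
    have : (TT a b).natDegree = 1 := by rw [TT]; exact natDegree_linear ha
    rw [this, mul_one]; exact K.dC
  dE := by
    refine (natDegree_C_mul_le _ _).trans (natDegree_comp_le.trans ?_)
    have : (TT a b).natDegree = 1 := by rw [TT]; exact natDegree_linear ha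
    rw [this, mul_one]; exact K.dE
  h1 g := by
    have h := K.h1 (g.comp (SS a b))
    rw [Fn.ev_pull, add_comp, mul_comp, mul_comp, mul_comp, mul_comp, C_comp, C_comp,
      comp_TS b ha, comp_TS b ha, deriv_comp_SS b ha]
    have e : C (a⁻¹ ^ 4) * K.A * (C a * derivative (g.comp (SS a b)))
        + C (a⁻¹ ^ 3) * K.B * g.comp (SS a b)
        = C (a⁻¹ ^ 3) * (K.A * derivative (g.comp (SS a b)) + K.B * g.comp (SS a b)) := by
      have : C (a⁻¹ ^ 4) * C a = C (a⁻¹ ^ 3) := by
        rw [← C_mul]; congr 1; field_simp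
      linear_combination (K.A * derivative (g.comp (SS a b))) * this
    rw [e, Fn.ev_map_C_mul, h, mul_zero]
  h2 g := by
    have h := K.h2 (g.comp (SS a b))
    rw [Fn.ev_pull, add_comp, add_comp, mul_comp, mul_comp, mul_comp, mul_comp, mul_comp, mul_comp,
      C_comp, C_comp, C_comp, comp_TS b ha, comp_TS b ha, comp_TS b ha, deriv_comp_SS b ha,
      deriv_comp_SS b ha, derivative_C_mul]
    have e : C (a⁻¹ ^ 3) * K.B * (C a * (C a * derivative (derivative (g.comp (SS a b)))))
        + C (a⁻¹ ^ 2) * K.Cp * (C a * derivative (g.comp (SS a b)))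
        + C a⁻¹ * K.E * g.comp (SS a b)
        = C (a⁻¹) * (K.B * derivative (derivative (g.comp (SS a b)))
          + K.Cp * derivative (g.comp (SS a b)) + K.E * g.comp (SS a b)) := by
      have e1 : C (a⁻¹ ^ 3) * C a * C a = C (a⁻¹) := by
        rw [← C_mul, ← C_mul]; congr 1; field_simp
      have e2 : C (a⁻¹ ^ 2) * C a = C (a⁻¹) := by
        rw [← C_mul]; congr 1; field_simp
      linear_combination (K.B * derivative (derivative (g.comp (SS a b)))) * e1
        + (K.Cp * derivative (g.comp (SS a b))) * e2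
    rw [e, Fn.ev_map_C_mul, h, mul_zero]
  wpos g := by
    have h := K.wpos (g.comp (SS a b))
    rw [Fn.ev_pull, mul_comp, mul_comp, mul_comp, C_comp, comp_TS b ha, mul_assoc,
      Fn.ev_map_C_mul]
    have : 0 ≤ a⁻¹ ^ 4 := by positivity
    exact mul_nonneg this h
  epos := by
    have h := K.epos
    have hE := K.dE
    have e : K.E = C (K.E.coeff 1) * X + C (K.E.coeff 0) :=
      eq_X_add_C_of_natDegree_le_one hE
    have e2 : (C a⁻¹ * K.E.comp (TT a b)).coeff 1 = K.E.coeff 1 := by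
      conv_lhs => rw [e]
      simp only [TT, add_comp, mul_comp, C_comp, X_comp]
      have : C a⁻¹ * (C (K.E.coeff 1) * (C a * X + C b) + C (K.E.coeff 0))
          = C (a⁻¹ * K.E.coeff 1 * a) * X + C (a⁻¹ * (K.E.coeff 1 * b + K.E.coeff 0)) := by
        simp only [C_mul, C_add]; ring
      rw [this]
      simp only [coeff_add, coeff_C_mul, coeff_X_one, coeff_C_succ, mul_one, add_zero]
      field_simp
    rw [e2]; exact h

end KD

end Pool.Agent.W5h47.Krall
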