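import Pool.Agent.W5h47.Krall.Fn

set_option autoImplicit false
open Polynomial

namespace Pool.Agent.W5h47.Krall

namespace KD

variable (K : KD)

lemma P2' : K.A * (K.Cp * (K.B - derivative K.A) + K.A * derivative K.Cp
      - K.A * derivative (derivative K.B) - 3 * K.B * derivative K.B
      + K.B * derivative (derivative K.A) + 2 * derivative K.A * derivative K.B - K.A * K.E)
    = K.B * (K.B - derivative K.A) * (K.B - 2 * derivative K.A) := K.abs.P2'

lemma P2 : K.A * derivative (K.A * K.Cp - K.A * derivative K.B - K.B ^ 2 + K.B * derivative K.A)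
      + (K.A * K.Cp - K.A * derivative K.B - K.B ^ 2 + K.B * derivative K.A) * K.B
      - 2 * (K.A * K.Cp - K.A * derivative K.B - K.B ^ 2 + K.B * derivative K.A) * derivative K.A
      = K.A ^ 2 * K.E := K.abs.P2

lemma deg_bound (h : K.A.natDegree ≤ K.B.natDegree) (hb : 1 ≤ K.B.natDegree) :
    2 * K.B.natDegree ≤ K.A.natDegree + 2 := by
  set a := K.A.natDegree with ha
  set b := K.B.natDegree with hb'
  have hb3 : b ≤ 3 := K.dB
  have hdA : (derivative K.A).natDegree ≤ a - 1 := natDegree_derivative_le _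
  have hdB : (derivative K.B).natDegree ≤ b - 1 := natDegree_derivative_le _
  have hdC : (derivative K.Cp).natDegree ≤ 1 := (natDegree_derivative_le _).trans (by have := K.dC; omega)
  have hddA : (derivative (derivative K.A)).natDegree ≤ a - 1 - 1 :=
    (natDegree_derivative_le _).trans (by omega)
  have hddB : (derivative (derivative K.B)).natDegree ≤ b - 1 - 1 :=
    (natDegree_derivative_le _).trans (by omega)
  have hC := K.dC
  have hE := K.dE
  have e1 : (K.B - derivative K.A).natDegree = b := by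
    rw [natDegree_sub_eq_left_of_natDegree_lt]; omega
  have h2dA : (2 * derivative K.A).natDegree ≤ a - 1 := by
    refine (natDegree_mul_le).trans ?_
    have : (2 : ℝ[X]).natDegree = 0 := natDegree_ofNat 2
    omega
  have e2 : (K.B - 2 * derivative K.A).natDegree = b := by
    rw [natDegree_sub_eq_left_of_natDegree_lt]; omega
  have hB0 : K.B ≠ 0 := by intro h; rw [h] at hb'; simp at hb'; omega
  have e10 : K.B - derivative K.A ≠ 0 := by intro h; rw [h] at e1; simp at e1; omega
  have e20 : K.B - 2 * derivative K.A ≠ 0 := by intro h; rw [h] at e2; simp at e2; omega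
  have hR : (K.B * (K.B - derivative K.A) * (K.B - 2 * derivative K.A)).natDegree = 3 * b := by
    rw [natDegree_mul (mul_ne_zero hB0 e10) e20, natDegree_mul hB0 e10, e1, e2]; omega
  rw [← K.P2'] at hR
  have t1 : (K.Cp * (K.B - derivative K.A)).natDegree ≤ b + 2 :=
    natDegree_mul_le.trans (by omega)
  have t2 : (K.A * derivative K.Cp).natDegree ≤ b + 2 := natDegree_mul_le.trans (by omega)
  have t3 : (K.A * derivative (derivative K.B)).natDegree ≤ b + 2 :=
    natDegree_mul_le.trans (by omega)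
  have h3 : (3 : ℝ[X]).natDegree = 0 := natDegree_ofNat 3
  have h2 : (2 : ℝ[X]).natDegree = 0 := natDegree_ofNat 2
  have t4 : (3 * K.B * derivative K.B).natDegree ≤ b + 2 :=
    natDegree_mul_le.trans (by
      have : (3 * K.B).natDegree ≤ b := natDegree_mul_le.trans (by omega)
      omega)
  have t5 : (K.B * derivative (derivative K.A)).natDegree ≤ b + 2 :=
    natDegree_mul_le.trans (by omega)
  have t6 : (2 * derivative K.A * derivative K.B).natDegree ≤ b + 2 :=
    natDegree_mul_le.trans (by omega)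
  have t7 : (K.A * K.E).natDegree ≤ b + 2 := natDegree_mul_le.trans (by omega)
  have hX : (K.Cp * (K.B - derivative K.A) + K.A * derivative K.Cp
      - K.A * derivative (derivative K.B) - 3 * K.B * derivative K.B
      + K.B * derivative (derivative K.A) + 2 * derivative K.A * derivative K.B
      - K.A * K.E).natDegree ≤ b + 2 := by
    have key : ∀ p q : ℝ[X], p.natDegree ≤ b + 2 → q.natDegree ≤ b + 2 →
        (p - q).natDegree ≤ b + 2 := fun p q h1 h2 => (natDegree_sub_le p q).trans (max_le h1 h2)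
    have key2 : ∀ p q : ℝ[X], p.natDegree ≤ b + 2 → q.natDegree ≤ b + 2 →
        (p + q).natDegree ≤ b + 2 := fun p q h1 h2 => (natDegree_add_le p q).trans (max_le h1 h2)
    exact key _ _ (key2 _ _ (key2 _ _ (key _ _ (key _ _ (key2 _ _ t1 t2) t3) t4) t5) t6) t7
  have hL := (natDegree_mul_le (p := K.A) (q := (K.Cp * (K.B - derivative K.A) + K.A * derivative K.Cp
      - K.A * derivative (derivative K.B) - 3 * K.B * derivative K.B
      + K.B * derivative (derivative K.A) + 2 * derivative K.A * derivative K.B - K.A * K.E)))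
  omega

lemma deg_lt (h : K.A.natDegree < K.B.natDegree) : K.A.natDegree = 0 ∧ K.B.natDegree = 1 := by
  have := K.deg_bound h.le (by omega)
  omega

lemma deg_ge (h : K.A.natDegree ≤ K.B.natDegree) (h2 : 2 ≤ K.A.natDegree) :
    K.A.natDegree = 2 ∧ K.B.natDegree = 2 := by
  have := K.deg_bound h (by omega)
  omega

/-- An irreducible polynomial does not divide its derivative. -/
lemma irr_deriv {π : ℝ[X]} (hπ : Irreducible π) : ¬ π ∣ derivative π := by
  intro h
  have hs := hπ.separable
  have := hs.isUnit_of_dvd' dvd_rfl h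
  exact hπ.not_isUnit this

/-- A multiple factor of `A` divides `B`. -/
lemma mult_dvd {π : ℝ[X]} (hπ : Irreducible π) (h : π ^ 2 ∣ K.A) : π ∣ K.B := by
  have hp : Prime π := hπ.prime
  have h1 : π ∣ K.A := (dvd_pow_self π two_ne_zero).trans h
  have h2 : π ∣ derivative K.A := by
    obtain ⟨q, hq⟩ := h
    rw [hq, pow_two, derivative_mul, derivative_mul]
    exact Dvd.intro (2 * derivative π * q + π * derivative q) (by ring)
  have h3 : π ∣ K.B * (K.B - derivative K.A) * (K.B - 2 * derivative K.A) := by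
    rw [← K.P2']; exact Dvd.dvd.mul_right h1 _
  rcases hp.dvd_or_dvd h3 with h4 | h4
  · rcases hp.dvd_or_dvd h4 with h5 | h5
    · exact h5
    · have := dvd_add h5 h2; simpa using this
  · have := dvd_add h4 (Dvd.dvd.mul_left h2 2); simpa using this

/-- A simple common factor of `A` and `B` divides `C` and `E`. -/
lemma simple_dvd {π : ℝ[X]} (hπ : Irreducible π) (hA : π ∣ K.A) (hB : π ∣ K.B)
    (h : ¬ π ^ 2 ∣ K.A) : π ∣ K.Cp ∧ π ∣ K.E := by
  have hp : Prime π := hπ.prime
  obtain ⟨a, ha⟩ := hA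
  obtain ⟨b, hb⟩ := hB
  have hna : ¬ π ∣ a := by
    rintro ⟨c, hc⟩; apply h; exact ⟨c, by rw [ha, hc]; ring⟩
  have hnd := irr_deriv hπ
  have h1 := K.P2'
  have h2 := K.P2
  have hπ0 := hπ.ne_zero
  have hA' : derivative K.A = derivative π * a + π * derivative a := by rw [ha, derivative_mul]
  have hB' : derivative K.B = derivative π * b + π * derivative b := by rw [hb, derivative_mul]
  have hC : π ∣ K.Cp := by
    have e1 : π * (K.Cp * derivative π * a ^ 2) = π * (π * (a * (K.Cp * (b - derivative a)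
        + a * derivative K.Cp - a * derivative (derivative K.B) - 3 * b * derivative K.B
        + b * derivative (derivative K.A) + 2 * (derivative a * derivative K.B
        + derivative π * a * derivative b) - a * K.E)
        - b * ((b - derivative a) * (K.B - 2 * derivative K.A)
          - derivative π * a * (b - 2 * derivative a)))) := by
      rw [hA', hB', ha, hb] at h1
      rw [hA', hB', hb]
      linear_combination (-1 : ℝ[X]) * h1
    have e2 := mul_left_cancel₀ hπ0 e1
    have e3 : π ∣ K.Cp * derivative π * a ^ 2 := ⟨_, e2⟩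
    rcases hp.dvd_or_dvd e3 with e4 | e4
    · rcases hp.dvd_or_dvd e4 with e5 | e5
      · exact e5
      · exact absurd e5 hnd
    · exact absurd (hp.dvd_of_dvd_pow e4) hna
  refine ⟨hC, ?_⟩
  obtain ⟨c, hc⟩ := hC
  have hG : K.A * K.Cp - K.A * derivative K.B - K.B ^ 2 + K.B * derivative K.A
      = π ^ 2 * (a * c - b ^ 2 - a * derivative b + b * derivative a) := by
    rw [hA', hB', ha, hb, hc]; ring
  rw [hG] at h2
  set g := a * c - b ^ 2 - a * derivative b + b * derivative a with hg
  rw [pow_two, derivative_mul, derivative_mul, hA', ha, hb] at h2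
  have e1 : π ^ 2 * (π * (a * derivative g + g * b - 2 * g * derivative a)) = π ^ 2 * (a ^ 2 * K.E) := by
    linear_combination h2
  have e2 := mul_left_cancel₀ (pow_ne_zero 2 hπ0) e1
  have e3 : π ∣ a ^ 2 * K.E := ⟨_, e2.symm⟩
  rcases hp.dvd_or_dvd e3 with e4 | e4
  · exact absurd (hp.dvd_of_dvd_pow e4) hna
  · exact e4

lemma cube_dvd {π : ℝ[X]} (hπ : Irreducible π) (hA : π ^ 3 ∣ K.A) : π ^ 2 ∣ K.B := by
  have hp : Prime π := hπ.prime
  have hπ0 := hπ.ne_zero
  obtain ⟨b, hb⟩ := K.mult_dvd hπ ((pow_dvd_pow π (by norm_num : 2 ≤ 3)).trans hA)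
  obtain ⟨a, ha⟩ := hA
  have h1 := K.P2'
  have hA' : derivative K.A = π * (π * (3 * derivative π * a + π * derivative a)) := by
    rw [ha, pow_succ, pow_two, derivative_mul, derivative_mul, derivative_mul]; ring
  set x := 3 * derivative π * a + π * derivative a with hx
  have e1 : π ^ 3 * (b * (b - π * x) * (b - 2 * (π * x)))
      = π ^ 3 * (π * (a * (K.Cp * (b - π * x) + π ^ 2 * a * derivative K.Cp
        - π ^ 2 * a * derivative (derivative K.B) - 3 * b * derivative K.B
        + b * derivative (derivative K.A) + 2 * (π * x) * derivative K.B - π ^ 2 * a * K.E))) := by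
    rw [hA', ha, hb] at h1
    rw [hb, hA']
    linear_combination (-1 : ℝ[X]) * h1
  have e2 := mul_left_cancel₀ (pow_ne_zero 3 hπ0) e1
  have e3 : π ∣ b * (b - π * x) * (b - 2 * (π * x)) := ⟨_, e2⟩
  have e4 : π ∣ b := by
    rcases hp.dvd_or_dvd e3 with h4 | h4
    · rcases hp.dvd_or_dvd h4 with h5 | h5
      · exact h5
      · have := dvd_add h5 (Dvd.intro x rfl : π ∣ π * x); simpa using this
    · have := dvd_add h4 (Dvd.dvd.mul_left (Dvd.intro x rfl : π ∣ π * x) 2); simpa using this
  obtain ⟨c, hc⟩ := e4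
  exact ⟨c, by rw [hb, hc]; ring⟩

end KD

lemma Fn.zero_of_shift (z : Fn) (c : ℝ) (h : ∀ n : ℕ, z.ev ((X - C c) ^ n) = 0) : z = 0 := by
  apply Fn.ext
  intro g
  rw [← sum_taylor_eq g c]
  rw [Polynomial.sum]
  have : ∀ s : Finset ℕ, z.ev (∑ n ∈ s, C ((taylor c g).coeff n) * (X - C c) ^ n) = 0 := by
    intro s
    induction s using Finset.induction_on with
    | empty => simp
    | insert a s ha ih =>
      rw [Finset.sum_insert ha, Fn.ev_map_add, ih, Fn.ev_map_C_mul, h]; simp
  rw [this]; simp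

lemma Fn.zero_of_mono (z : Fn) (h : ∀ n : ℕ, z.ev (X ^ n) = 0) : z = 0 := by
  apply z.zero_of_shift 0
  intro n
  simpa using h n

namespace Abs

variable {M : Type*} [AddCommGroup M] [Module ℝ[X] M] (S : Abs M)

lemma ndy {y : M} {A0 : ℝ[X]} (h : A0 • y = S.u) (P : ℝ[X]) (hP : P • y = 0) : P = 0 := by
  apply S.nd
  rw [← h]
  have : P • A0 • y = A0 • (P • y) := by module
  rw [this, hP, smul_zero]

lemma Id {y : M} {A0 T Γ : ℝ[X]} (h : A0 • y = S.u) (h2 : Γ • S.D y = T • y) :
    S.A * (Γ * derivative A0 + A0 * T) = Γ * (S.B - derivative S.A) * A0 := by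
  have h3 := S.A_Du
  have h4 : S.D S.u = derivative A0 • y + A0 • S.D y := by rw [← h, S.hD]
  rw [h4, ← h] at h3
  have h5 : (S.A * (Γ * derivative A0 + A0 * T) - Γ * (S.B - derivative S.A) * A0) • y = 0 := by
    have e1 : Γ • (S.A • (derivative A0 • y + A0 • S.D y))
        = Γ • ((S.B - derivative S.A) • A0 • y) := by rw [h3]
    have e2 : Γ • (S.A • (derivative A0 • y + A0 • S.D y))
        = (Γ * S.A * derivative A0) • y + (S.A * A0) • (Γ • S.D y) := by module
    rw [e2, h2] at e1
    have e3 : (S.A * (Γ * derivative A0 + A0 * T) - Γ * (S.B - derivative S.A) * A0) • y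
        = ((Γ * S.A * derivative A0) • y + (S.A * A0) • (T • y))
          - Γ • ((S.B - derivative S.A) • A0 • y) := by module
    rw [e3, e1, sub_self]
  have := S.ndy h _ h5
  linear_combination this

end Abs

namespace KD

variable (K : KD)

lemma coprime_case (hc : IsCoprime K.A K.B) : K.A.natDegree = 0 ∧ K.B.natDegree = 1 := by
  obtain ⟨r, t, hrt⟩ := hc
  obtain ⟨y, A0, T, hA00, hy1, hy2⟩ := K.abs.generator (Γ := 1) (r := r) (t := t) hrt.symm
    (fun z hz => by rwa [one_smul] at hz)
  have hI := K.abs.Id hy1 hy2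
  have hnd := K.abs.ndy hy1
  change K.A * (1 * derivative A0 + A0 * T) = 1 * (K.B - derivative K.A) * A0 at hI
  rw [one_mul, one_mul] at hI
  change (1 : ℝ[X]) • Fn.D y = T • y at hy2
  rw [one_smul] at hy2
  have hy0 : y ≠ 0 := by
    intro h
    have := hnd 1 (by rw [h, smul_zero])
    exact one_ne_zero this
  have hT : 1 ≤ T.natDegree := by
    by_contra hT
    have hT0 : T.natDegree = 0 := by omega
    have hTC := eq_C_of_natDegree_eq_zero hT0
    set t0 := T.coeff 0
    rw [hTC] at hy2
    apply hy0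
    apply Fn.zero_of_mono
    have hrel : ∀ g : ℝ[X], -y.ev (derivative g) = t0 * y.ev g := by
      intro g
      have : (Fn.D y).ev g = (C t0 • y).ev g := by rw [hy2]
      rwa [Fn.ev_D, Fn.ev_smul, Fn.ev_map_C_mul] at this
    by_cases ht0 : t0 = 0
    · intro n
      have h1 := hrel (X ^ (n + 1))
      rw [ht0, derivative_X_pow, Fn.ev_map_C_mul] at h1
      simp only [Nat.add_sub_cancel, zero_mul] at h1
      have : ((n + 1 : ℕ) : ℝ) ≠ 0 := by positivity
      have h2 : ((n + 1 : ℕ) : ℝ) * y.ev (X ^ n) = 0 := by linarith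
      exact (mul_eq_zero.1 h2).resolve_left this
    · intro n
      induction n with
      | zero =>
        have h1 := hrel 1
        simp only [derivative_one, Fn.ev_map_zero, neg_zero] at h1
        rw [pow_zero]
        exact (mul_eq_zero.1 h1.symm).resolve_left ht0
      | succ n ih =>
        have h1 := hrel (X ^ (n + 1))
        rw [derivative_X_pow, Fn.ev_map_C_mul, Nat.add_sub_cancel, ih] at h1
        have : t0 * y.ev (X ^ (n + 1)) = 0 := by linarith
        exact (mul_eq_zero.1 this).resolve_left ht0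
  apply K.deg_lt
  have hA0 := K.hA0
  have hT0 : T ≠ 0 := by intro h; rw [h] at hT; simp at hT
  have e1 : (derivative A0 + A0 * T).natDegree = A0.natDegree + T.natDegree := by
    rw [natDegree_add_eq_right_of_natDegree_lt, natDegree_mul hA00 hT0]
    rw [natDegree_mul hA00 hT0]
    have := natDegree_derivative_le A0
    omega
  have e10 : derivative A0 + A0 * T ≠ 0 := by
    intro h; rw [h] at e1; simp at e1; omega
  have e2 : (K.B - derivative K.A) ≠ 0 := by
    intro h
    rw [h, zero_mul] at hI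
    exact (mul_ne_zero hA0 e10) hI
  have e3 : K.A.natDegree + (A0.natDegree + T.natDegree)
      = (K.B - derivative K.A).natDegree + A0.natDegree := by
    rw [← e1, ← natDegree_mul hA0 e10, hI, natDegree_mul e2 hA00]
  have e4 := natDegree_sub_le K.B (derivative K.A)
  have e5 := natDegree_derivative_le K.A
  by_contra hlt
  push Not at hlt
  have : max K.B.natDegree (derivative K.A).natDegree ≤ K.A.natDegree := max_le hlt (by omega)
  omega

lemma single_case {c : ℝ} {j a : ℕ} {r t At b : ℝ[X]} (hj : 1 ≤ j)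
    (hΓ : (X - C c) ^ j = r * K.A + t * K.B) (ha : 2 ≤ a)
    (hA : K.A = (X - C c) ^ a * At) (hAt : ¬ (X - C c) ∣ At)
    (hB : K.B = (X - C c) ^ (a - 1) * b) (hdeg : K.B.natDegree < K.A.natDegree) : False := by
  set ξ : ℝ[X] := X - C c with hξ
  have hξ0 : ξ ≠ 0 := X_sub_C_ne_zero c
  have hξirr : Irreducible ξ := irreducible_X_sub_C c
  have hξd : derivative ξ = 1 := by rw [hξ]; simp
  have hAt0 : At ≠ 0 := by intro h; apply hAt; rw [h]; exact dvd_zero _
  have hΓ0 : ξ ^ j ≠ 0 := pow_ne_zero _ hξ0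
  obtain ⟨y, A0, T, hA00, hy1, hy2⟩ := (K.absq (ξ ^ j) hΓ0).generator (Γ := ξ ^ j) (r := r) (t := t)
    hΓ (injq _)
  have hI := (K.absq (ξ ^ j) hΓ0).Id hy1 hy2
  have hnd := (K.absq (ξ ^ j) hΓ0).ndy hy1
  change K.A * (ξ ^ j * derivative A0 + A0 * T) = ξ ^ j * (K.B - derivative K.A) * A0 at hI
  change ξ ^ j • Dq (ξ ^ j) y = T • y at hy2
  have hy0 : y ≠ 0 := by
    intro h
    have := hnd 1 (by rw [h, smul_zero])
    exact one_ne_zero this
  -- factor A0
  obtain ⟨i, A1, hA1, hA0e⟩ : ∃ (i : ℕ) (A1 : ℝ[X]), ¬ ξ ∣ A1 ∧ A0 = ξ ^ i * A1 := by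
    obtain ⟨q, hq1, hq2⟩ := exists_eq_pow_rootMultiplicity_mul_and_not_dvd A0 hA00 c
    exact ⟨_, q, hq2, hq1⟩
  have hA10 : A1 ≠ 0 := by intro h; apply hA1; rw [h]; exact dvd_zero _
  -- S
  set S : ℝ[X] := b - (a : ℝ[X]) * At - ξ * derivative At with hS
  have hBA : K.B - derivative K.A = ξ ^ (a - 1) * S := by
    obtain ⟨a', rfl⟩ : ∃ a', a = a' + 1 := ⟨a - 1, by omega⟩
    rw [hA, hB, derivative_mul, derivative_pow, hξd]
    simp only [Nat.add_sub_cancel, hS]
    rw [C_eq_natCast]
    ring
  have hdA0 : ξ * derivative A0 = ξ ^ i * ((i : ℝ[X]) * A1 + ξ * derivative A1) := by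
    rw [hA0e, derivative_mul, derivative_pow, hξd]
    rcases i with _ | i
    · simp
    · simp only [Nat.add_sub_cancel]
      rw [C_eq_natCast]
      ring
  have hI2 : ξ ^ a * ξ ^ i * (At * (ξ ^ j * ((i : ℝ[X]) * A1 + ξ * derivative A1) + ξ * A1 * T))
      = ξ ^ a * ξ ^ i * (ξ ^ j * S * A1) := by
    have e1 : ξ * (K.A * (ξ ^ j * derivative A0 + A0 * T))
        = ξ * (ξ ^ j * (K.B - derivative K.A) * A0) := by rw [hI]
    have e2 : ξ * (K.A * (ξ ^ j * derivative A0 + A0 * T))
        = ξ ^ a * At * (ξ ^ j * (ξ * derivative A0) + ξ * A0 * T) := by rw [hA]; ring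
    rw [e2, hdA0, hBA, hA0e] at e1
    have e3 : ξ * (ξ ^ j * (ξ ^ (a - 1) * S) * (ξ ^ i * A1))
        = ξ ^ a * ξ ^ i * (ξ ^ j * S * A1) := by
      obtain ⟨a', rfl⟩ : ∃ a', a = a' + 1 := ⟨a - 1, by omega⟩
      simp only [Nat.add_sub_cancel]; ring
    rw [e3] at e1
    rw [← e1]; ring
  have hI3 := mul_left_cancel₀ (mul_ne_zero (pow_ne_zero a hξ0) (pow_ne_zero i hξ0)) hI2
  have hI4 : (At * A1) * (ξ * T) = ξ ^ j * (S * A1 - (i : ℝ[X]) * At * A1 - ξ * At * derivative A1) := by
    linear_combination hI3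
  have hcop : IsCoprime (ξ ^ j) (At * A1) := by
    apply IsCoprime.pow_left
    rw [hξirr.coprime_iff_not_dvd]
    intro h
    rcases hξirr.prime.dvd_or_dvd h with h | h
    · exact hAt h
    · exact hA1 h
  have hdvd : ξ ^ j ∣ ξ * T := hcop.dvd_of_dvd_mul_left ⟨_, hI4⟩
  obtain ⟨T1, hT1⟩ := hdvd
  have hI5 : At * A1 * T1 = S * A1 - (i : ℝ[X]) * At * A1 - ξ * At * derivative A1 := by
    rw [hT1] at hI4
    apply mul_left_cancel₀ hΓ0
    rw [← hI4]; ring
  -- degrees
  have hSdeg : S.natDegree ≤ At.natDegree := by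
    by_cases hS0 : S = 0
    · rw [hS0]; simp
    have h1 : (K.B - derivative K.A).natDegree = (a - 1) + S.natDegree := by
      rw [hBA, natDegree_mul (pow_ne_zero _ hξ0) hS0, natDegree_pow, hξ, natDegree_X_sub_C]; ring
    have h2 : K.A.natDegree = a + At.natDegree := by
      rw [hA, natDegree_mul (pow_ne_zero _ hξ0) hAt0, natDegree_pow, hξ, natDegree_X_sub_C]; ring
    have h3 := natDegree_sub_le K.B (derivative K.A)
    have h4 := natDegree_derivative_le K.A
    have h5 : max K.B.natDegree (derivative K.A).natDegree ≤ K.A.natDegree - 1 :=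
      max_le (by omega) h4
    omega
  have hT1deg : T1.natDegree = 0 := by
    by_contra hne
    have hT10 : T1 ≠ 0 := by intro h; rw [h] at hne; simp at hne
    have h1 : (At * A1 * T1).natDegree = At.natDegree + A1.natDegree + T1.natDegree := by
      rw [natDegree_mul (mul_ne_zero hAt0 hA10) hT10, natDegree_mul hAt0 hA10]
    have k1 : (S * A1).natDegree ≤ At.natDegree + A1.natDegree :=
      natDegree_mul_le.trans (by omega)
    have k2 : ((i : ℝ[X]) * At * A1).natDegree ≤ At.natDegree + A1.natDegree := by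
      refine natDegree_mul_le.trans ?_
      have : ((i : ℝ[X]) * At).natDegree ≤ At.natDegree := by
        refine natDegree_mul_le.trans ?_
        rw [natDegree_natCast]; omega
      omega
    have k3 : (ξ * At * derivative A1).natDegree ≤ At.natDegree + A1.natDegree := by
      by_cases hd : derivative A1 = 0
      · rw [hd]; simp
      refine natDegree_mul_le.trans ?_
      have h5 : (ξ * At).natDegree ≤ 1 + At.natDegree := by
        refine natDegree_mul_le.trans ?_
        rw [hξ, natDegree_X_sub_C]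
      have h6 : (derivative A1).natDegree < A1.natDegree := by
        apply natDegree_derivative_lt
        intro h
        apply hd
        rw [eq_C_of_natDegree_eq_zero h]; simp
      omega
    have h7 : (S * A1 - (i : ℝ[X]) * At * A1 - ξ * At * derivative A1).natDegree
        ≤ At.natDegree + A1.natDegree := by
      refine (natDegree_sub_le _ _).trans (max_le ?_ k3)
      exact (natDegree_sub_le _ _).trans (max_le k1 k2)
    rw [← hI5, h1] at h7
    omega
  have hT1C := eq_C_of_natDegree_eq_zero hT1deg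
  set t1 := T1.coeff 0
  have hrel : ξ • Dq (ξ ^ j) y - C t1 • y = 0 := by
    apply injq
    have : ξ ^ j • (ξ • Dq (ξ ^ j) y - C t1 • y) = ξ • (ξ ^ j • Dq (ξ ^ j) y) - (ξ ^ j * C t1) • y := by
      module
    rw [this, hy2, ← hT1C, ← hT1]; module
  obtain ⟨z, rfl⟩ := Submodule.Quotient.mk_surjective _ y
  rw [Dq_mk, ← Submodule.Quotient.mk_smul, ← Submodule.Quotient.mk_smul,
    ← Submodule.Quotient.mk_sub, Submodule.Quotient.mk_eq_zero] at hrel
  obtain ⟨k, hk⟩ := hrel
  rw [← pow_mul] at hk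
  set Kk := j * k with hKk
  have hev : ∀ n : ℕ, ((Kk + n + 1 : ℕ) + t1) * z.ev (ξ ^ (Kk + n)) = 0 := by
    intro n
    have h1 : (ξ ^ Kk • (ξ • Fn.D z - C t1 • z)).ev (ξ ^ n) = 0 := by rw [hk]; simp
    simp only [Fn.ev_smul, Fn.ev_sub, Fn.ev_D] at h1
    have h2 : ξ * (ξ ^ Kk * ξ ^ n) = ξ ^ (Kk + n + 1) := by ring
    have h3 : ξ ^ Kk * ξ ^ n = ξ ^ (Kk + n) := by ring
    rw [h2, h3, Fn.ev_map_C_mul, derivative_pow, hξd, mul_one, Fn.ev_map_C_mul,
      Nat.add_sub_cancel] at h1
    linarith
  obtain ⟨N, hN⟩ := exists_nat_gt (-t1)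
  have hz0 : ∀ m : ℕ, z.ev (ξ ^ (Kk + N + m)) = 0 := by
    intro m
    have h1 := hev (N + m)
    rw [← add_assoc] at h1
    refine (mul_eq_zero.1 h1).resolve_left ?_
    push_cast
    have h2 : (0 : ℝ) ≤ (Kk : ℝ) := by positivity
    have h3 : (0 : ℝ) ≤ (m : ℝ) := by positivity
    intro h4
    linarith
  have hz1 : ξ ^ (Kk + N) • z = 0 := by
    apply Fn.zero_of_shift _ c
    intro n
    rw [Fn.ev_smul, ← hξ, ← pow_add]
    exact hz0 n
  apply hy0
  rw [Submodule.Quotient.mk_eq_zero]
  refine ⟨Kk + N, ?_⟩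
  rw [← pow_mul]
  obtain ⟨l, hl⟩ : ∃ l, j * (Kk + N) = l + (Kk + N) := ⟨j * (Kk + N) - (Kk + N), by
    have : Kk + N ≤ j * (Kk + N) := Nat.le_mul_of_pos_left _ (by omega)
    omega⟩
  rw [hl, pow_add, ← smul_smul, hz1, smul_zero]

end KD

end Pool.Agent.W5h47.Krall
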