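import Pool.Agent.W5h47.Krall.Meas

set_option autoImplicit false
open Polynomial MeasureTheory Set

namespace Pool.Agent.W5h47.Krall

lemma cubic_zero {a3 a2 a1 a0 : ℝ}
    (h : C a3 * X ^ 3 + C a2 * X ^ 2 + C a1 * X + C a0 = (0 : ℝ[X])) :
    a3 = 0 ∧ a2 = 0 ∧ a1 = 0 ∧ a0 = 0 := by
  have c3 := congrArg (fun P => Polynomial.coeff P 3) h
  have c2 := congrArg (fun P => Polynomial.coeff P 2) h
  have c1 := congrArg (fun P => Polynomial.coeff P 1) h
  have c0 := congrArg (fun P => Polynomial.coeff P 0) h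
  simp only [coeff_add, coeff_C_mul, coeff_X_pow, coeff_X, coeff_C, coeff_zero] at c0 c1 c2 c3
  norm_num at c0 c1 c2 c3
  exact ⟨c3, c2, c1, c0⟩

namespace KD
variable (K : KD)

lemma case_H (hA : K.A.natDegree = 0) (hB : K.B.natDegree = 1) : Good K.u := by
  have hAe := eq_C_of_natDegree_eq_zero hA
  have hBe : K.B = C (K.B.coeff 1) * X + C (K.B.coeff 0) := eq_X_add_C_of_natDegree_le_one hB.le
  set α := K.A.coeff 0 with hα
  set β := K.B.coeff 1 with hβ
  set β0 := K.B.coeff 0 with hβ0
  have hβne : β ≠ 0 := by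
    intro h
    rw [h, C_0, zero_mul, zero_add] at hBe
    rw [hBe] at hB; simp at hB
  have hαne : α ≠ 0 := by
    intro h; apply K.hA0; rw [hAe, h, C_0]
  have hμ0 := K.ev_one_pos
  have hα0 : 0 < α := by
    have h := K.wpos 1
    rw [hAe, Fn.ev_map_C_mul, mul_one] at h
    have : 0 ≤ α := by
      by_contra hn
      push Not at hn
      have := mul_neg_of_neg_of_pos hn hμ0
      linarith
    exact lt_of_le_of_ne this hαne.symm
  have hβneg : β < 0 := by
    have h := K.h1 K.B
    have hB0 : K.B ≠ 0 := by intro h; rw [h] at hB; simp at hB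
    have h2 := K.pd K.B hB0
    have e : K.A * derivative K.B + K.B * K.B = C (α * β) * 1 + K.B * K.B := by
      have : derivative K.B = C β := by rw [hBe]; simp
      rw [this, hAe, C_mul]; ring
    rw [e, Fn.ev_map_add, Fn.ev_map_C_mul] at h
    have h3 : α * β * K.u.ev 1 < 0 := by linarith
    by_contra hn
    push Not at hn
    have : 0 ≤ α * β * K.u.ev 1 := by positivity
    linarith
  obtain ⟨W, μ, hμ, hW, hW1, hWe⟩ := meas_H
  set a := Real.sqrt (-2 * α / β) with ha
  have hapos : 0 < -2 * α / β := div_pos_of_neg_of_neg (by linarith) hβneg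
  have ha0 : 0 < a := Real.sqrt_pos.2 hapos
  have ha2 : a ^ 2 = -2 * α / β := Real.sq_sqrt hapos.le
  have hane : a ≠ 0 := ha0.ne'
  apply Good.of_pull (a := a) (b := -β0 / β) hane
  have hrel : HRel (K.u.pull (SS a (-β0 / β))) := by
    intro g
    rw [Fn.ev_pull, sub_comp, mul_comp, mul_comp, C_comp, X_comp, deriv_comp_SS _ hane]
    have h := K.h1 (g.comp (SS a (-β0 / β)))
    have e : C a * derivative (g.comp (SS a (-β0 / β))) - C 2 * SS a (-β0 / β) * g.comp (SS a (-β0 / β))
        = C (a / α) * (K.A * derivative (g.comp (SS a (-β0 / β))) + K.B * g.comp (SS a (-β0 / β))) := by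
      rw [hAe, hBe]
      have e1 : C (a / α) * C α = (C a : ℝ[X]) := by rw [← C_mul]; congr 1; field_simp
      have e2 : C (a / α) * (C β * X + C β0) = -(C 2 * SS a (-β0 / β)) := by
        have e3 : a / α * β = -(2 * a⁻¹) := by
          have : a ^ 2 * β = -2 * α := by rw [ha2]; field_simp
          field_simp
          linarith
        have e4 : a / α * β0 = 2 * a⁻¹ * (-β0 / β) := by
          have : a / α * β0 = (a / α * β) * (β0 / β) := by field_simp
          rw [this, e3]; ring
        rw [SS, mul_add, ← mul_assoc, ← C_mul, e3, ← C_mul, e4]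
        simp only [C_mul, C_neg]
        ring
      linear_combination (-(derivative (g.comp (SS a (-β0 / β))))) * e1
        - (g.comp (SS a (-β0 / β))) * e2
    rw [e, Fn.ev_map_C_mul, h, mul_zero]
  set z := K.u.pull (SS a (-β0 / β)) with hz
  have hz1 : z.ev 1 = K.u.ev 1 := by rw [hz, Fn.ev_pull, one_comp]
  refine Good.of_smul (l := z.ev 1 / W.ev 1) (W := W) (by rw [hz1]; positivity) ?_ hμ one_ne_zero hWe
  apply hrel.unique (hW.smul _)
  rw [Fn.ev_smul, Fn.ev_map_C_mul]
  field_simp

/-- The impossible Bessel case. -/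
lemma case_Bes {α c : ℝ} {B1 : ℝ[X]} (hA : K.A = C α * (X - C c) ^ 4)
    (hB : K.B = (X - C c) ^ 2 * B1) : False := by
  set ξ : ℝ[X] := X - C c with hξ
  have hξ0 : ξ ≠ 0 := X_sub_C_ne_zero c
  have hξd : derivative ξ = 1 := by rw [hξ]; simp
  have hαne : α ≠ 0 := by
    intro h; apply K.hA0; rw [hA, h, C_0, zero_mul]
  have hα0 : 0 < α := by
    have h := K.wpos 1
    have e : K.A * (1 * 1) = C α * (ξ ^ 2 * ξ ^ 2) := by rw [hA]; ring
    rw [e, Fn.ev_map_C_mul] at h
    have h2 := K.pd (ξ ^ 2) (pow_ne_zero _ hξ0)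
    have : 0 ≤ α := by
      by_contra hn
      push Not at hn
      have := mul_neg_of_neg_of_pos hn h2
      linarith
    exact lt_of_le_of_ne this hαne.symm
  have hB1 : B1.natDegree ≤ 1 := by
    by_cases hB10 : B1 = 0
    · rw [hB10]; simp
    have h := K.dB
    rw [hB, natDegree_mul (pow_ne_zero _ hξ0) hB10, natDegree_pow, hξ, natDegree_X_sub_C] at h
    omega
  -- write B1 in terms of ξ
  obtain ⟨b1, b0, hb⟩ : ∃ b1 b0 : ℝ, B1 = C b1 * ξ + C b0 := by
    refine ⟨B1.coeff 1, B1.coeff 0 + B1.coeff 1 * c, ?_⟩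
    have := eq_X_add_C_of_natDegree_le_one hB1
    rw [hξ, C_add, C_mul]
    linear_combination this
  set m : ℕ → ℝ := fun n => K.u.ev (ξ ^ n) with hm
  have hrec : ∀ n : ℕ, (α * n + b1) * m (n + 3) + b0 * m (n + 2) = 0 := by
    intro n
    have h := K.h1 (ξ ^ n)
    have e : K.A * derivative (ξ ^ n) + K.B * ξ ^ n
        = C (α * n + b1) * ξ ^ (n + 3) + C b0 * ξ ^ (n + 2) := by
      rw [hA, hB, hb, derivative_pow, hξd, mul_one]
      rcases n with _ | n
      · simp; ring
      · simp only [Nat.add_sub_cancel, C_add, C_mul]; ring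
    rw [e, Fn.ev_map_add, Fn.ev_map_C_mul, Fn.ev_map_C_mul] at h
    exact h
  have hpos : ∀ k : ℕ, 0 < m (2 * k) := by
    intro k
    have := K.pd (ξ ^ k) (pow_ne_zero _ hξ0)
    rw [hm]; simp only
    rw [show 2 * k = k + k by ring, pow_add]; exact this
  have hcs : ∀ k : ℕ, m (2 * k + 1) ^ 2 < m (2 * k + 2) * m (2 * k) := by
    intro k
    have h := K.cs_strict (ξ ^ (k + 1)) (ξ ^ k) (pow_ne_zero _ hξ0) (by
      intro t ht
      have : ξ ^ k * (ξ - C t) = 0 := by rw [← ht]; ring
      rcases mul_eq_zero.1 this with h | h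
      · exact pow_ne_zero _ hξ0 h
      · rw [hξ, sub_sub, ← C_add] at h
        exact X_sub_C_ne_zero _ h)
    have e1 : ξ ^ (k + 1) * ξ ^ k = ξ ^ (2 * k + 1) := by ring
    have e2 : ξ ^ (k + 1) * ξ ^ (k + 1) = ξ ^ (2 * k + 2) := by ring
    have e3 : ξ ^ k * ξ ^ k = ξ ^ (2 * k) := by ring
    rw [e1, e2, e3] at h
    exact h
  obtain ⟨N, hN⟩ := exists_nat_gt (|b1| / α + 1)
  -- n = 2N
  have hNbig : ∀ n : ℕ, N ≤ n → 0 < α * n + b1 := by
    intro n hn
    have h1 : (N : ℝ) ≤ n := by exact_mod_cast hn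
    have h2 : |b1| / α < n := by linarith
    have h3 : |b1| < α * n := by rw [div_lt_iff₀ hα0] at h2; linarith
    have := neg_abs_le b1
    linarith
  set P := α * (2 * N : ℕ) + b1 with hP
  have hP0 : 0 < P := hNbig (2 * N) (by omega)
  have r1 := hrec (2 * N)
  have r2 := hrec (2 * N + 1)
  have c1 := hcs (N + 1)
  have p1 := hpos (N + 1)
  have e1 : 2 * (N + 1) + 1 = 2 * N + 3 := by ring
  have e2 : 2 * (N + 1) + 2 = 2 * N + 4 := by ring
  have e3 : 2 * (N + 1) = 2 * N + 2 := by ring
  rw [e1, e2, e3] at c1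
  rw [e3] at p1
  rw [show 2 * N + 1 + 3 = 2 * N + 4 by ring, show 2 * N + 1 + 2 = 2 * N + 3 by ring] at r2
  have hQ : α * (2 * N + 1 : ℕ) + b1 = P + α := by rw [hP]; push_cast; ring
  rw [hQ] at r2
  rw [← hP] at r1
  set x := m (2 * N + 2)
  set y := m (2 * N + 3)
  set w := m (2 * N + 4)
  -- P y = - b0 x ; (P+α) w = - b0 y ; y² < w x
  have h5 : (P + α) * (w * x) = P * y ^ 2 := by
    have : (P + α) * (w * x) = ((P + α) * w) * x := by ring
    rw [this, show (P + α) * w = -(b0 * y) by linarith]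
    have : P * y ^ 2 = (P * y) * y := by ring
    rw [this, show P * y = -(b0 * x) by linarith]
    ring
  have h6 : (P + α) * y ^ 2 < (P + α) * (w * x) := mul_lt_mul_of_pos_left c1 (by linarith)
  rw [h5] at h6
  have : 0 ≤ α * y ^ 2 := by positivity
  linarith

/-! ### Laguerre -/

/-- normalised Laguerre case -/
lemma case_L0 {α τ : ℝ} (hA : K.A = C α * X ^ 2) (hB : K.B = C α * X * (C (τ + 1) - X)) :
    Good K.u := by
  have hμ0 := K.ev_one_pos
  have hαne : α ≠ 0 := by
    intro h; apply K.hA0; rw [hA, h, C_0, zero_mul]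
  have hX0 : (X : ℝ[X]) ≠ 0 := X_ne_zero
  have hα0 : 0 < α := by
    have h := K.wpos 1
    have e : K.A * (1 * 1) = C α * (X * X) := by rw [hA]; ring
    rw [e, Fn.ev_map_C_mul] at h
    have h2 := K.pd X hX0
    have : 0 ≤ α := by
      by_contra hn
      push Not at hn
      have := mul_neg_of_neg_of_pos hn h2
      linarith
    exact lt_of_le_of_ne this hαne.symm
  -- ν
  set κ : ℝ := -K.u.ev (C τ - X) with hκ
  have hL : LRel K.u τ κ := by
    intro g
    obtain ⟨h, hh⟩ : ∃ h : ℝ[X], g = C (g.eval 0) + X * h := by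
      have : X ∣ g - C (g.eval 0) := by
        rw [X_dvd_iff, coeff_sub, coeff_C_zero, coeff_zero_eq_eval_zero, sub_self]
      obtain ⟨h, hh⟩ := this
      exact ⟨h, by rw [← hh]; ring⟩
    set g0 := g.eval 0
    have h1 := K.h1 h
    have e : K.A * derivative h + K.B * h = C α * (X * (X * derivative h) + X * (C (τ + 1) - X) * h) := by
      rw [hA, hB]; ring
    rw [e, Fn.ev_map_C_mul] at h1
    have h2 := (mul_eq_zero.1 h1).resolve_left hαne
    have e2 : X * derivative g + (C τ - X) * g
        = C g0 * (C τ - X) + (X * (X * derivative h) + X * (C (τ + 1) - X) * h) := by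
      rw [hh]
      simp only [derivative_add, derivative_C, derivative_mul, derivative_X, C_add, C_1]
      ring
    rw [e2, Fn.ev_map_add, Fn.ev_map_C_mul, h2, hκ]; ring
  -- the polynomial V
  set V : ℝ[X] := C α * (-X + (C (τ + 1) - X) * (C τ - X)) - K.Cp with hV
  have hstar : ∀ g : ℝ[X], K.u.ev (V * derivative g) + α * (τ + 1) * κ * (derivative g).eval 0
      = K.u.ev (K.E * g) := by
    intro g
    have h2 := K.h2 g
    have h3 := hL (C α * (C (τ + 1) - X) * derivative g)
    have e1 : X * derivative (C α * (C (τ + 1) - X) * derivative g)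
        + (C τ - X) * (C α * (C (τ + 1) - X) * derivative g)
        = K.B * derivative (derivative g) + (V + K.Cp) * derivative g := by
      rw [hB, hV]
      simp only [derivative_mul, derivative_C, derivative_sub, derivative_X]
      ring
    rw [e1, Fn.ev_map_add] at h3
    have e2 : (V + K.Cp) * derivative g = V * derivative g + K.Cp * derivative g := by ring
    rw [e2, Fn.ev_map_add] at h3
    rw [Fn.ev_map_add, Fn.ev_map_add] at h2
    simp only [eval_mul, eval_C, eval_sub, eval_X, sub_zero] at h3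
    linarith
  have hVd : V.natDegree ≤ 2 := by
    rw [hV]
    refine (natDegree_sub_le _ _).trans (max_le ?_ K.dC)
    compute_degree
  -- the polynomial identity
  have hQ : V * (1 - (C τ - X)) - X * derivative V = K.E * X := by
    have key : ∀ h : ℝ[X], K.u.ev ((V * (1 - (C τ - X)) - X * derivative V - K.E * X) * h)
        = -κ * (α * (τ + 1) - V.eval 0) * h.eval 0 := by
      intro h
      have h4 := hstar (X * h)
      have h5 := hL (V * h)
      simp only [derivative_mul, derivative_X, eval_add, eval_mul, eval_one, eval_X] at h4 h5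
      have e1 : V * (1 * h + X * derivative h) = V * h + X * V * derivative h := by ring
      have e2 : X * (derivative V * h + V * derivative h) + (C τ - X) * (V * h)
          = X * derivative V * h + X * V * derivative h + (C τ - X) * V * h := by ring
      rw [e1, Fn.ev_map_add] at h4
      rw [e2, Fn.ev_map_add, Fn.ev_map_add] at h5
      have e3 : (V * (1 - (C τ - X)) - X * derivative V - K.E * X) * h
          = V * h - (C τ - X) * V * h - X * derivative V * h - K.E * (X * h) := by ring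
      rw [e3, Fn.ev_map_sub, Fn.ev_map_sub, Fn.ev_map_sub]
      linarith
    have h6 : (V * (1 - (C τ - X)) - X * derivative V - K.E * X) * X = 0 := by
      apply K.nd
      apply Fn.ext
      intro g
      rw [Fn.ev_smul, Fn.ev_zero]
      have := key (X * g)
      rw [← mul_assoc] at this
      rw [this]; simp
    have h7 := (mul_eq_zero.1 h6).resolve_right hX0
    linear_combination h7
  have hK : κ * (α * (τ + 1) - V.eval 0) = 0 := by
    have h4 := hstar X
    have h5 := hL V
    have h6 : K.u.ev (V * (1 - (C τ - X)) - X * derivative V) = K.u.ev (K.E * X) := by rw [hQ]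
    have e : V * (1 - (C τ - X)) - X * derivative V
        = V - (X * derivative V + (C τ - X) * V) := by ring
    rw [e, Fn.ev_map_sub, h5] at h6
    simp only [derivative_X, mul_one, eval_one] at h4
    linarith
  -- coefficients
  obtain ⟨e1, he1⟩ : ∃ e1, e1 = K.E.coeff 1 := ⟨_, rfl⟩
  obtain ⟨e0, he0⟩ : ∃ e0, e0 = K.E.coeff 0 := ⟨_, rfl⟩
  have hE : K.E = C e1 * X + C e0 := by
    rw [he1, he0]; exact eq_X_add_C_of_natDegree_le_one K.dE
  have hVe : V = C (V.coeff 2) * X ^ 2 + C (V.coeff 1) * X + C (V.coeff 0) := by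
    conv_lhs => rw [V.as_sum_range_C_mul_X_pow' (n := 3) (by omega)]
    rw [Finset.sum_range_succ, Finset.sum_range_succ, Finset.sum_range_one]
    ring
  set V2 := V.coeff 2
  set V1 := V.coeff 1
  set V0 := V.coeff 0
  have hV0 : V.eval 0 = V0 := by rw [← coeff_zero_eq_eval_zero]
  have hcoef : C V2 * X ^ 3 + C (V1 + (1 - τ) * V2 - 2 * V2 - e1) * X ^ 2
      + C (V0 + (1 - τ) * V1 - V1 - e0) * X + C ((1 - τ) * V0) = (0 : ℝ[X]) := by
    have := hQ
    rw [hE, hVe] at this
    simp only [derivative_add, derivative_mul, derivative_C, derivative_X, derivative_X_pow] at this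
    have e2 : (C ((2 : ℕ) : ℝ) : ℝ[X]) = 2 := rfl
    have e3 : (C (2 : ℝ) : ℝ[X]) = 2 := rfl
    simp only [C_add, C_sub, C_mul, C_1, e3]
    rw [e2] at this
    linear_combination this
  obtain ⟨c3, c2, c1, c0⟩ := cubic_zero hcoef
  -- moments
  have m0 := hL 1
  have m1 := hL X
  simp only [derivative_one, derivative_X, eval_one, eval_X, mul_zero, zero_add, mul_one] at m0 m1
  have hmX : K.u.ev (C τ - X) = τ * K.u.ev 1 - K.u.ev X := by
    have : (C τ - X : ℝ[X]) = C τ * 1 - X := by ring
    rw [this, Fn.ev_map_sub, Fn.ev_map_C_mul]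
  have hmX2 : K.u.ev (X + (C τ - X) * X) = (1 + τ) * K.u.ev X - K.u.ev (X * X) := by
    have : (X + (C τ - X) * X : ℝ[X]) = C (1 + τ) * X - X * X := by
      rw [C_add, C_1]; ring
    rw [this, Fn.ev_map_sub, Fn.ev_map_C_mul]
  rw [hmX] at m0
  rw [hmX2] at m1
  have hX2 := K.pd X hX0
  by_cases hκ0 : κ = 0
  · rw [hκ0] at hL m0
    have hτ : 0 < τ := by
      have hc := K.cs_strict X 1 one_ne_zero (by
        intro t
        rw [mul_one]; exact X_sub_C_ne_zero t)
      rw [mul_one, mul_one] at hc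
      have h8 : K.u.ev X = τ * K.u.ev 1 := by linarith
      have h9 : K.u.ev (X * X) = (1 + τ) * (τ * K.u.ev 1) := by rw [← h8]; linarith
      rw [h8, h9] at hc
      have h10 : 0 < τ * K.u.ev 1 ^ 2 := by nlinarith [hc]
      by_contra hn
      push Not at hn
      have : 0 < K.u.ev 1 ^ 2 := by positivity
      nlinarith
    obtain ⟨W, μ, hμ, hW, hW1, hWe⟩ := meas_L hτ
    refine Good.of_smul (l := K.u.ev 1 / W.ev 1) (W := W) (by positivity) ?_ hμ one_ne_zero hWe
    have hs := hW.smul (K.u.ev 1 / W.ev 1)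
    rw [mul_zero] at hs
    apply hL.unique hs
    rw [Fn.ev_smul, Fn.ev_map_C_mul]
    field_simp
  · have hV0' : V0 = α * (τ + 1) := by
      have := (mul_eq_zero.1 hK).resolve_left hκ0
      rw [hV0] at this; linarith
    have hτ1 : τ = 1 := by
      rcases mul_eq_zero.1 c0 with h | h
      · linarith
      · rw [h] at hV0'
        have : τ + 1 = 0 := (mul_eq_zero.1 hV0'.symm).resolve_left hαne
        have h9 : 1 + τ = 0 := by linarith
        rw [h9, zero_mul] at m1
        simp at m1
        linarith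
    subst hτ1
    have hEe : e1 * K.u.ev X + e0 * K.u.ev 1 = 0 := by
      have h4 := hstar 1
      simp only [derivative_one, mul_zero, Fn.ev_map_zero, eval_zero, mul_one] at h4
      rw [hE] at h4
      have : (C e1 * X + C e0 : ℝ[X]) = C e1 * X + C e0 * 1 := by ring
      rw [this, Fn.ev_map_add, Fn.ev_map_C_mul, Fn.ev_map_C_mul] at h4
      linarith
    have he1n : 0 ≤ e1 := by rw [he1]; exact K.epos
    have hV1 : V1 = e1 := by rw [c3] at c2; linarith
    have c1' : V0 - V1 - e0 = 0 := by linarith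
    have he0' : e0 = 2 * α - e1 := by
      have : V0 - V1 - e0 = 0 := by linarith
      rw [hV0', hV1] at this; linarith
    have hux : K.u.ev X = K.u.ev 1 + κ := by linarith
    have h11 : e1 * κ + 2 * α * K.u.ev 1 = 0 := by
      rw [hux, he0'] at hEe; linarith
    have h12 : 0 < α * K.u.ev 1 := by positivity
    have hκneg : κ < 0 := by
      by_contra hn
      push Not at hn
      have : 0 ≤ e1 * κ := by positivity
      linarith
    have hl : 0 < K.u.ev 1 + κ := by
      have : (1 + 1) * K.u.ev X = K.u.ev (X * X) := by linarith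
      rw [hux] at this
      linarith
    set l := K.u.ev 1 + κ with hldef
    have hR : 0 < -(l / κ) := by
      have : l / κ < 0 := div_neg_of_pos_of_neg hl hκneg
      linarith
    obtain ⟨W, μ, hμ, hW, hW1, hWe⟩ := meas_L' hR
    refine Good.of_smul (l := l) (W := W) hl ?_ hμ one_ne_zero hWe
    have hs := hW.smul l
    have e5 : l * -(1 / -(l / κ)) = κ := by field_simp
    rw [e5] at hs
    apply hL.unique hs
    rw [Fn.ev_smul, Fn.ev_map_C_mul, hW1]
    have : l * (1 + 1 / -(l / κ)) = l - κ := by field_simp; ring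
    rw [this, hldef]; ring

lemma case_L {α c : ℝ} {B1 : ℝ[X]} (hA : K.A = C α * (X - C c) ^ 2) (hB : K.B = (X - C c) * B1)
    (hB1 : B1.natDegree = 1) : Good K.u := by
  have hBe : B1 = C (B1.coeff 1) * X + C (B1.coeff 0) := eq_X_add_C_of_natDegree_le_one hB1.le
  set β := B1.coeff 1 with hβ
  set β0 := B1.coeff 0 with hβ0
  have hβne : β ≠ 0 := by
    intro h
    rw [h, C_0, zero_mul, zero_add] at hBe
    rw [hBe] at hB1; simp at hB1
  have hαne : α ≠ 0 := by
    intro h; apply K.hA0; rw [hA, h, C_0, zero_mul]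
  set a := -(α / β) with ha
  have hane : a ≠ 0 := by rw [ha]; exact neg_ne_zero.2 (div_ne_zero hαne hβne)
  apply Good.of_pull (a := a) (b := c) hane
  change Good (K.aff a c hane).u
  apply (K.aff a c hane).case_L0 (α := α * a⁻¹ ^ 2) (τ := (β * c + β0) / α - 1)
  · change C (a⁻¹ ^ 4) * K.A.comp (TT a c) = _
    rw [hA]
    simp only [TT, mul_comp, pow_comp, sub_comp, C_comp, X_comp]
    have e : C (a⁻¹ ^ 4) * C a ^ 2 = (C (a⁻¹ ^ 2) : ℝ[X]) := by
      rw [← C_pow, ← C_mul]; congr 1; field_simp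
    rw [C_mul]
    linear_combination (C α * X ^ 2) * e
  · change C (a⁻¹ ^ 3) * K.B.comp (TT a c) = _
    rw [hB, hBe]
    simp only [TT, mul_comp, add_comp, sub_comp, C_comp, X_comp]
    have e1 : (C (a⁻¹ ^ 3) * C a * C β * C a : ℝ[X]) = -C (α * a⁻¹ ^ 2) := by
      rw [← C_mul, ← C_mul, ← C_mul, ← C_neg]; congr 1
      have : a * β = -α := by rw [ha]; field_simp
      have h2 : a⁻¹ ^ 3 * a * β * a = a⁻¹ ^ 3 * a * (a * β) := by ring
      rw [h2, this]; field_simp
    have e2 : (C (a⁻¹ ^ 3) * C a * (C β * C c + C β0) : ℝ[X])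
        = C (α * a⁻¹ ^ 2) * C ((β * c + β0) / α - 1 + 1) := by
      rw [← C_mul, ← C_mul, ← C_add, ← C_mul, ← C_mul]; congr 1
      field_simp
      ring
    linear_combination X ^ 2 * e1 + X * e2

end KD

end Pool.Agent.W5h47.Krall
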