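import Pool.Agent.W5h47.Krall.CasesHL

set_option autoImplicit false
open Polynomial MeasureTheory Set

namespace Pool.Agent.W5h47.Krall

lemma one_sub_X_ne : (1 - X : ℝ[X]) ≠ 0 := by
  intro h
  have := congrArg (fun P => Polynomial.eval 0 P) h
  simp at this

lemma one_add_X_ne : (1 + X : ℝ[X]) ≠ 0 := by
  intro h
  have := congrArg (fun P => Polynomial.eval 0 P) h
  simp at this

/-- ratio lemma -/
lemma ratio_pos {Y : ℕ → ℝ} {p r : ℝ} (h1 : ∀ m, 0 < Y (2 * m))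
    (h2 : ∀ m, Y (2 * m + 1) ^ 2 < Y (2 * m + 2) * Y (2 * m))
    (h3 : ∀ k : ℕ, 1 ≤ k → ((k : ℝ) + r + p) * Y (k + 1) = 2 * ((k : ℝ) + r) * Y k) : 0 < p := by
  obtain ⟨m, hm⟩ := exists_nat_gt (|r| + |p|)
  have hr := neg_abs_le r
  have hp := neg_abs_le p
  have hr0 := abs_nonneg r
  have hp0 := abs_nonneg p
  have hm0 : 1 ≤ m := by
    by_contra h
    have : m = 0 := by omega
    rw [this] at hm; push_cast at hm; linarith
  have hm1 : (1 : ℝ) ≤ m := by exact_mod_cast hm0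
  have a1 := h1 m
  have a2 := h2 m
  have a3 := h3 (2 * m) (by omega)
  have a4 := h3 (2 * m + 1) (by omega)
  rw [show 2 * m + 1 + 1 = 2 * m + 2 by ring] at a4
  push_cast at a3 a4
  set y0 := Y (2 * m)
  set y1 := Y (2 * m + 1)
  set y2 := Y (2 * m + 2)
  set s : ℝ := 2 * (m : ℝ) + r with hs
  have hs0 : 0 < s := by linarith
  have hsp : 0 < s + p := by linarith
  have a3' : (s + p) * y1 = 2 * s * y0 := by linarith
  have a4' : (s + 1 + p) * y2 = 2 * (s + 1) * y1 := by linarith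
  have hy1 : 0 < y1 := by
    have : 0 < (s + p) * y1 := by rw [a3']; positivity
    exact (pos_iff_pos_of_mul_pos this).1 hsp
  -- multiply inequality
  have b1 : (s + 1 + p) * (s + p) * y1 ^ 2 < (s + 1 + p) * (s + p) * (y2 * y0) :=
    mul_lt_mul_of_pos_left a2 (mul_pos (by linarith) (by linarith))
  have b2 : (s + 1 + p) * (s + p) * (y2 * y0) = (s + p) * (2 * (s + 1) * y1) * y0 := by
    rw [← a4']; ring
  have b3 : (s + 1 + p) * (s + p) * y1 ^ 2 = (s + 1 + p) * (2 * s * y0) * y1 := by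
    rw [← a3']; ring
  rw [b2, b3] at b1
  have b4 : 0 < (2 * y0 * y1) * ((s + p) * (s + 1) - (s + 1 + p) * s) := by linarith
  have b5 : (s + p) * (s + 1) - (s + 1 + p) * s = p := by ring
  rw [b5] at b4
  exact (pos_iff_pos_of_mul_pos b4).1 (by positivity)

namespace KD
variable (K : KD)

lemma J_pos {p r κ₂ : ℝ} (hJ : JRel K.u p r 0 κ₂) : 0 < p := by
  apply ratio_pos (Y := fun k => K.u.ev ((1 + X) ^ k)) (r := r)
  · intro m
    have := K.pd ((1 + X) ^ m) (pow_ne_zero _ one_add_X_ne)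
    rw [← pow_add] at this
    rw [two_mul]; exact this
  · intro m
    have h := K.cs_strict ((1 + X) ^ (m + 1)) ((1 + X) ^ m) (pow_ne_zero _ one_add_X_ne) (by
      intro t ht
      have : (1 + X : ℝ[X]) ^ m * (1 + X - C t) = 0 := by rw [← ht]; ring
      rcases mul_eq_zero.1 this with h | h
      · exact pow_ne_zero _ one_add_X_ne h
      · have h2 := congrArg (fun P => Polynomial.coeff P 1) h
        simp [coeff_one, coeff_X] at h2)
    have e1 : ((1 + X) ^ (m + 1) * (1 + X) ^ m : ℝ[X]) = (1 + X) ^ (2 * m + 1) := by ring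
    have e2 : ((1 + X) ^ (m + 1) * (1 + X) ^ (m + 1) : ℝ[X]) = (1 + X) ^ (2 * m + 2) := by ring
    have e3 : ((1 + X) ^ m * (1 + X) ^ m : ℝ[X]) = (1 + X) ^ (2 * m) := by ring
    rw [e1, e2, e3] at h
    exact h
  · intro k hk
    obtain ⟨k, rfl⟩ : ∃ k', k = k' + 1 := ⟨k - 1, by omega⟩
    have h := hJ ((1 + X) ^ (k + 1))
    have e : (1 - X ^ 2) * derivative ((1 + X) ^ (k + 1)) + (C (r - p) - C (p + r) * X) * (1 + X) ^ (k + 1)
        = C (2 * (((k + 1 : ℕ) : ℝ) + r)) * (1 + X) ^ (k + 1)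
          - C (((k + 1 : ℕ) : ℝ) + r + p) * (1 + X) ^ (k + 1 + 1) := by
      rw [derivative_pow]
      simp only [derivative_add, derivative_one, derivative_X, Nat.add_sub_cancel, C_add, C_mul, C_sub]
      have : (C (2 : ℝ) : ℝ[X]) = 2 := rfl
      rw [this]
      ring
    rw [e, Fn.ev_map_sub, Fn.ev_map_C_mul, Fn.ev_map_C_mul] at h
    simp only [eval_pow, eval_add, eval_one, eval_X] at h
    rw [show (1 + -1 : ℝ) = 0 by ring, zero_pow (by omega)] at h
    linarith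

lemma J_pos' {p r κ₁ : ℝ} (hJ : JRel K.u p r κ₁ 0) : 0 < r := by
  apply ratio_pos (Y := fun k => K.u.ev ((1 - X) ^ k)) (r := p)
  · intro m
    have := K.pd ((1 - X) ^ m) (pow_ne_zero _ one_sub_X_ne)
    rw [← pow_add] at this
    rw [two_mul]; exact this
  · intro m
    have h := K.cs_strict ((1 - X) ^ (m + 1)) ((1 - X) ^ m) (pow_ne_zero _ one_sub_X_ne) (by
      intro t ht
      have : (1 - X : ℝ[X]) ^ m * (1 - X - C t) = 0 := by rw [← ht]; ring
      rcases mul_eq_zero.1 this with h | h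
      · exact pow_ne_zero _ one_sub_X_ne h
      · have h2 := congrArg (fun P => Polynomial.coeff P 1) h
        simp [coeff_one, coeff_X] at h2)
    have e1 : ((1 - X) ^ (m + 1) * (1 - X) ^ m : ℝ[X]) = (1 - X) ^ (2 * m + 1) := by ring
    have e2 : ((1 - X) ^ (m + 1) * (1 - X) ^ (m + 1) : ℝ[X]) = (1 - X) ^ (2 * m + 2) := by ring
    have e3 : ((1 - X) ^ m * (1 - X) ^ m : ℝ[X]) = (1 - X) ^ (2 * m) := by ring
    rw [e1, e2, e3] at h
    exact h
  · intro k hk
    obtain ⟨k, rfl⟩ : ∃ k', k = k' + 1 := ⟨k - 1, by omega⟩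
    have h := hJ ((1 - X) ^ (k + 1))
    have e : (1 - X ^ 2) * derivative ((1 - X) ^ (k + 1)) + (C (r - p) - C (p + r) * X) * (1 - X) ^ (k + 1)
        = C (((k + 1 : ℕ) : ℝ) + p + r) * (1 - X) ^ (k + 1 + 1)
          - C (2 * (((k + 1 : ℕ) : ℝ) + p)) * (1 - X) ^ (k + 1) := by
      rw [derivative_pow]
      simp only [derivative_sub, derivative_one, derivative_X, Nat.add_sub_cancel, C_add, C_mul, C_sub]
      have : (C (2 : ℝ) : ℝ[X]) = 2 := rfl
      rw [this]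
      ring
    rw [e, Fn.ev_map_sub, Fn.ev_map_C_mul, Fn.ev_map_C_mul] at h
    simp only [eval_pow, eval_sub, eval_one, eval_X] at h
    rw [show (1 - 1 : ℝ) = 0 by ring, zero_pow (by omega)] at h
    linarith

lemma J_p_ne {p r κ₁ κ₂ : ℝ} (hJ : JRel K.u p r κ₁ κ₂) : p ≠ -1 := by
  rintro rfl
  have key : ∀ k : ℕ, ((k + 1 : ℕ) + r) * K.u.ev ((1 - X) ^ 2 * (1 + X) ^ (k + 1)) = 0 := by
    intro k
    have h := hJ ((1 - X) * (1 + X) ^ (k + 1))
    have e : (1 - X ^ 2) * derivative ((1 - X) * (1 + X) ^ (k + 1))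
        + (C (r - -1) - C (-1 + r) * X) * ((1 - X) * (1 + X) ^ (k + 1))
        = C ((k + 1 : ℕ) + r) * ((1 - X) ^ 2 * (1 + X) ^ (k + 1)) := by
      rw [derivative_mul, derivative_pow]
      simp only [derivative_add, derivative_sub, derivative_one, derivative_X, Nat.add_sub_cancel,
        C_add, C_sub, C_neg, C_1]
      ring
    rw [e, Fn.ev_map_C_mul] at h
    rw [h]
    simp
  have k1 := key 1
  have k3 := key 3
  have p1 := K.pd ((1 - X) * (1 + X)) (mul_ne_zero one_sub_X_ne one_add_X_ne)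
  have p2 := K.pd ((1 - X) * (1 + X) ^ 2) (mul_ne_zero one_sub_X_ne (pow_ne_zero _ one_add_X_ne))
  have e1 : ((1 - X) * (1 + X) * ((1 - X) * (1 + X)) : ℝ[X]) = (1 - X) ^ 2 * (1 + X) ^ (1 + 1) := by ring
  have e2 : ((1 - X) * (1 + X) ^ 2 * ((1 - X) * (1 + X) ^ 2) : ℝ[X])
      = (1 - X) ^ 2 * (1 + X) ^ (3 + 1) := by ring
  rw [e1] at p1
  rw [e2] at p2
  have q1 := (mul_eq_zero.1 k1).resolve_right p1.ne'
  have q2 := (mul_eq_zero.1 k3).resolve_right p2.ne'
  push_cast at q1 q2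
  linarith

lemma J_r_ne {p r κ₁ κ₂ : ℝ} (hJ : JRel K.u p r κ₁ κ₂) : r ≠ -1 := by
  rintro rfl
  have key : ∀ k : ℕ, ((k + 1 : ℕ) + p) * K.u.ev ((1 + X) ^ 2 * (1 - X) ^ (k + 1)) = 0 := by
    intro k
    have h := hJ ((1 + X) * (1 - X) ^ (k + 1))
    have e : (1 - X ^ 2) * derivative ((1 + X) * (1 - X) ^ (k + 1))
        + (C (-1 - p) - C (p + -1) * X) * ((1 + X) * (1 - X) ^ (k + 1))
        = C (-((k + 1 : ℕ) + p)) * ((1 + X) ^ 2 * (1 - X) ^ (k + 1)) := by
      rw [derivative_mul, derivative_pow]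
      simp only [derivative_add, derivative_sub, derivative_one, derivative_X, Nat.add_sub_cancel,
        C_add, C_sub, C_neg, C_1]
      ring
    rw [e, Fn.ev_map_C_mul] at h
    simp at h
    have h2 : ((k + 1 : ℕ) + p) = (k + 1 + p) := by push_cast; ring
    rw [h2]
    rcases h with h | h
    · rw [show (k : ℝ) + 1 + p = 0 by linarith, zero_mul]
    · rw [h, mul_zero]
  have k1 := key 1
  have k3 := key 3
  have p1 := K.pd ((1 + X) * (1 - X)) (mul_ne_zero one_add_X_ne one_sub_X_ne)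
  have p2 := K.pd ((1 + X) * (1 - X) ^ 2) (mul_ne_zero one_add_X_ne (pow_ne_zero _ one_sub_X_ne))
  have e1 : ((1 + X) * (1 - X) * ((1 + X) * (1 - X)) : ℝ[X]) = (1 + X) ^ 2 * (1 - X) ^ (1 + 1) := by ring
  have e2 : ((1 + X) * (1 - X) ^ 2 * ((1 + X) * (1 - X) ^ 2) : ℝ[X])
      = (1 + X) ^ 2 * (1 - X) ^ (3 + 1) := by ring
  rw [e1] at p1
  rw [e2] at p2
  have q1 := (mul_eq_zero.1 k1).resolve_right p1.ne'
  have q2 := (mul_eq_zero.1 k3).resolve_right p2.ne'
  push_cast at q1 q2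
  linarith

lemma J_alpha {α : ℝ} (hA : K.A = C α * (1 - X ^ 2) ^ 2) : 0 < α := by
  have hαne : α ≠ 0 := by
    intro h; apply K.hA0; rw [hA, h, C_0, zero_mul]
  have h := K.wpos 1
  have e : K.A * (1 * 1) = C α * (((1 - X) * (1 + X)) * ((1 - X) * (1 + X))) := by rw [hA]; ring
  rw [e, Fn.ev_map_C_mul] at h
  have h2 := K.pd ((1 - X) * (1 + X)) (mul_ne_zero one_sub_X_ne one_add_X_ne)
  have : 0 ≤ α := by
    by_contra hn
    push Not at hn
    have := mul_neg_of_neg_of_pos hn h2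
    linarith
  exact lt_of_le_of_ne this hαne.symm

lemma J_rel {α p r : ℝ} (hA : K.A = C α * (1 - X ^ 2) ^ 2)
    (hB : K.B = C α * (1 - X ^ 2) * (C (r - p) - C (p + r) * X - C 2 * X)) :
    ∃ κ₁ κ₂ : ℝ, JRel K.u p r κ₁ κ₂ := by
  have hαne : α ≠ 0 := (K.J_alpha hA).ne'
  refine ⟨-K.u.ev ((1 - X ^ 2) * derivative (C (1/2) * (1 + X)) + (C (r - p) - C (p + r) * X) * (C (1/2) * (1 + X))),
    -K.u.ev ((1 - X ^ 2) * derivative (C (1/2) * (1 - X)) + (C (r - p) - C (p + r) * X) * (C (1/2) * (1 - X))), ?_⟩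
  intro g
  obtain ⟨h, hh⟩ : ∃ h : ℝ[X], g = C (g.eval 1) * (C (1/2) * (1 + X))
      + C (g.eval (-1)) * (C (1/2) * (1 - X)) + (1 - X ^ 2) * h := by
    set q := g - (C (g.eval 1) * (C (1/2) * (1 + X)) + C (g.eval (-1)) * (C (1/2) * (1 - X))) with hq
    have h1 : q.IsRoot 1 := by
      rw [IsRoot, hq]; simp; norm_num
    obtain ⟨q1, hq1⟩ := dvd_iff_isRoot.2 h1
    have h2 : q1.IsRoot (-1) := by
      have : q.eval (-1) = 0 := by rw [hq]; simp; norm_num
      rw [hq1, eval_mul] at this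
      simp only [eval_sub, eval_X, eval_C] at this
      rw [IsRoot]
      rcases mul_eq_zero.1 this with h | h
      · norm_num at h
      · exact h
    obtain ⟨q2, hq2⟩ := dvd_iff_isRoot.2 h2
    refine ⟨-q2, ?_⟩
    have : q = (1 - X ^ 2) * -q2 := by
      rw [hq1, hq2, C_neg, C_1]; ring
    rw [← this, hq]; ring
  set g1 := g.eval 1
  set g2 := g.eval (-1)
  have h1 := K.h1 h
  have e : K.A * derivative h + K.B * h = C α * ((1 - X ^ 2) * derivative ((1 - X ^ 2) * h)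
      + (C (r - p) - C (p + r) * X) * ((1 - X ^ 2) * h)) := by
    rw [hA, hB, derivative_mul]
    simp only [derivative_sub, derivative_one, derivative_X_pow]
    have e2 : (C ((2 : ℕ) : ℝ) : ℝ[X]) = 2 := rfl
    have e3 : (C (2 : ℝ) : ℝ[X]) = 2 := rfl
    rw [e2, e3]
    ring
  rw [e, Fn.ev_map_C_mul] at h1
  have h2 := (mul_eq_zero.1 h1).resolve_left hαne
  have e2 : (1 - X ^ 2) * derivative g + (C (r - p) - C (p + r) * X) * g
      = C g1 * ((1 - X ^ 2) * derivative (C (1/2) * (1 + X))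
          + (C (r - p) - C (p + r) * X) * (C (1/2) * (1 + X)))
        + C g2 * ((1 - X ^ 2) * derivative (C (1/2) * (1 - X))
          + (C (r - p) - C (p + r) * X) * (C (1/2) * (1 - X)))
        + ((1 - X ^ 2) * derivative ((1 - X ^ 2) * h)
      + (C (r - p) - C (p + r) * X) * ((1 - X ^ 2) * h)) := by
    rw [hh, derivative_add, derivative_add, derivative_C_mul (a := g1), derivative_C_mul (a := g2)]
    ring
  rw [e2, Fn.ev_map_add, Fn.ev_map_add, Fn.ev_map_C_mul, Fn.ev_map_C_mul, h2]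
  ring

/-- scalar data -/
lemma J_data {α p r κ₁ κ₂ : ℝ} 
    (hB : K.B = C α * (1 - X ^ 2) * (C (r - p) - C (p + r) * X - C 2 * X))
    (hJ : JRel K.u p r κ₁ κ₂) :
    ∃ V2 V1 V0 e1 e0 : ℝ, 0 ≤ e1 ∧
      e1 * K.u.ev X + e0 * K.u.ev 1 = 0 ∧
      V2 * K.u.ev (X ^ 2) + V1 * K.u.ev X + V0 * K.u.ev 1
        + 2 * α * (-(p + 1) * κ₁ + (r + 1) * κ₂) = e1 * K.u.ev (X ^ 2) + e0 * K.u.ev X ∧
      κ₁ * (4 * α * (p + 1) - (V2 + V1 + V0)) = 0 ∧
      κ₂ * (4 * α * (r + 1) - (V2 - V1 + V0)) = 0 ∧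
      (p + r) * V2 + e1 = 0 ∧
      (p + r - 1) * V1 + (p - r) * V2 + e0 = 0 ∧
      (p + r - 2) * V0 + (p - r) * V1 - 2 * V2 - e1 = 0 ∧
      (p - r) * V0 - V1 - e0 = 0 := by
  set τ : ℝ[X] := C (r - p) - C (p + r) * X with hτ
  set V : ℝ[X] := C α * ((-C (p + r) - C 2) * (1 - X ^ 2) + τ * (τ - C 2 * X)) - K.Cp with hV
  have hstar : ∀ g : ℝ[X], K.u.ev (V * derivative g)
      + 2 * α * (-(p + 1) * κ₁ * (derivative g).eval 1 + (r + 1) * κ₂ * (derivative g).eval (-1))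
      = K.u.ev (K.E * g) := by
    intro g
    have h2 := K.h2 g
    have h3 := hJ (C α * (τ - C 2 * X) * derivative g)
    have e1 : (1 - X ^ 2) * derivative (C α * (τ - C 2 * X) * derivative g)
        + τ * (C α * (τ - C 2 * X) * derivative g)
        = K.B * derivative (derivative g) + V * derivative g + K.Cp * derivative g := by
      rw [hB, hV, hτ]
      simp only [derivative_mul, derivative_C, derivative_sub, derivative_X]
      ring
    rw [← hτ, e1, Fn.ev_map_add, Fn.ev_map_add] at h3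
    rw [Fn.ev_map_add, Fn.ev_map_add] at h2
    simp only [hτ, eval_mul, eval_C, eval_sub, eval_X] at h3
    linarith
  have hVd : V.natDegree ≤ 2 := by
    rw [hV]
    refine (natDegree_sub_le _ _).trans (max_le ?_ K.dC)
    rw [hτ]
    compute_degree
  have key : ∀ h : ℝ[X], K.u.ev ((V * (-(C 2 * X) - τ) - (1 - X ^ 2) * derivative V - K.E * (1 - X ^ 2)) * h)
      = -κ₁ * (4 * α * (p + 1) - V.eval 1) * h.eval 1
        - κ₂ * (4 * α * (r + 1) - V.eval (-1)) * h.eval (-1) := by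
    intro h
    have h4 := hstar ((1 - X ^ 2) * h)
    have h5 := hJ (V * h)
    rw [← hτ] at h5
    have d1 : derivative ((1 - X ^ 2) * h) = -(C 2 * X) * h + (1 - X ^ 2) * derivative h := by
      simp only [derivative_mul, derivative_sub, derivative_one, derivative_X_pow]
      have e2 : (C ((2 : ℕ) : ℝ) : ℝ[X]) = C 2 := rfl
      rw [e2]
      ring
    rw [d1] at h4
    have e1 : V * (-(C 2 * X) * h + (1 - X ^ 2) * derivative h)
        = V * (1 - X ^ 2) * derivative h - V * (C 2 * X) * h := by ring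
    rw [e1, Fn.ev_map_sub] at h4
    have e2 : (1 - X ^ 2) * derivative (V * h) + τ * (V * h)
        = (1 - X ^ 2) * derivative V * h + V * (1 - X ^ 2) * derivative h + V * τ * h := by
      rw [derivative_mul]; ring
    rw [e2, Fn.ev_map_add, Fn.ev_map_add] at h5
    have e3 : (V * (-(C 2 * X) - τ) - (1 - X ^ 2) * derivative V - K.E * (1 - X ^ 2)) * h
        = -(V * (C 2 * X) * h) - V * τ * h - (1 - X ^ 2) * derivative V * h
          - K.E * ((1 - X ^ 2) * h) := by ring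
    rw [e3, Fn.ev_map_sub, Fn.ev_map_sub, Fn.ev_map_sub, Fn.ev_map_neg]
    simp only [eval_add, eval_mul, eval_neg, eval_C, eval_X, eval_sub, eval_one, eval_pow] at h4 h5
    norm_num at h4 h5
    linarith
  have hQ : V * (-(C 2 * X) - τ) - (1 - X ^ 2) * derivative V - K.E * (1 - X ^ 2) = 0 := by
    have h6 : (V * (-(C 2 * X) - τ) - (1 - X ^ 2) * derivative V - K.E * (1 - X ^ 2)) * (1 - X ^ 2) = 0 := by
      apply K.nd
      apply Fn.ext
      intro g
      rw [Fn.ev_smul, Fn.ev_zero]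
      have := key ((1 - X ^ 2) * g)
      rw [← mul_assoc] at this
      rw [this]; simp
    refine (mul_eq_zero.1 h6).resolve_right ?_
    have : (1 - X ^ 2 : ℝ[X]) = (1 - X) * (1 + X) := by ring
    rw [this]
    exact mul_ne_zero one_sub_X_ne one_add_X_ne
  have hK1 : κ₁ * (4 * α * (p + 1) - V.eval 1) = 0 := by
    have := key (1 + X)
    rw [hQ, zero_mul, Fn.ev_map_zero] at this
    simp only [eval_add, eval_one, eval_X] at this
    linarith
  have hK2 : κ₂ * (4 * α * (r + 1) - V.eval (-1)) = 0 := by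
    have := key (1 - X)
    rw [hQ, zero_mul, Fn.ev_map_zero] at this
    simp only [eval_sub, eval_one, eval_X] at this
    linarith
  obtain ⟨e1, he1⟩ : ∃ e1, e1 = K.E.coeff 1 := ⟨_, rfl⟩
  obtain ⟨e0, he0⟩ : ∃ e0, e0 = K.E.coeff 0 := ⟨_, rfl⟩
  have hE : K.E = C e1 * X + C e0 := by
    rw [he1, he0]; exact eq_X_add_C_of_natDegree_le_one K.dE
  have hVe : V = C (V.coeff 2) * X ^ 2 + C (V.coeff 1) * X + C (V.coeff 0) := by
    conv_lhs => rw [V.as_sum_range_C_mul_X_pow' (n := 3) (by omega)]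
    rw [Finset.sum_range_succ, Finset.sum_range_succ, Finset.sum_range_one]
    ring
  set V2 := V.coeff 2
  set V1 := V.coeff 1
  set V0 := V.coeff 0
  have hcoef : C ((p + r) * V2 + e1) * X ^ 3 + C ((p + r - 1) * V1 + (p - r) * V2 + e0) * X ^ 2
      + C ((p + r - 2) * V0 + (p - r) * V1 - 2 * V2 - e1) * X + C ((p - r) * V0 - V1 - e0) = (0 : ℝ[X]) := by
    have := hQ
    rw [hE, hVe, hτ] at this
    simp only [derivative_add, derivative_mul, derivative_C, derivative_X, derivative_X_pow] at this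
    have e2 : (C ((2 : ℕ) : ℝ) : ℝ[X]) = 2 := rfl
    have e3 : (C (2 : ℝ) : ℝ[X]) = 2 := rfl
    simp only [C_add, C_sub, C_mul, C_1, e3] at this ⊢
    rw [e2] at this
    linear_combination this
  obtain ⟨c3, c2, c1, c0⟩ := cubic_zero hcoef
  have hs0 := hstar 1
  have hs1 := hstar X
  refine ⟨V2, V1, V0, e1, e0, by rw [he1]; exact K.epos, ?_, ?_, ?_, ?_, c3, c2, c1, c0⟩
  · simp only [derivative_one, mul_zero, Fn.ev_map_zero, eval_zero, mul_one] at hs0
    rw [hE] at hs0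
    have : (C e1 * X + C e0 : ℝ[X]) = C e1 * X + C e0 * 1 := by ring
    rw [this, Fn.ev_map_add, Fn.ev_map_C_mul, Fn.ev_map_C_mul] at hs0
    linarith
  · simp only [derivative_X, mul_one, eval_one] at hs1
    have a1 : K.u.ev V = V2 * K.u.ev (X ^ 2) + V1 * K.u.ev X + V0 * K.u.ev 1 := by
      rw [hVe]
      have : (C V2 * X ^ 2 + C V1 * X + C V0 : ℝ[X]) = C V2 * X ^ 2 + C V1 * X + C V0 * 1 := by ring
      rw [this, Fn.ev_map_add, Fn.ev_map_add, Fn.ev_map_C_mul, Fn.ev_map_C_mul, Fn.ev_map_C_mul]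
    have a2 : K.u.ev (K.E * X) = e1 * K.u.ev (X ^ 2) + e0 * K.u.ev X := by
      rw [hE]
      have : ((C e1 * X + C e0) * X : ℝ[X]) = C e1 * X ^ 2 + C e0 * X := by ring
      rw [this, Fn.ev_map_add, Fn.ev_map_C_mul, Fn.ev_map_C_mul]
    rw [a1, a2] at hs1
    linarith
  · have : V.eval 1 = V2 + V1 + V0 := by
      rw [hVe]; simp
    rw [← this]; exact hK1
  · have : V.eval (-1) = V2 - V1 + V0 := by
      rw [hVe]; simp; ring
    rw [← this]; exact hK2

/-- the moment relations from a Jacobi relation -/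
lemma J_mom {z : Fn} {p r κ₁ κ₂ : ℝ} (hJ : JRel z p r κ₁ κ₂) :
    (r - p) * z.ev 1 - (p + r) * z.ev X = -κ₁ - κ₂ ∧
    z.ev 1 - z.ev (X ^ 2) + (r - p) * z.ev X - (p + r) * z.ev (X ^ 2) = -κ₁ + κ₂ ∧
    3 * z.ev (X ^ 2) - 3 * z.ev (X ^ 4) + (r - p) * z.ev (X ^ 3) - (p + r) * z.ev (X ^ 4)
      = -κ₁ + κ₂ := by
  have h0 := hJ 1
  have h1 := hJ X
  have h3 := hJ (X ^ 3)
  have e0 : (1 - X ^ 2) * derivative (1 : ℝ[X]) + (C (r - p) - C (p + r) * X) * 1
      = C (r - p) * 1 - C (p + r) * X := by rw [derivative_one]; ring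
  have e1 : (1 - X ^ 2) * derivative (X : ℝ[X]) + (C (r - p) - C (p + r) * X) * X
      = 1 - X ^ 2 + C (r - p) * X - C (p + r) * X ^ 2 := by rw [derivative_X]; ring
  have e3 : (1 - X ^ 2) * derivative (X ^ 3 : ℝ[X]) + (C (r - p) - C (p + r) * X) * X ^ 3
      = C 3 * X ^ 2 - C 3 * X ^ 4 + C (r - p) * X ^ 3 - C (p + r) * X ^ 4 := by
    rw [derivative_X_pow]
    have : (C ((3 : ℕ) : ℝ) : ℝ[X]) = C 3 := rfl
    rw [this]
    simp only [show 3 - 1 = 2 from rfl]
    ring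
  rw [e0, Fn.ev_map_sub, Fn.ev_map_C_mul, Fn.ev_map_C_mul] at h0
  rw [e1, Fn.ev_map_sub, Fn.ev_map_add, Fn.ev_map_sub, Fn.ev_map_C_mul, Fn.ev_map_C_mul] at h1
  rw [e3, Fn.ev_map_sub, Fn.ev_map_add, Fn.ev_map_sub, Fn.ev_map_C_mul, Fn.ev_map_C_mul,
    Fn.ev_map_C_mul, Fn.ev_map_C_mul] at h3
  simp only [eval_one, eval_X, eval_pow] at h0 h1 h3
  norm_num at h0 h1 h3
  refine ⟨by linarith, by linarith, by linarith⟩

lemma J_B {α p r κ₂ : ℝ} (hA : K.A = C α * (1 - X ^ 2) ^ 2)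
    (hB : K.B = C α * (1 - X ^ 2) * (C (r - p) - C (p + r) * X - C 2 * X))
    (hJ : JRel K.u p r 0 κ₂) (hκ : κ₂ ≠ 0) : Good K.u := by
  have hα := K.J_alpha hA
  have hp := K.J_pos hJ
  have hrne := K.J_r_ne hJ
  obtain ⟨V2, V1, V0, e1, e0, he1, hE, hX, -, hK2, q3, q2, q1, q0⟩ := K.J_data hB hJ
  have hμ0 := K.ev_one_pos
  have hk2 := (mul_eq_zero.1 hK2).resolve_left hκ
  -- r = 1
  have hr : r = 1 := by
    -- V(-1) (2 - 2 r) = 0
    have h1 : (V2 - V1 + V0) * (1 - r) = 0 := by nlinarith [q3, q2, q1, q0]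
    have h2 : V2 - V1 + V0 = 4 * α * (r + 1) := by linarith
    rw [h2] at h1
    have h3 : 4 * α * (r + 1) ≠ 0 := by
      have : r + 1 ≠ 0 := fun h => hrne (by linarith)
      positivity
    have := (mul_eq_zero.1 h1).resolve_left h3
    linarith
  subst hr
  obtain ⟨m0, m1, -⟩ := J_mom hJ
  have hκneg : κ₂ < 0 := by
    have hV2 : V2 ≤ 0 := by
      have : (p + 1) * V2 = -e1 := by linarith
      by_contra hn
      push Not at hn
      have : 0 < (p + 1) * V2 := by positivity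
      linarith
    by_contra hn
    push Not at hn
    have hk : 0 < κ₂ := lt_of_le_of_ne hn hκ.symm
    have hle : V2 * κ₂ ≤ 0 := mul_nonpos_of_nonpos_of_nonneg hV2 hn
    by_cases hp1 : p = 1
    · subst hp1
      have a1 : K.u.ev X = κ₂ / 2 := by linarith
      have a2 : 3 * K.u.ev (X ^ 2) = K.u.ev 1 - κ₂ := by linarith
      have b1 : (V1 + 4 * α) * (2 * K.u.ev 1 + κ₂) = 0 := by
        rw [a1] at hE hX
        have he1' : e1 = -2 * V2 := by linarith
        have he0' : e0 = -V1 := by linarith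
        have hV0 : V0 = 8 * α - V2 + V1 := by linarith
        rw [he1', he0'] at hE hX
        have c1 : V2 * κ₂ = -V1 * K.u.ev 1 := by linarith
        have c2 : 3 * V2 * K.u.ev (X ^ 2) = V2 * K.u.ev 1 - V2 * κ₂ := by
          have : 3 * V2 * K.u.ev (X ^ 2) = V2 * (3 * K.u.ev (X ^ 2)) := by ring
          rw [this, a2]; ring
        rw [hV0] at hX
        nlinarith [hX, c1, c2]
      rcases mul_eq_zero.1 b1 with h | h
      · have he1' : e1 = -2 * V2 := by linarith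
        have he0' : e0 = -V1 := by linarith
        rw [he1', he0', a1] at hE
        have : V1 = -4 * α := by linarith
        rw [this] at hE
        have : 0 < α * K.u.ev 1 := by positivity
        nlinarith
      · linarith
    · have b1 : (p - 1) * (8 * α + 2 * V1) = 0 := by nlinarith [q3, q2, q1, q0, hk2]
      have b2 : V1 = -4 * α := by
        have := (mul_eq_zero.1 b1).resolve_left (fun h => hp1 (by linarith))
        linarith
      have he1' : e1 = -(p + 1) * V2 := by linarith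
      have he0' : e0 = 4 * α * p - (p - 1) * V2 := by rw [b2] at q2; linarith
      rw [he1', he0'] at hE
      have c1 : V2 * κ₂ = 4 * α * p * K.u.ev 1 := by
        have : κ₂ = -((1 - p) * K.u.ev 1 - (p + 1) * K.u.ev X) := by linarith
        rw [this]; linarith
      have : 0 < 4 * α * p * K.u.ev 1 := by positivity
      linarith
  -- positivity of λ
  have hl : 0 < 2 * K.u.ev 1 + κ₂ := by
    have h1 := hJ (1 + X)
    have e : (1 - X ^ 2) * derivative (1 + X) + (C (1 - p) - C (p + 1) * X) * (1 + X)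
        = C 4 * (1 + X) - C (p + 2) * ((1 + X) * (1 + X)) := by
      simp only [derivative_add, derivative_one, derivative_X, C_add, C_sub, C_1]
      have : (C (4 : ℝ) : ℝ[X]) = 4 := rfl
      have h2 : (C (2 : ℝ) : ℝ[X]) = 2 := rfl
      rw [this, h2]
      ring
    rw [e, Fn.ev_map_sub, Fn.ev_map_C_mul, Fn.ev_map_C_mul] at h1
    simp only [eval_add, eval_one, eval_X] at h1
    norm_num at h1
    have h2 := K.pd (1 + X) one_add_X_ne
    have h3 : K.u.ev (1 + X) = K.u.ev 1 + K.u.ev X := Fn.ev_map_add _ _ _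
    have h4 : (p + 1) * K.u.ev (1 + X) = 2 * K.u.ev 1 + κ₂ := by rw [h3]; linarith
    rw [← h4]
    have h5 : 0 < (p + 2) * K.u.ev ((1 + X) * (1 + X)) := by positivity
    have h6 : 0 < K.u.ev (1 + X) := by linarith
    positivity
  set l := p * (K.u.ev 1 + κ₂ / 2) with hldef
  have hl0 : 0 < l := by
    rw [hldef]; apply mul_pos hp; linarith
  have hM : 0 < -(2 * l / κ₂) := by
    have : 2 * l / κ₂ < 0 := div_neg_of_pos_of_neg (by linarith) hκneg
    linarith
  obtain ⟨W, μ, hμ, hW, hW1, hWe⟩ := meas_J1 hp hM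
  refine Good.of_smul (l := l) (W := W) hl0 ?_ hμ two_ne_zero hWe
  have hs := hW.smul l
  have e5 : l * -(2 / -(2 * l / κ₂)) = κ₂ := by field_simp
  rw [e5, mul_zero] at hs
  apply hJ.unique (by linarith) hs
  rw [Fn.ev_smul, Fn.ev_map_C_mul, hW1]
  have e6 : l * (1 / p + 1 / -(2 * l / κ₂)) = l / p - κ₂ / 2 := by field_simp; ring
  rw [e6, hldef]
  field_simp
  ring

lemma J_D {α p r κ₁ κ₂ : ℝ} (hA : K.A = C α * (1 - X ^ 2) ^ 2)
    (hB : K.B = C α * (1 - X ^ 2) * (C (r - p) - C (p + r) * X - C 2 * X))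
    (hJ : JRel K.u p r κ₁ κ₂) (hκ1 : κ₁ ≠ 0) (hκ2 : κ₂ ≠ 0) : Good K.u := by
  have hα := K.J_alpha hA
  have hrne := K.J_r_ne hJ
  have hpne := K.J_p_ne hJ
  obtain ⟨V2, V1, V0, e1, e0, he1, hE, hX, hK1, hK2, q3, q2, q1, q0⟩ := K.J_data hB hJ
  have hμ0 := K.ev_one_pos
  have hk1 := (mul_eq_zero.1 hK1).resolve_left hκ1
  have hk2 := (mul_eq_zero.1 hK2).resolve_left hκ2
  have hr : r = 1 := by
    have h1 : (V2 - V1 + V0) * (1 - r) = 0 := by nlinarith [q3, q2, q1, q0]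
    have h2 : V2 - V1 + V0 = 4 * α * (r + 1) := by linarith
    rw [h2] at h1
    have h3 : 4 * α * (r + 1) ≠ 0 := by
      have : r + 1 ≠ 0 := fun h => hrne (by linarith)
      positivity
    have := (mul_eq_zero.1 h1).resolve_left h3
    linarith
  have hp : p = 1 := by
    have h1 : (V2 + V1 + V0) * (1 - p) = 0 := by nlinarith [q3, q2, q1, q0]
    have h2 : V2 + V1 + V0 = 4 * α * (p + 1) := by linarith
    rw [h2] at h1
    have h3 : 4 * α * (p + 1) ≠ 0 := by
      have : p + 1 ≠ 0 := fun h => hpne (by linarith)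
      positivity
    have := (mul_eq_zero.1 h1).resolve_left h3
    linarith
  subst hr
  subst hp
  obtain ⟨m0, m1, m3⟩ := J_mom hJ
  have hV1 : V1 = 0 := by linarith
  have hV0 : V0 = 8 * α - V2 := by linarith
  have he1' : e1 = -2 * V2 := by linarith
  have he0' : e0 = 0 := by linarith
  have hV2 : V2 ≤ 0 := by linarith
  rw [he1', he0'] at hE hX
  rw [hV1, hV0] at hX
  have c1 : (4 * α - V2) * (κ₁ - κ₂) = 8 * α * K.u.ev 1 := by
    have a2 : 3 * K.u.ev (X ^ 2) = K.u.ev 1 + κ₁ - κ₂ := by linarith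
    have c2 : 3 * V2 * K.u.ev (X ^ 2) = V2 * (K.u.ev 1 + κ₁ - κ₂) := by
      rw [← a2]; ring
    nlinarith [hX, c2]
  have hV2ne : V2 ≠ 0 := by
    intro h
    rw [h] at c1
    have c2 : κ₁ - κ₂ = 2 * K.u.ev 1 := by
      have : 4 * α * (κ₁ - κ₂) = 4 * α * (2 * K.u.ev 1) := by linarith
      exact mul_left_cancel₀ (by positivity) this
    have c3 : K.u.ev (X ^ 2) = K.u.ev 1 := by linarith
    have c4 : K.u.ev (X ^ 4) = K.u.ev 1 := by linarith
    have := K.pd ((1 - X) * (1 + X)) (mul_ne_zero one_sub_X_ne one_add_X_ne)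
    have e : ((1 - X) * (1 + X) * ((1 - X) * (1 + X)) : ℝ[X]) = 1 - C 2 * X ^ 2 + X ^ 4 := by
      have : (C (2 : ℝ) : ℝ[X]) = 2 := rfl
      rw [this]; ring
    rw [e, Fn.ev_map_add, Fn.ev_map_sub, Fn.ev_map_C_mul, c3, c4] at this
    linarith
  have hV2neg : V2 < 0 := lt_of_le_of_ne hV2 hV2ne
  have hμ1 : K.u.ev X = 0 := by
    have : -2 * V2 * K.u.ev X = 0 := by linarith
    exact (mul_eq_zero.1 this).resolve_left (by intro h; apply hV2ne; linarith)
  have hk : κ₂ = -κ₁ := by rw [hμ1] at m0; linarith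
  subst hk
  have c2 : (4 * α - V2) * κ₁ = 4 * α * K.u.ev 1 := by linarith
  have hκpos : 0 < κ₁ := by
    have h1 : 0 < (4 * α - V2) * κ₁ := by rw [c2]; positivity
    exact (pos_iff_pos_of_mul_pos h1).1 (by linarith)
  have hlt : κ₁ < K.u.ev 1 := by
    by_contra hn
    push Not at hn
    have : 4 * α * K.u.ev 1 ≤ 4 * α * κ₁ := mul_le_mul_of_nonneg_left hn (by positivity)
    have h3 : 0 < -V2 * κ₁ := mul_pos (by linarith) hκpos
    nlinarith
  set l := (K.u.ev 1 - κ₁) / 2 with hldef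
  have hl0 : 0 < l := by rw [hldef]; linarith
  obtain ⟨W, μ, hμ, hW, hW1, hWe⟩ := meas_J2 (A := 2 * l / κ₁) (by positivity)
  refine Good.of_smul (l := l) (W := W) hl0 ?_ hμ one_ne_zero hWe
  have hs := hW.smul l
  have e5 : l * (2 / (2 * l / κ₁)) = κ₁ := by field_simp
  rw [mul_neg, e5] at hs
  apply hJ.unique (by norm_num) hs
  rw [Fn.ev_smul, Fn.ev_map_C_mul, hW1]
  have e6 : l * (2 + 2 / (2 * l / κ₁)) = 2 * l + κ₁ := by field_simp
  rw [e6, hldef]
  ring

/-- normalised real case -/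
lemma case_J0 {α p r : ℝ} (hA : K.A = C α * (1 - X ^ 2) ^ 2)
    (hB : K.B = C α * (1 - X ^ 2) * (C (r - p) - C (p + r) * X - C 2 * X)) : Good K.u := by
  obtain ⟨κ₁, κ₂, hJ⟩ := K.J_rel hA hB
  by_cases h1 : κ₁ = 0
  · subst h1
    by_cases h2 : κ₂ = 0
    · subst h2
      have hp := K.J_pos hJ
      have hr := K.J_pos' hJ
      obtain ⟨W, μ, hμ, hW, hW1, hWe⟩ := meas_J hp hr
      have hμ0 := K.ev_one_pos
      refine Good.of_smul (l := K.u.ev 1 / W.ev 1) (W := W) (by positivity) ?_ hμ one_ne_zero hWe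
      have hs := hW.smul (K.u.ev 1 / W.ev 1)
      rw [mul_zero] at hs
      apply hJ.unique (by positivity) hs
      rw [Fn.ev_smul, Fn.ev_map_C_mul]
      field_simp
    · exact K.J_B hA hB hJ h2
  · by_cases h2 : κ₂ = 0
    · subst h2
      have hne : (-1 : ℝ) ≠ 0 := by norm_num
      apply Good.of_pull (a := -1) (b := 0) hne
      change Good (K.aff (-1) 0 hne).u
      have hT : TT (-1) 0 = -X := by simp [TT]
      have hS : SS (-1) 0 = -X := by
        simp only [SS]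
        norm_num
      apply (K.aff (-1) 0 hne).J_B (α := α) (p := r) (r := p) (κ₂ := -κ₁)
      · change C ((-1 : ℝ)⁻¹ ^ 4) * K.A.comp (TT (-1) 0) = _
        rw [hA, hT]
        simp only [mul_comp, pow_comp, sub_comp, one_comp, C_comp, X_comp]
        norm_num
      · change C ((-1 : ℝ)⁻¹ ^ 3) * K.B.comp (TT (-1) 0) = _
        rw [hB, hT]
        simp only [mul_comp, pow_comp, sub_comp, one_comp, C_comp, X_comp, C_sub, C_add]
        norm_num
        ring
      · intro g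
        change (K.u.pull (SS (-1) 0)).ev _ = _
        rw [Fn.ev_pull, hS]
        have h := hJ (g.comp (-X))
        have hd : derivative (g.comp (-X)) = -(derivative g).comp (-X) := by
          rw [derivative_comp]; simp
        rw [hd] at h
        have e : ((1 - X ^ 2) * derivative g + (C (p - r) - C (r + p) * X) * g).comp (-X)
            = -((1 - X ^ 2) * -(derivative g).comp (-X)
              + (C (r - p) - C (p + r) * X) * g.comp (-X)) := by
          simp only [add_comp, mul_comp, sub_comp, pow_comp, one_comp, C_comp, X_comp, C_sub, C_add]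
          ring
        rw [e, Fn.ev_map_neg, h]
        simp [eval_comp]
      · exact neg_ne_zero.2 h1
    · exact K.J_D hA hB hJ h1 h2

/-- The impossible complex case. -/
lemma case_Jc {α : ℝ} {B1 : ℝ[X]} (hA : K.A = C α * (X ^ 2 + 1) ^ 2) (hB : K.B = (X ^ 2 + 1) * B1) :
    False := by
  have hαne : α ≠ 0 := by
    intro h; apply K.hA0; rw [hA, h, C_0, zero_mul]
  have hs0 : (X ^ 2 + 1 : ℝ[X]) ≠ 0 := by
    intro h
    have := congrArg (fun P => Polynomial.eval 0 P) h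
    simp at this
  have hsd : (X ^ 2 + 1 : ℝ[X]).natDegree = 2 := by compute_degree!
  have hB1 : B1.natDegree ≤ 1 := by
    by_cases hB10 : B1 = 0
    · rw [hB10]; simp
    have h := K.dB
    rw [hB, natDegree_mul hs0 hB10, hsd] at h
    omega
  have hBe := eq_X_add_C_of_natDegree_le_one hB1
  set β := B1.coeff 1 / α
  set β0 := B1.coeff 0 / α
  have hBe' : B1 = C α * (C β * X + C β0) := by
    rw [mul_add, ← mul_assoc, ← C_mul, ← C_mul]
    rw [show α * β = B1.coeff 1 by simp only [β]; field_simp,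
      show α * β0 = B1.coeff 0 by simp only [β0]; field_simp]
    exact hBe
  set w : ℕ → ℝ := fun n => K.u.ev ((X ^ 2 + 1) ^ 2 * X ^ n) with hw
  have hrec : ∀ k : ℕ, ((k : ℝ) + 1 + 2 + β) * w (k + 2) + ((k : ℝ) + 1) * w k + β0 * w (k + 1) = 0 := by
    intro k
    have h := K.h1 ((X ^ 2 + 1) * X ^ (k + 1))
    have e : K.A * derivative ((X ^ 2 + 1) * X ^ (k + 1)) + K.B * ((X ^ 2 + 1) * X ^ (k + 1))
        = C α * (C ((k : ℝ) + 1 + 2 + β) * ((X ^ 2 + 1) ^ 2 * X ^ (k + 2))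
          + C ((k : ℝ) + 1) * ((X ^ 2 + 1) ^ 2 * X ^ k) + C β0 * ((X ^ 2 + 1) ^ 2 * X ^ (k + 1))) := by
      rw [hA, hB, hBe', derivative_mul, derivative_add, derivative_one, derivative_X_pow,
        derivative_X_pow]
      have e2 : (C ((2 : ℕ) : ℝ) : ℝ[X]) = 2 := rfl
      have e3 : (C (2 : ℝ) : ℝ[X]) = 2 := rfl
      rw [e2]
      simp only [Nat.add_sub_cancel, C_add, C_1, e3, Nat.cast_add, Nat.cast_one, show 2 - 1 = 1 from rfl]
      ring
    rw [e, Fn.ev_map_C_mul, Fn.ev_map_add, Fn.ev_map_add, Fn.ev_map_C_mul, Fn.ev_map_C_mul,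
      Fn.ev_map_C_mul] at h
    exact (mul_eq_zero.1 h).resolve_left hαne
  have hpos : ∀ m : ℕ, 0 < w (2 * m) := by
    intro m
    have := K.pd ((X ^ 2 + 1) * X ^ m) (mul_ne_zero hs0 (pow_ne_zero _ X_ne_zero))
    have e : ((X ^ 2 + 1) * X ^ m * ((X ^ 2 + 1) * X ^ m) : ℝ[X]) = (X ^ 2 + 1) ^ 2 * X ^ (2 * m) := by
      ring
    rw [e] at this
    exact this
  have hle : ∀ m : ℕ, 2 * |w (2 * m + 1)| ≤ w (2 * m + 2) + w (2 * m) := by
    intro m
    have h1 := K.pd ((X ^ 2 + 1) * X ^ m * (X - C 1)) (mul_ne_zero (mul_ne_zero hs0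
      (pow_ne_zero _ X_ne_zero)) (X_sub_C_ne_zero _))
    have h2 := K.pd ((X ^ 2 + 1) * X ^ m * (X - C (-1))) (mul_ne_zero (mul_ne_zero hs0
      (pow_ne_zero _ X_ne_zero)) (X_sub_C_ne_zero _))
    have e1 : ((X ^ 2 + 1) * X ^ m * (X - C 1) * ((X ^ 2 + 1) * X ^ m * (X - C 1)) : ℝ[X])
        = (X ^ 2 + 1) ^ 2 * X ^ (2 * m + 2) - C 2 * ((X ^ 2 + 1) ^ 2 * X ^ (2 * m + 1))
          + (X ^ 2 + 1) ^ 2 * X ^ (2 * m) := by
      have e3 : (C (2 : ℝ) : ℝ[X]) = 2 := rfl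
      rw [e3, C_1]; ring
    have e2 : ((X ^ 2 + 1) * X ^ m * (X - C (-1)) * ((X ^ 2 + 1) * X ^ m * (X - C (-1))) : ℝ[X])
        = (X ^ 2 + 1) ^ 2 * X ^ (2 * m + 2) + C 2 * ((X ^ 2 + 1) ^ 2 * X ^ (2 * m + 1))
          + (X ^ 2 + 1) ^ 2 * X ^ (2 * m) := by
      have e3 : (C (2 : ℝ) : ℝ[X]) = 2 := rfl
      rw [e3, C_neg, C_1]; ring
    rw [e1, Fn.ev_map_add, Fn.ev_map_sub, Fn.ev_map_C_mul] at h1
    rw [e2, Fn.ev_map_add, Fn.ev_map_add, Fn.ev_map_C_mul] at h2
    change 0 < w (2 * m + 2) - 2 * w (2 * m + 1) + w (2 * m) at h1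
    change 0 < w (2 * m + 2) + 2 * w (2 * m + 1) + w (2 * m) at h2
    rcases abs_cases (w (2 * m + 1)) with ⟨h, _⟩ | ⟨h, _⟩
    · rw [h]; linarith
    · rw [h]; linarith
  obtain ⟨m, hm⟩ := exists_nat_gt (|β0| + |β|)
  have a1 := hrec (2 * m)
  have a2 := hle m
  have a3 := hpos m
  have a4 := hpos (m + 1)
  rw [show 2 * (m + 1) = 2 * m + 2 by ring] at a4
  push_cast at a1
  have b1 : -(β0 * w (2 * m + 1)) ≤ |β0| * |w (2 * m + 1)| := by
    rw [← abs_mul]; exact neg_le_abs _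
  have b2 : |β0| * |w (2 * m + 1)| ≤ |β0| * ((w (2 * m + 2) + w (2 * m)) / 2) :=
    mul_le_mul_of_nonneg_left (by linarith) (abs_nonneg _)
  have b3 : 0 ≤ |β0| := abs_nonneg _
  have b4 : 0 ≤ |β| := abs_nonneg _
  have b5 := neg_abs_le β
  have b6 : |β0| * w (2 * m + 2) ≤ (2 * (m : ℝ) + 1 + 2 + β) * w (2 * m + 2) :=
    mul_le_mul_of_nonneg_right (by linarith) a4.le
  have b7 : |β0| * w (2 * m) ≤ (2 * (m : ℝ) + 1) * w (2 * m) :=
    mul_le_mul_of_nonneg_right (by linarith) a3.le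
  have b8 : 0 < (2 * (m : ℝ) + 1 + 2 + β - |β0|) * w (2 * m + 2) :=
    mul_pos (by linarith) a4
  have b9 : 0 ≤ |β0| * w (2 * m + 2) := mul_nonneg b3 a4.le
  have b10 : 0 ≤ |β0| * w (2 * m) := mul_nonneg b3 a3.le
  nlinarith

lemma case_J {α : ℝ} {σ B1 : ℝ[X]} (hm : σ.Monic) (hd : σ.natDegree = 2) (hsq : Squarefree σ)
    (hA : K.A = C α * σ ^ 2) (hB : K.B = σ * B1) : Good K.u := by
  have hαne : α ≠ 0 := by
    intro h; apply K.hA0; rw [hA, h, C_0, zero_mul]
  set s1 := σ.coeff 1 with hs1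
  set s0 := σ.coeff 0 with hs0
  have hσ : σ = X ^ 2 + C s1 * X + C s0 := by
    conv_lhs => rw [σ.as_sum_range_C_mul_X_pow' (n := 3) (by omega)]
    rw [Finset.sum_range_succ, Finset.sum_range_succ, Finset.sum_range_one]
    have : σ.coeff 2 = 1 := by
      have := hm.coeff_natDegree
      rwa [hd] at this
    rw [this, C_1]
    ring
  set D := s1 ^ 2 / 4 - s0 with hD
  have hσD : σ = (X - C (-s1 / 2)) ^ 2 - C D := by
    rw [hσ, hD]
    have e1 : (C (-s1 / 2) : ℝ[X]) = -C (s1 / 2) := by rw [← C_neg]; congr 1; ring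
    have e2 : (C (s1 ^ 2 / 4 - s0) : ℝ[X]) = C (s1 / 2) ^ 2 - C s0 := by
      rw [← C_pow, ← C_sub]; congr 1; ring
    have e3 : (C s1 : ℝ[X]) = 2 * C (s1 / 2) := by
      have : (2 : ℝ[X]) = C 2 := rfl
      rw [this, ← C_mul]; congr 1; ring
    rw [e1, e2, e3]; ring
  have hD0 : D ≠ 0 := by
    intro h
    rw [h, C_0, sub_zero] at hσD
    have := hsq (X - C (-s1 / 2)) (by rw [hσD, pow_two])
    exact not_isUnit_X_sub_C _ this
  have hB1 : B1.natDegree ≤ 1 := by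
    by_cases hB10 : B1 = 0
    · rw [hB10]; simp
    have h := K.dB
    rw [hB, natDegree_mul hm.ne_zero hB10, hd] at h
    omega
  have hBe := eq_X_add_C_of_natDegree_le_one hB1
  set β := B1.coeff 1
  set β0 := B1.coeff 0
  rcases lt_or_gt_of_ne hD0 with hDneg | hDpos
  · -- complex case
    exfalso
    set a := Real.sqrt (-D) with ha
    have ha0 : 0 < a := Real.sqrt_pos.2 (by linarith)
    have ha2 : a ^ 2 = -D := Real.sq_sqrt (by linarith)
    have hane : a ≠ 0 := ha0.ne'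
    have hσT : σ.comp (TT a (-s1 / 2)) = C (a ^ 2) * (X ^ 2 + 1) := by
      rw [hσD]
      simp only [TT, sub_comp, pow_comp, C_comp, X_comp]
      rw [show D = -a ^ 2 by linarith]
      simp only [C_neg, C_pow]
      ring
    apply (K.aff a (-s1 / 2) hane).case_Jc (α := α)
      (B1 := C (a⁻¹ ^ 3) * C (a ^ 2) * B1.comp (TT a (-s1 / 2)))
    · change C (a⁻¹ ^ 4) * K.A.comp (TT a (-s1 / 2)) = _
      rw [hA]
      simp only [mul_comp, pow_comp, C_comp, hσT]
      have : (C (a⁻¹ ^ 4) * C (a ^ 2) ^ 2 : ℝ[X]) = 1 := by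
        rw [← C_pow, ← C_mul, ← C_1]; congr 1; field_simp
      linear_combination (C α * (X ^ 2 + 1) ^ 2) * this
    · change C (a⁻¹ ^ 3) * K.B.comp (TT a (-s1 / 2)) = _
      rw [hB, mul_comp, hσT]; ring
  · set a := Real.sqrt D with ha
    have ha0 : 0 < a := Real.sqrt_pos.2 hDpos
    have ha2 : a ^ 2 = D := Real.sq_sqrt hDpos.le
    have hane : a ≠ 0 := ha0.ne'
    have hσT : σ.comp (TT a (-s1 / 2)) = C (a ^ 2) * (X ^ 2 - 1) := by
      rw [hσD]
      simp only [TT, sub_comp, pow_comp, C_comp, X_comp]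
      rw [← ha2]
      simp only [C_pow]
      ring
    apply Good.of_pull (a := a) (b := -s1 / 2) hane
    change Good (K.aff a (-s1 / 2) hane).u
    -- a⁻³ a² (X²-1) (β (aX + b) + β0) = α (1-X²) ( (r-p) - (p+r+2) X)
    -- slope: -a⁻¹ β a = -α (p+r+2), i.e. p + r + 2 = β/α ; -(a⁻¹ (β b + β0)) = α (r-p)
    set S := β / α - 2 with hS
    set Df := -(a⁻¹ * (β * (-s1 / 2) + β0)) / α with hDf
    apply (K.aff a (-s1 / 2) hane).case_J0 (α := α) (p := (S - Df) / 2) (r := (S + Df) / 2)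
    · change C (a⁻¹ ^ 4) * K.A.comp (TT a (-s1 / 2)) = _
      rw [hA]
      simp only [mul_comp, pow_comp, C_comp, hσT]
      have : (C (a⁻¹ ^ 4) * C (a ^ 2) ^ 2 : ℝ[X]) = 1 := by
        rw [← C_pow, ← C_mul, ← C_1]; congr 1; field_simp
      linear_combination (C α * (X ^ 2 - 1) ^ 2) * this
    · change C (a⁻¹ ^ 3) * K.B.comp (TT a (-s1 / 2)) = _
      rw [hB, mul_comp, hσT, hBe]
      simp only [TT, add_comp, mul_comp, C_comp, X_comp]
      rw [show (S + Df) / 2 - (S - Df) / 2 = Df by ring, show (S - Df) / 2 + (S + Df) / 2 = S by ring]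
      have e1 : (C (a⁻¹ ^ 3) * C (a ^ 2) * C β * C a : ℝ[X]) = C α * (C S + C 2) := by
        rw [← C_mul, ← C_mul, ← C_mul, ← C_add, ← C_mul]; congr 1
        rw [hS]; field_simp; ring
      have e2 : (C (a⁻¹ ^ 3) * C (a ^ 2) * (C β * C (-s1 / 2) + C β0) : ℝ[X]) = -(C α * C Df) := by
        rw [← C_mul, ← C_mul, ← C_add, ← C_mul, ← C_mul, ← C_neg]; congr 1
        rw [hDf]; field_simp
      linear_combination (X * (X ^ 2 - 1)) * e1 + (X ^ 2 - 1) * e2

end KD

theorem KD.good (K : KD)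
    (n0 : ∀ π : ℝ[X], Irreducible π → π ∣ K.A → π ∣ K.B → π ∣ K.Cp → π ∣ K.E → False) :
    Good K.u := by
  rcases K.classify n0 with ⟨h1, h2⟩ | ⟨α, c, B1, h1, h2, h3⟩ | ⟨α, σ, B1, h1, h2, h3, h4, h5⟩ |
    ⟨α, c, B1, h1, h2⟩
  · exact K.case_H h1 h2
  · exact K.case_L h1 h2 h3
  · exact K.case_J h1 h2 h3 h4 h5
  · exact (K.case_Bes h1 h2).elim

end Pool.Agent.W5h47.Krall
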