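import Pool.Agent.W5h47.Krall.Alg

set_option autoImplicit false
open Polynomial

namespace Pool.Agent.W5h47.Krall

lemma const_of_quot {A P q : ℝ[X]} (hA0 : A ≠ 0) (h : A = P * q) (hd : A.natDegree ≤ P.natDegree) :
    ∃ α : ℝ, A = C α * P ∧ α ≠ 0 := by
  have hP : P ≠ 0 := by rintro rfl; apply hA0; rw [h, zero_mul]
  have hq : q ≠ 0 := by rintro rfl; apply hA0; rw [h, mul_zero]
  have h1 : A.natDegree = P.natDegree + q.natDegree := by rw [h, natDegree_mul hP hq]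
  have h2 : q.natDegree = 0 := by omega
  have h3 := eq_C_of_natDegree_eq_zero h2
  refine ⟨q.coeff 0, by rw [h, mul_comm, ← h3], ?_⟩
  intro h4
  apply hq
  rw [h3, h4, C_0]

namespace KD

variable (K : KD)

theorem classify (n0 : ∀ π : ℝ[X], Irreducible π → π ∣ K.A → π ∣ K.B → π ∣ K.Cp → π ∣ K.E → False) :
    (K.A.natDegree = 0 ∧ K.B.natDegree = 1) ∨
    (∃ (α c : ℝ) (B1 : ℝ[X]), K.A = C α * (X - C c) ^ 2 ∧ K.B = (X - C c) * B1 ∧ B1.natDegree = 1) ∨
    (∃ (α : ℝ) (σ B1 : ℝ[X]), σ.Monic ∧ σ.natDegree = 2 ∧ Squarefree σ ∧ K.A = C α * σ ^ 2 ∧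
      K.B = σ * B1) ∨
    (∃ (α c : ℝ) (B1 : ℝ[X]), K.A = C α * (X - C c) ^ 4 ∧ K.B = (X - C c) ^ 2 * B1) := by
  classical
  by_cases hc : IsCoprime K.A K.B
  · left; exact K.coprime_case hc
  right
  have hA0 := K.hA0
  have hsq : ∀ π : ℝ[X], Irreducible π → π ∣ K.A → π ∣ K.B → π ^ 2 ∣ K.A := by
    intro π hπ h1 h2
    by_contra h3
    obtain ⟨h4, h5⟩ := K.simple_dvd hπ h1 h2 h3
    exact n0 π hπ h1 h2 h4 h5
  obtain ⟨π, hπ, hπA, hπB⟩ : ∃ π : ℝ[X], Irreducible π ∧ π ∣ K.A ∧ π ∣ K.B := by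
    by_contra hne
    push Not at hne
    exact hc (isCoprime_of_irreducible_dvd (fun h => hA0 h.1) hne)
  have hdeg : ∀ P : ℝ[X], P ∣ K.A → P.natDegree ≤ 4 := fun P hP =>
    (natDegree_le_of_dvd hP hA0).trans K.dA
  have hπ2 := hsq π hπ hπA hπB
  have hπd := hdeg _ hπ2
  rw [natDegree_pow] at hπd
  have hπpos := hπ.natDegree_pos
  by_cases hd2 : π.natDegree = 2
  · -- quadratic irreducible
    right; left
    obtain ⟨q, hq⟩ := hπ2
    obtain ⟨α, hα, -⟩ := const_of_quot hA0 hq (by rw [natDegree_pow, hd2]; exact K.dA)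
    obtain ⟨b, hb⟩ := hπB
    have hl : π.leadingCoeff ≠ 0 := leadingCoeff_ne_zero.2 hπ.ne_zero
    have hπC : π = C π.leadingCoeff * (π * C π.leadingCoeff⁻¹) := by
      have : C π.leadingCoeff * C π.leadingCoeff⁻¹ = (1 : ℝ[X]) := by
        rw [← C_mul, mul_inv_cancel₀ hl, C_1]
      linear_combination (-π) * this
    refine ⟨α * π.leadingCoeff ^ 2, π * C π.leadingCoeff⁻¹, C π.leadingCoeff * b,
      monic_mul_leadingCoeff_inv hπ.ne_zero, ?_, ?_, ?_, ?_⟩
    · rw [natDegree_mul_C (inv_ne_zero hl), hd2]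
    · apply Irreducible.squarefree
      exact (irreducible_mul_leadingCoeff_inv).2 hπ
    · rw [hα, C_mul, C_pow]
      calc C α * π ^ 2 = C α * (C π.leadingCoeff * (π * C π.leadingCoeff⁻¹)) ^ 2 := by rw [← hπC]
        _ = _ := by ring
    · rw [hb]
      calc π * b = (C π.leadingCoeff * (π * C π.leadingCoeff⁻¹)) * b := by rw [← hπC]
        _ = _ := by ring
  have hd1 : π.natDegree = 1 := by omega
  have hlin : ∀ π : ℝ[X], Irreducible π → π.natDegree = 1 → ∃ c : ℝ, Associated π (X - C c) := by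
    intro π hπ h1
    obtain ⟨c, hc⟩ := exists_root_of_degree_eq_one ((degree_eq_iff_natDegree_eq hπ.ne_zero).2 h1)
    exact ⟨c, ((irreducible_X_sub_C c).associated_of_dvd hπ (dvd_iff_isRoot.2 hc)).symm⟩
  obtain ⟨c, hc1⟩ := hlin π hπ hd1
  have hξA : (X - C c) ∣ K.A := hc1.symm.dvd.trans hπA
  have hξB : (X - C c) ∣ K.B := hc1.symm.dvd.trans hπB
  have hξirr : Irreducible (X - C c) := irreducible_X_sub_C c
  have hξ0 : (X - C c) ≠ 0 := hξirr.ne_zero
  have hξ2 := hsq _ hξirr hξA hξB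
  by_cases hex : ∃ π' : ℝ[X], Irreducible π' ∧ π' ∣ K.A ∧ π' ∣ K.B ∧ ¬ Associated π' (X - C c)
  · -- two distinct factors
    right; left
    obtain ⟨π', hπ', hπ'A, hπ'B, hna⟩ := hex
    have hπ'2 := hsq _ hπ' hπ'A hπ'B
    have hcop : IsCoprime (X - C c) π' := by
      rw [hξirr.coprime_iff_not_dvd]
      intro h
      exact hna (hξirr.associated_of_dvd hπ' h).symm
    have hprod : (X - C c) ^ 2 * π' ^ 2 ∣ K.A := (hcop.pow).mul_dvd hξ2 hπ'2
    have hpd := hdeg _ hprod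
    rw [natDegree_mul (pow_ne_zero _ hξ0) (pow_ne_zero _ hπ'.ne_zero), natDegree_pow,
      natDegree_pow, natDegree_X_sub_C] at hpd
    have hπ'd := hπ'.natDegree_pos
    obtain ⟨c', hc'⟩ := hlin π' hπ' (by omega)
    have hcop2 : IsCoprime (X - C c) (X - C c') := by
      rw [hξirr.coprime_iff_not_dvd]
      intro h
      exact hna (hc'.trans (hξirr.associated_of_dvd (irreducible_X_sub_C c') h).symm)
    have hξ'A : (X - C c') ^ 2 ∣ K.A := (pow_dvd_pow_of_dvd hc'.symm.dvd 2).trans hπ'2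
    have hξ'B : (X - C c') ∣ K.B := hc'.symm.dvd.trans hπ'B
    have hξ'0 : (X - C c') ≠ 0 := X_sub_C_ne_zero c'
    have hprod2 : ((X - C c) * (X - C c')) ^ 2 ∣ K.A := by
      rw [mul_pow]; exact (hcop2.pow).mul_dvd hξ2 hξ'A
    have hprodB : (X - C c) * (X - C c') ∣ K.B := hcop2.mul_dvd hξB hξ'B
    have hnd : ((X - C c) * (X - C c')).natDegree = 2 := by
      rw [natDegree_mul hξ0 hξ'0, natDegree_X_sub_C, natDegree_X_sub_C]
    obtain ⟨q, hq⟩ := hprod2
    obtain ⟨α, hα, -⟩ := const_of_quot hA0 hq (by rw [natDegree_pow, hnd]; exact K.dA)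
    obtain ⟨b, hb⟩ := hprodB
    refine ⟨α, (X - C c) * (X - C c'), b, (monic_X_sub_C c).mul (monic_X_sub_C c'), hnd, ?_, hα, hb⟩
    exact (squarefree_mul_iff.2 ⟨hcop2.isRelPrime, hξirr.squarefree,
      (irreducible_X_sub_C c').squarefree⟩)
  push Not at hex
  -- single factor
  obtain ⟨j, r, t, hj, hrt⟩ : ∃ (j : ℕ) (r t : ℝ[X]), 1 ≤ j ∧ (X - C c) ^ j = r * K.A + t * K.B := by
    set g := EuclideanDomain.gcd K.A K.B with hg
    have hg0 : g ≠ 0 := by
      intro h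
      exact hA0 ((EuclideanDomain.gcd_eq_zero_iff.1 h).1)
    have hgA : g ∣ K.A := EuclideanDomain.gcd_dvd_left _ _
    have hgB : g ∣ K.B := EuclideanDomain.gcd_dvd_right _ _
    obtain ⟨h, hh1, hh2⟩ := exists_eq_pow_rootMultiplicity_mul_and_not_dvd g hg0 c
    have hu : IsUnit h := by
      by_contra hu
      have hh0 : h ≠ 0 := by rintro rfl; exact hh2 (dvd_zero _)
      obtain ⟨i, hi1, hi2⟩ := WfDvdMonoid.exists_irreducible_factor hu hh0
      have hig : i ∣ g := hi2.trans (by rw [hh1]; exact dvd_mul_left _ _)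
      exact hh2 ((hex i hi1 (hig.trans hgA) (hig.trans hgB)).symm.dvd.trans hi2)
    obtain ⟨h', hh'⟩ := hu.exists_right_inv
    have hbez := EuclideanDomain.gcd_eq_gcd_ab K.A K.B
    rw [← hg] at hbez
    refine ⟨g.rootMultiplicity c, h' * EuclideanDomain.gcdA K.A K.B,
      h' * EuclideanDomain.gcdB K.A K.B, ?_, ?_⟩
    · by_contra hlt
      have h0 : g.rootMultiplicity c = 0 := by omega
      rw [h0, pow_zero, one_mul] at hh1
      apply hh2
      rw [← hh1]
      exact EuclideanDomain.dvd_gcd hξA hξB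
    · calc (X - C c) ^ g.rootMultiplicity c = (X - C c) ^ g.rootMultiplicity c * (h * h') := by
            rw [hh', mul_one]
        _ = g * h' := by rw [← mul_assoc, ← hh1]
        _ = _ := by rw [hbez]; ring
  obtain ⟨At, hAt1, hAt2⟩ := exists_eq_pow_rootMultiplicity_mul_and_not_dvd K.A hA0 c
  set a := K.A.rootMultiplicity c with ha
  have ha2 : 2 ≤ a := (le_rootMultiplicity_iff hA0).2 hξ2
  have hAt0 : At ≠ 0 := by rintro rfl; exact hAt2 (dvd_zero _)
  have hAdeg : K.A.natDegree = a + At.natDegree := by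
    rw [hAt1, natDegree_mul (pow_ne_zero _ hξ0) hAt0, natDegree_pow, natDegree_X_sub_C]; ring
  have hdA := K.dA
  by_cases hle : K.A.natDegree ≤ K.B.natDegree
  · left
    obtain ⟨h1, h2⟩ := K.deg_ge hle (by omega)
    obtain ⟨b, hb⟩ := hξB
    obtain ⟨α, hα, -⟩ := const_of_quot (P := (X - C c) ^ 2) (q := At) hA0
      (by rw [hAt1]; congr 2; omega) (by rw [natDegree_pow, natDegree_X_sub_C]; omega)
    refine ⟨α, c, b, hα, hb, ?_⟩
    have hb0 : b ≠ 0 := by rintro rfl; rw [hb] at h2; simp at h2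
    rw [hb, natDegree_mul hξ0 hb0, natDegree_X_sub_C] at h2
    omega
  push Not at hle
  by_cases ha4 : a = 4
  · right; right
    obtain ⟨α, hα, -⟩ := const_of_quot (P := (X - C c) ^ 4) (q := At) hA0
      (by rw [hAt1, ha4]) (by rw [natDegree_pow, natDegree_X_sub_C]; omega)
    have h3 : (X - C c) ^ 3 ∣ K.A := by
      rw [hα]; exact Dvd.intro (C α * (X - C c)) (by ring)
    obtain ⟨b, hb⟩ := K.cube_dvd hξirr h3
    exact ⟨α, c, b, hα, hb⟩
  exfalso
  by_cases ha3 : a = 3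
  · obtain ⟨b, hb⟩ := K.cube_dvd hξirr (by rw [hAt1, ha3]; exact dvd_mul_right _ _)
    exact K.single_case hj hrt ha2 hAt1 hAt2 (b := b) (by rw [ha3]; exact hb) hle
  · obtain ⟨b, hb⟩ := hξB
    exact K.single_case hj hrt ha2 hAt1 hAt2 (b := b)
      (by rw [show a = 2 by omega]; simpa using hb) hle

end KD

end Pool.Agent.W5h47.Krall
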