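import Pool.Agent.W5h47.Krall.Abs

set_option autoImplicit false
open Polynomial

namespace Pool.Agent.W5h47.Krall

/-- Linear functionals on real polynomials. -/
def Fn : Type := ℝ[X] →ₗ[ℝ] ℝ

namespace Fn

noncomputable instance : AddCommGroup Fn := inferInstanceAs (AddCommGroup (ℝ[X] →ₗ[ℝ] ℝ))

/-- evaluation -/
noncomputable def ev (z : Fn) (g : ℝ[X]) : ℝ := (show ℝ[X] →ₗ[ℝ] ℝ from z) g

lemma ext {z w : Fn} (h : ∀ g, z.ev g = w.ev g) : z = w :=
  LinearMap.ext (f := z) (g := w) h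

@[simp] lemma ev_add (z w : Fn) (g : ℝ[X]) : (z + w).ev g = z.ev g + w.ev g := rfl
@[simp] lemma ev_neg (z : Fn) (g : ℝ[X]) : (-z).ev g = -z.ev g := rfl
@[simp] lemma ev_sub (z w : Fn) (g : ℝ[X]) : (z - w).ev g = z.ev g - w.ev g := rfl
@[simp] lemma ev_zero (g : ℝ[X]) : (0 : Fn).ev g = 0 := rfl
lemma ev_map_add (z : Fn) (g h : ℝ[X]) : z.ev (g + h) = z.ev g + z.ev h :=
  LinearMap.map_add (show ℝ[X] →ₗ[ℝ] ℝ from z) g h
lemma ev_map_neg (z : Fn) (g : ℝ[X]) : z.ev (-g) = -z.ev g :=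
  LinearMap.map_neg (show ℝ[X] →ₗ[ℝ] ℝ from z) g
lemma ev_map_sub (z : Fn) (g h : ℝ[X]) : z.ev (g - h) = z.ev g - z.ev h :=
  LinearMap.map_sub (show ℝ[X] →ₗ[ℝ] ℝ from z) g h
@[simp] lemma ev_map_zero (z : Fn) : z.ev 0 = 0 :=
  LinearMap.map_zero (show ℝ[X] →ₗ[ℝ] ℝ from z)
lemma ev_map_C_mul (z : Fn) (c : ℝ) (g : ℝ[X]) : z.ev (C c * g) = c * z.ev g := by
  have := LinearMap.map_smul (show ℝ[X] →ₗ[ℝ] ℝ from z) c g
  rw [smul_eq_C_mul] at this
  exact this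

noncomputable instance : SMul ℝ[X] Fn :=
  ⟨fun P z => (show ℝ[X] →ₗ[ℝ] ℝ from z).comp (LinearMap.mulLeft ℝ P)⟩

@[simp] lemma ev_smul (P : ℝ[X]) (z : Fn) (g : ℝ[X]) : (P • z).ev g = z.ev (P * g) := rfl

noncomputable instance : Module ℝ[X] Fn where
  one_smul z := ext fun g => by simp
  mul_smul P Q z := ext fun g => by
    simp only [ev_smul]; rw [mul_comm P Q, mul_assoc]
  smul_zero P := ext fun g => by simp
  smul_add P z w := ext fun g => by simp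
  add_smul P Q z := ext fun g => by simp only [ev_smul, ev_add]; rw [add_mul, ev_map_add]
  zero_smul z := ext fun g => by simp

/-- The derivation. -/
noncomputable def D : Fn →+ Fn where
  toFun z := (show Fn from -((show ℝ[X] →ₗ[ℝ] ℝ from z).comp (derivative : ℝ[X] →ₗ[ℝ] ℝ[X])))
  map_zero' := ext fun g => by
    change -((0 : ℝ[X] →ₗ[ℝ] ℝ) (derivative g)) = 0
    simp
  map_add' z w := ext fun g => by
    change -(z.ev (derivative g) + w.ev (derivative g)) = -z.ev (derivative g) + -w.ev (derivative g)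
    ring

@[simp] lemma ev_D (z : Fn) (g : ℝ[X]) : (D z).ev g = -z.ev (derivative g) := rfl

lemma D_smul (P : ℝ[X]) (z : Fn) : D (P • z) = derivative P • z + P • D z := by
  apply ext
  intro g
  simp only [ev_D, ev_smul, ev_add, derivative_mul]
  rw [ev_map_add]; ring

end Fn

/-- The concrete data. -/
structure KD where
  u : Fn
  A : ℝ[X]
  B : ℝ[X]
  Cp : ℝ[X]
  E : ℝ[X]
  pd : ∀ g : ℝ[X], g ≠ 0 → 0 < u.ev (g * g)
  hA0 : A ≠ 0
  dA : A.natDegree ≤ 4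
  dB : B.natDegree ≤ 3
  dC : Cp.natDegree ≤ 2
  dE : E.natDegree ≤ 1
  h1 : ∀ g : ℝ[X], u.ev (A * derivative g + B * g) = 0
  h2 : ∀ g : ℝ[X], u.ev (B * derivative (derivative g) + Cp * derivative g + E * g) = 0
  wpos : ∀ g : ℝ[X], 0 ≤ u.ev (A * (g * g))
  epos : 0 ≤ E.coeff 1

namespace KD

variable (K : KD)

lemma nd (P : ℝ[X]) (h : P • K.u = 0) : P = 0 := by
  by_contra hP
  have := K.pd P hP
  have h2 : (P • K.u).ev P = 0 := by rw [h]; simp
  simp at h2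
  linarith

/-- the second functional -/
noncomputable def v : Fn := Fn.D (K.B • K.u) - K.Cp • K.u

/-- The abstract data on functionals. -/
noncomputable def abs : Abs Fn where
  D := Fn.D
  hD := Fn.D_smul
  u := K.u
  v := K.v
  A := K.A
  B := K.B
  Cp := K.Cp
  E := K.E
  hA := Fn.ext fun g => by
    have := K.h1 g
    rw [Fn.ev_map_add] at this
    simp only [Fn.ev_D, Fn.ev_smul]
    linarith
  hB := by rw [v]; abel
  hv := Fn.ext fun g => by
    have := K.h2 g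
    rw [Fn.ev_map_add, Fn.ev_map_add] at this
    simp only [v, Fn.ev_D, Fn.ev_smul, Fn.ev_sub, Fn.ev_neg]
    linarith
  hA0 := K.hA0
  nd := K.nd

/-- The submodule of `Γ`-power torsion functionals. -/
noncomputable def tor (Γ : ℝ[X]) : Submodule ℝ[X] Fn where
  carrier := {z | ∃ k : ℕ, Γ ^ k • z = 0}
  zero_mem' := ⟨0, by simp⟩
  add_mem' := by
    rintro a b ⟨k, hk⟩ ⟨l, hl⟩
    refine ⟨k + l, ?_⟩
    have : Γ ^ (k + l) • (a + b) = Γ ^ l • (Γ ^ k • a) + Γ ^ k • (Γ ^ l • b) := by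
      rw [pow_add]; module
    rw [this, hk, hl]; simp
  smul_mem' := by
    rintro P a ⟨k, hk⟩
    refine ⟨k, ?_⟩
    have : Γ ^ k • P • a = P • (Γ ^ k • a) := by module
    rw [this, hk]; simp

lemma tor_D {Γ : ℝ[X]} {z : Fn} (hz : z ∈ tor Γ) : Fn.D z ∈ tor Γ := by
  obtain ⟨k, hk⟩ := hz
  refine ⟨2 * k, ?_⟩
  have h1 : derivative (Γ ^ k) • z + Γ ^ k • Fn.D z = 0 := by
    rw [← Fn.D_smul, hk, map_zero]
  have h2 : Γ ^ (2 * k) • Fn.D z = Γ ^ k • (derivative (Γ ^ k) • z + Γ ^ k • Fn.D z)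
      - derivative (Γ ^ k) • (Γ ^ k • z) := by
    have : Γ ^ (2 * k) = Γ ^ k * Γ ^ k := by ring
    rw [this]; module
  rw [h2, h1, hk]; simp

/-- the derivation on the quotient -/
noncomputable def Dq (Γ : ℝ[X]) : (Fn ⧸ tor Γ) →+ (Fn ⧸ tor Γ) :=
  QuotientAddGroup.map (tor Γ).toAddSubgroup (tor Γ).toAddSubgroup Fn.D (fun _ hz => tor_D hz)

lemma Dq_mk (Γ : ℝ[X]) (z : Fn) :
    Dq Γ (Submodule.Quotient.mk z) = Submodule.Quotient.mk (Fn.D z) := rfl

lemma Dq_smul (Γ : ℝ[X]) (P : ℝ[X]) (z : Fn ⧸ tor Γ) :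
    Dq Γ (P • z) = derivative P • z + P • Dq Γ z := by
  obtain ⟨z, rfl⟩ := Submodule.Quotient.mk_surjective _ z
  rw [← Submodule.Quotient.mk_smul, Dq_mk, Dq_mk, Fn.D_smul]
  rfl

/-- The abstract data on the quotient. -/
noncomputable def absq (Γ : ℝ[X]) (hΓ : Γ ≠ 0) : Abs (Fn ⧸ tor Γ) where
  D := Dq Γ
  hD := Dq_smul Γ
  u := Submodule.Quotient.mk K.u
  v := Submodule.Quotient.mk K.v
  A := K.A
  B := K.B
  Cp := K.Cp
  E := K.E
  hA := by
    rw [← Submodule.Quotient.mk_smul, Dq_mk]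
    have := K.abs.hA
    change Fn.D (K.A • K.u) = K.B • K.u at this
    rw [this]; rfl
  hB := by
    rw [← Submodule.Quotient.mk_smul, Dq_mk]
    have := K.abs.hB
    change Fn.D (K.B • K.u) = K.Cp • K.u + K.v at this
    rw [this]; rfl
  hv := by
    rw [Dq_mk]
    have := K.abs.hv
    change Fn.D K.v = -(K.E • K.u) at this
    rw [this]; rfl
  hA0 := K.hA0
  nd := by
    intro P hP
    rw [← Submodule.Quotient.mk_smul, Submodule.Quotient.mk_eq_zero] at hP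
    obtain ⟨k, hk⟩ := hP
    rw [smul_smul] at hk
    have := K.nd _ hk
    exact (mul_eq_zero.1 this).resolve_left (pow_ne_zero _ hΓ)

lemma injq (Γ : ℝ[X]) (z : Fn ⧸ tor Γ) (h : Γ • z = 0) : z = 0 := by
  obtain ⟨z, rfl⟩ := Submodule.Quotient.mk_surjective _ z
  rw [← Submodule.Quotient.mk_smul, Submodule.Quotient.mk_eq_zero] at h
  rw [Submodule.Quotient.mk_eq_zero]
  obtain ⟨k, hk⟩ := h
  refine ⟨k + 1, ?_⟩
  rw [pow_succ, ← smul_smul]; exact hk

end KD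

end Pool.Agent.W5h47.Krall
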