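import Pool.Agent.W5h47.Krall.Rel

set_option autoImplicit false
open Polynomial MeasureTheory Set

namespace Pool.Agent.W5h47.Krall

lemma integrable_poly {μ : Measure ℝ} (h : ∀ k : ℕ, Integrable (fun x : ℝ => x ^ k) μ)
    (g : ℝ[X]) : Integrable (fun x => g.eval x) μ := by
  induction g using Polynomial.induction_on' with
  | add p q hp hq =>
    simp only [eval_add]
    exact hp.add hq
  | monomial n a => simpa only [eval_monomial] using (h n).const_mul a

/-- the moment functional of a measure -/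
noncomputable def measFn (μ : Measure ℝ) (h : ∀ k : ℕ, Integrable (fun x : ℝ => x ^ k) μ) : Fn :=
  show Fn from
  ({ toFun := fun g => ∫ x, g.eval x ∂μ
     map_add' := fun f g => by
       simp only [eval_add]
       exact integral_add (integrable_poly h f) (integrable_poly h g)
     map_smul' := fun c g => by
       simp only [eval_smul, smul_eq_mul, RingHom.id_apply]
       exact integral_const_mul _ _ } : ℝ[X] →ₗ[ℝ] ℝ)

lemma measFn_ev (μ : Measure ℝ) (h : ∀ k : ℕ, Integrable (fun x : ℝ => x ^ k) μ) (g : ℝ[X]) :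
    (measFn μ h).ev g = ∫ x, g.eval x ∂μ := rfl

lemma wd {f : ℝ → ℝ} (hf : Measurable f) (h0 : ∀ x, 0 ≤ f x) (g : ℝ → ℝ) :
    ∫ x, g x ∂(volume.withDensity (fun x => ENNReal.ofReal (f x))) = ∫ x, f x * g x := by
  rw [integral_withDensity_eq_integral_toReal_smul hf.ennreal_ofReal
    (Filter.Eventually.of_forall fun x => ENNReal.ofReal_lt_top)]
  congr 1
  ext x
  rw [ENNReal.toReal_ofReal (h0 x), smul_eq_mul]

lemma wdi {f : ℝ → ℝ} (hf : Measurable f) (h0 : ∀ x, 0 ≤ f x) (g : ℝ → ℝ) :
    Integrable g (volume.withDensity (fun x => ENNReal.ofReal (f x))) ↔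
      Integrable (fun x => f x * g x) := by
  rw [integrable_withDensity_iff_integrable_smul' hf.ennreal_ofReal
    (Filter.Eventually.of_forall fun x => ENNReal.ofReal_lt_top)]
  have : (fun x => (ENNReal.ofReal (f x)).toReal • g x) = fun x => f x * g x := by
    ext x
    rw [ENNReal.toReal_ofReal (h0 x), smul_eq_mul]
  rw [this]

lemma wds {f : ℝ → ℝ} {s : Set ℝ} (hs : MeasurableSet s) (hf : Measurable f)
    (h0 : ∀ x ∈ s, 0 ≤ f x) (g : ℝ → ℝ) :
    ∫ x, g x ∂(volume.withDensity (fun x => ENNReal.ofReal (s.indicator f x)))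
      = ∫ x in s, f x * g x := by
  rw [wd (hf.indicator hs) (fun x => indicator_nonneg h0 x), ← integral_indicator hs]
  congr 1
  ext x
  by_cases hx : x ∈ s
  · simp [hx]
  · simp [hx]

lemma wdsi {f : ℝ → ℝ} {s : Set ℝ} (hs : MeasurableSet s) (hf : Measurable f)
    (h0 : ∀ x ∈ s, 0 ≤ f x) (g : ℝ → ℝ) :
    Integrable g (volume.withDensity (fun x => ENNReal.ofReal (s.indicator f x)))
      ↔ IntegrableOn (fun x => f x * g x) s := by
  rw [wdi (hf.indicator hs) (fun x => indicator_nonneg h0 x), ← integrable_indicator_iff hs]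
  have : (fun x => s.indicator f x * g x) = s.indicator (fun x => f x * g x) := by
    ext x
    by_cases hx : x ∈ s
    · simp [hx]
    · simp [hx]
  rw [this]

/-! ### Hermite -/

lemma hermite_integrable (k : ℕ) : Integrable (fun x : ℝ => Real.exp (-(x ^ 2)) * x ^ k) := by
  have h := integrable_rpow_mul_exp_neg_mul_sq (b := 1) one_pos (s := (k : ℝ))
    (by have : (0 : ℝ) ≤ k := Nat.cast_nonneg k
        linarith)
  refine h.congr (Filter.Eventually.of_forall fun x => ?_)
  simp only [Real.rpow_natCast, neg_mul, one_mul]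
  ring

lemma meas_H : ∃ (W : Fn) (μ : Measure ℝ), ListMeas μ ∧ HRel W ∧ 0 < W.ev 1 ∧
    ∀ g : ℝ[X], W.ev g = ∫ x, (g.comp (C 1 * X + C 0)).eval x ∂μ := by
  set μ : Measure ℝ := volume.withDensity (fun x : ℝ => ENNReal.ofReal (Real.exp (-(x ^ 2)))) with hμ
  have hm : Measurable (fun x : ℝ => Real.exp (-(x ^ 2))) := by fun_prop
  have h0 : ∀ x : ℝ, 0 ≤ Real.exp (-(x ^ 2)) := fun x => (Real.exp_pos _).le
  have hint : ∀ k : ℕ, Integrable (fun x : ℝ => x ^ k) μ := fun k =>
    (wdi hm h0 _).2 (hermite_integrable k)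
  have hpint : ∀ g : ℝ[X], Integrable (fun x => Real.exp (-(x ^ 2)) * g.eval x) := fun g =>
    (wdi hm h0 _).1 (integrable_poly hint g)
  have hev : ∀ g : ℝ[X], (measFn μ hint).ev g = ∫ x, Real.exp (-(x ^ 2)) * g.eval x := by
    intro g
    rw [measFn_ev, hμ, wd hm h0]
  refine ⟨measFn μ hint, μ, Or.inr (Or.inr (Or.inl rfl)), ?_, ?_, ?_⟩
  · intro g
    rw [hev]
    apply integral_eq_zero_of_hasDerivAt_of_integrable (f := fun x => Real.exp (-(x ^ 2)) * g.eval x)
    · intro x
      have h1 : HasDerivAt (fun x : ℝ => -(x ^ 2)) (-(2 * x)) x := by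
        have := (hasDerivAt_pow 2 x).fun_neg
        simpa using this
      have h2 := h1.exp.mul (g.hasDerivAt x)
      refine h2.congr_deriv ?_
      simp only [eval_sub, eval_mul, eval_C, eval_X]
      ring
    · exact hpint _
    · exact hpint _
  · rw [hev]
    simp only [eval_one, mul_one]
    have h2 : Integrable (fun x : ℝ => Real.exp (-(x ^ 2))) := by
      have := hermite_integrable 0
      simpa using this
    rw [integral_pos_iff_support_of_nonneg h0 h2]
    have : Function.support (fun x : ℝ => Real.exp (-(x ^ 2))) = univ := by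
      ext x; simp [Real.exp_ne_zero]
    rw [this]; simp
  · intro g
    rw [measFn_ev]; simp

/-! ### Laguerre -/

lemma lag_integrable {τ : ℝ} (hτ : 0 < τ) (k : ℕ) :
    IntegrableOn (fun x : ℝ => (x ^ (τ - 1) * Real.exp (-x)) * x ^ k) (Ioi 0) := by
  have h := Real.GammaIntegral_convergent (s := τ + k) (by positivity)
  refine h.congr_fun (fun x hx => ?_) measurableSet_Ioi
  have hx' : 0 < x := hx
  simp only
  rw [show τ + k - 1 = (τ - 1) + k by ring, Real.rpow_add hx', Real.rpow_natCast]
  ring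

lemma lag_moment {τ : ℝ} (hτ : 0 < τ) (k : ℕ) :
    ∫ x in Ioi (0:ℝ), (x ^ (τ - 1) * Real.exp (-x)) * x ^ k = Real.Gamma (τ + k) := by
  rw [Real.Gamma_eq_integral (by positivity)]
  apply setIntegral_congr_fun measurableSet_Ioi
  intro x hx
  have hx' : 0 < x := hx
  simp only
  rw [show τ + k - 1 = (τ - 1) + k by ring, Real.rpow_add hx', Real.rpow_natCast]
  ring

lemma LRel.of_mono {z : Fn} {τ : ℝ}
    (h : ∀ n : ℕ, ((n : ℝ) + τ) * z.ev (X ^ n) - z.ev (X ^ (n + 1)) = 0) : LRel z τ 0 := by
  intro g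
  rw [neg_zero, zero_mul]
  induction g using Polynomial.induction_on' with
  | add p q hp hq =>
    have e : X * derivative (p + q) + (C τ - X) * (p + q)
        = (X * derivative p + (C τ - X) * p) + (X * derivative q + (C τ - X) * q) := by
      rw [derivative_add]; ring
    rw [e, Fn.ev_map_add, hp, hq, add_zero]
  | monomial n a =>
    rw [← C_mul_X_pow_eq_monomial, derivative_C_mul, derivative_X_pow]
    have e : X * (C a * (C (n : ℝ) * X ^ (n - 1))) + (C τ - X) * (C a * X ^ n)
        = C a * (C ((n : ℝ) + τ) * X ^ n - X ^ (n + 1)) := by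
      rcases n with _ | n
      · simp; ring
      · simp only [Nat.add_sub_cancel, C_add]; ring
    rw [e, Fn.ev_map_C_mul, Fn.ev_map_sub, Fn.ev_map_C_mul, h, mul_zero]

lemma meas_L {τ : ℝ} (hτ : 0 < τ) : ∃ (W : Fn) (μ : Measure ℝ), ListMeas μ ∧ LRel W τ 0 ∧
    0 < W.ev 1 ∧ ∀ g : ℝ[X], W.ev g = ∫ x, (g.comp (C 1 * X + C 0)).eval x ∂μ := by
  set μ : Measure ℝ := MeasureTheory.volume.withDensity (fun x : ℝ => ENNReal.ofReal
            ((Set.Ioi (0 : ℝ)).indicator (fun y : ℝ => y ^ (τ - 1) * Real.exp (-y)) x)) with hμ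
  have hm : Measurable (fun y : ℝ => y ^ (τ - 1) * Real.exp (-y)) := by fun_prop
  have h0 : ∀ x ∈ Ioi (0:ℝ), 0 ≤ x ^ (τ - 1) * Real.exp (-x) := fun x hx =>
    mul_nonneg (Real.rpow_nonneg (le_of_lt hx) _) (Real.exp_pos _).le
  have hint : ∀ k : ℕ, Integrable (fun x : ℝ => x ^ k) μ := fun k =>
    (wdsi measurableSet_Ioi hm h0 _).2 (lag_integrable hτ k)
  have hev : ∀ k : ℕ, (measFn μ hint).ev (X ^ k) = Real.Gamma (τ + k) := by
    intro k
    rw [measFn_ev, hμ, wds measurableSet_Ioi hm h0, ← lag_moment hτ]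
    simp
  refine ⟨measFn μ hint, μ, Or.inr (Or.inl ⟨τ - 1, by linarith, rfl⟩), ?_, ?_, ?_⟩
  · apply LRel.of_mono
    intro n
    rw [hev, hev]
    have : Real.Gamma (τ + (n + 1 : ℕ)) = (τ + n) * Real.Gamma (τ + n) := by
      rw [← Real.Gamma_add_one (by positivity)]
      push_cast; ring_nf
    rw [this]; ring
  · have := hev 0
    rw [pow_zero] at this
    rw [this]
    exact Real.Gamma_pos_of_pos (by simpa using hτ)
  · intro g
    rw [measFn_ev]; simp

lemma integrable_dirac_pow (c : ℝ) (k : ℕ) :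
    Integrable (fun x : ℝ => x ^ k) (Measure.dirac c) := by
  apply integrable_dirac
  simp

lemma meas_L' {R : ℝ} (hR : 0 < R) : ∃ (W : Fn) (μ : Measure ℝ), ListMeas μ ∧
    LRel W 1 (-(1 / R)) ∧ W.ev 1 = 1 + 1 / R ∧
    ∀ g : ℝ[X], W.ev g = ∫ x, (g.comp (C 1 * X + C 0)).eval x ∂μ := by
  set μ0 : Measure ℝ := MeasureTheory.volume.withDensity (fun x : ℝ => ENNReal.ofReal
            ((Set.Ioi (0 : ℝ)).indicator (fun y : ℝ => Real.exp (-y)) x)) with hμ0
  set μ : Measure ℝ := μ0 + ENNReal.ofReal (1 / R) • MeasureTheory.Measure.dirac (0 : ℝ) with hμ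
  have hm : Measurable (fun y : ℝ => Real.exp (-y)) := by fun_prop
  have h0 : ∀ x ∈ Ioi (0:ℝ), 0 ≤ Real.exp (-x) := fun x hx => (Real.exp_pos _).le
  have hfe : (fun y : ℝ => y ^ ((1:ℝ) - 1) * Real.exp (-y)) = fun y : ℝ => Real.exp (-y) := by
    ext y; simp
  have hint0 : ∀ k : ℕ, Integrable (fun x : ℝ => x ^ k) μ0 := fun k => by
    refine (wdsi measurableSet_Ioi hm h0 _).2 ?_
    have := lag_integrable one_pos k
    simpa using this
  have hev0 : ∀ k : ℕ, (measFn μ0 hint0).ev (X ^ k) = Real.Gamma (1 + k) := by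
    intro k
    rw [measFn_ev, hμ0, wds measurableSet_Ioi hm h0, ← lag_moment one_pos]
    simp
  have hL0 : LRel (measFn μ0 hint0) 1 0 := by
    apply LRel.of_mono
    intro n
    rw [hev0, hev0]
    have : Real.Gamma (1 + (n + 1 : ℕ)) = (1 + n) * Real.Gamma (1 + n) := by
      rw [← Real.Gamma_add_one (by positivity)]
      push_cast; ring_nf
    rw [this]; ring
  have hint : ∀ k : ℕ, Integrable (fun x : ℝ => x ^ k) μ := fun k => by
    refine (hint0 k).add_measure ?_
    exact (integrable_dirac_pow 0 k).smul_measure ENNReal.ofReal_ne_top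
  have hev : ∀ g : ℝ[X], (measFn μ hint).ev g = (measFn μ0 hint0).ev g + 1 / R * g.eval 0 := by
    intro g
    rw [measFn_ev, hμ, integral_add_measure (integrable_poly hint0 g)
      (((integrable_poly (integrable_dirac_pow 0) g)).smul_measure ENNReal.ofReal_ne_top),
      integral_smul_measure, integral_dirac, ENNReal.toReal_ofReal (by positivity)]
    rfl
  refine ⟨measFn μ hint, μ, Or.inr (Or.inr (Or.inr (Or.inr (Or.inl ⟨R, hR, rfl⟩)))), ?_, ?_, ?_⟩
  · intro g
    rw [hev, hL0]
    simp
  · rw [hev]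
    have := hev0 0
    rw [pow_zero] at this
    rw [this]; simp
  · intro g
    rw [measFn_ev]; simp

/-! ### Jacobi -/

lemma rpow_one_sub_ii {a : ℝ} (ha : -1 < a) (b c : ℝ) :
    IntervalIntegrable (fun x : ℝ => (1 - x) ^ a) volume b c := by
  have h := intervalIntegral.intervalIntegrable_rpow' (a := 1 - b) (b := 1 - c) ha
  have h2 := h.comp_sub_left 1
  simpa using h2

lemma rpow_one_add_ii {a : ℝ} (ha : -1 < a) (b c : ℝ) :
    IntervalIntegrable (fun x : ℝ => (1 + x) ^ a) volume b c := by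
  have h := intervalIntegral.intervalIntegrable_rpow' (a := 1 + b) (b := 1 + c) ha
  have h2 := h.comp_add_left 1
  simpa using h2

lemma jac_ii {a b : ℝ} (ha : -1 < a) (hb : -1 < b) (g : ℝ[X]) :
    IntervalIntegrable (fun x : ℝ => ((1 - x) ^ a * (1 + x) ^ b) * g.eval x) volume (-1) 1 := by
  have hg : Continuous (fun x : ℝ => g.eval x) := g.continuous
  apply IntervalIntegrable.trans (b := 0)
  · have h := rpow_one_add_ii hb (-1) 0
    have hc : ContinuousOn (fun x : ℝ => (1 - x) ^ a * g.eval x) (uIcc (-1) 0) := by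
      apply ContinuousOn.mul _ hg.continuousOn
      apply ContinuousOn.rpow_const (by fun_prop)
      intro x hx
      rw [uIcc_of_le (by norm_num)] at hx
      left
      have := hx.2
      intro h; linarith
    have := h.mul_continuousOn hc
    refine this.congr (fun x _ => ?_)
    ring
  · have h := rpow_one_sub_ii ha 0 1
    have hc : ContinuousOn (fun x : ℝ => (1 + x) ^ b * g.eval x) (uIcc 0 1) := by
      apply ContinuousOn.mul _ hg.continuousOn
      apply ContinuousOn.rpow_const (by fun_prop)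
      intro x hx
      rw [uIcc_of_le (by norm_num)] at hx
      left
      have := hx.1
      intro h; linarith
    have := h.mul_continuousOn hc
    refine this.congr (fun x _ => ?_)
    ring

lemma meas_J {p r : ℝ} (hp : 0 < p) (hr : 0 < r) : ∃ (W : Fn) (μ : Measure ℝ), ListMeas μ ∧
    JRel W p r 0 0 ∧ 0 < W.ev 1 ∧
    ∀ g : ℝ[X], W.ev g = ∫ x, (g.comp (C 1 * X + C 0)).eval x ∂μ := by
  set μ : Measure ℝ := MeasureTheory.volume.withDensity (fun x : ℝ => ENNReal.ofReal
            ((Set.Icc (-1 : ℝ) 1).indicator (fun y : ℝ => (1 - y) ^ (p - 1) * (1 + y) ^ (r - 1)) x))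
    with hμ
  have hm : Measurable (fun y : ℝ => (1 - y) ^ (p - 1) * (1 + y) ^ (r - 1)) := by fun_prop
  have h0 : ∀ x ∈ Icc (-1:ℝ) 1, 0 ≤ (1 - x) ^ (p - 1) * (1 + x) ^ (r - 1) := fun x hx =>
    mul_nonneg (Real.rpow_nonneg (by linarith [hx.2]) _) (Real.rpow_nonneg (by linarith [hx.1]) _)
  have hii : ∀ g : ℝ[X], IntervalIntegrable
      (fun x : ℝ => ((1 - x) ^ (p - 1) * (1 + x) ^ (r - 1)) * g.eval x) volume (-1) 1 := fun g =>
    jac_ii (by linarith) (by linarith) g
  have hint : ∀ k : ℕ, Integrable (fun x : ℝ => x ^ k) μ := fun k => by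
    refine (wdsi measurableSet_Icc hm h0 _).2 ?_
    have := hii (X ^ k)
    rw [intervalIntegrable_iff_integrableOn_Icc_of_le (by norm_num)] at this
    simpa using this
  have hev : ∀ g : ℝ[X], (measFn μ hint).ev g
      = ∫ x in (-1:ℝ)..1, ((1 - x) ^ (p - 1) * (1 + x) ^ (r - 1)) * g.eval x := by
    intro g
    rw [measFn_ev, hμ, wds measurableSet_Icc hm h0, integral_Icc_eq_integral_Ioc,
      intervalIntegral.integral_of_le (by norm_num)]
  refine ⟨measFn μ hint, μ, Or.inl ⟨p - 1, r - 1, by linarith, by linarith, rfl⟩, ?_, ?_, ?_⟩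
  · intro g
    rw [hev]
    have hF := intervalIntegral.integral_eq_sub_of_hasDerivAt_of_le (a := (-1:ℝ)) (b := 1)
      (f := fun x => (1 - x) ^ p * (1 + x) ^ r * g.eval x)
      (f' := fun x => ((1 - x) ^ (p - 1) * (1 + x) ^ (r - 1)) *
        ((1 - X ^ 2) * derivative g + (C (r - p) - C (p + r) * X) * g).eval x)
      (by norm_num) ?_ ?_ (hii _)
    · rw [hF]
      simp [Real.zero_rpow hp.ne', Real.zero_rpow hr.ne']
    · apply ContinuousOn.mul _ g.continuous.continuousOn
      apply ContinuousOn.mul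
      · exact ContinuousOn.rpow_const (by fun_prop) (fun x _ => Or.inr hp.le)
      · exact ContinuousOn.rpow_const (by fun_prop) (fun x _ => Or.inr hr.le)
    · intro x hx
      have hx1 : 0 < 1 - x := by linarith [hx.2]
      have hx2 : 0 < 1 + x := by linarith [hx.1]
      have d1 : HasDerivAt (fun x : ℝ => (1 - x) ^ p) (-1 * p * (1 - x) ^ (p - 1)) x := by
        have : HasDerivAt (fun x : ℝ => 1 - x) (-1) x := by
          simpa using (hasDerivAt_id x).const_sub 1
        exact this.rpow_const (Or.inl hx1.ne')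
      have d2 : HasDerivAt (fun x : ℝ => (1 + x) ^ r) (1 * r * (1 + x) ^ (r - 1)) x := by
        have : HasDerivAt (fun x : ℝ => 1 + x) 1 x := by
          simpa using (hasDerivAt_id x).const_add 1
        exact this.rpow_const (Or.inl hx2.ne')
      have d3 := (d1.mul d2).mul (g.hasDerivAt x)
      refine d3.congr_deriv ?_
      have e1 : (1 - x) ^ p = (1 - x) ^ (p - 1) * (1 - x) := by
        rw [← Real.rpow_add_one hx1.ne']; ring_nf
      have e2 : (1 + x) ^ r = (1 + x) ^ (r - 1) * (1 + x) := by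
        rw [← Real.rpow_add_one hx2.ne']; ring_nf
      simp only [Pi.mul_apply, eval_add, eval_sub, eval_mul, eval_C, eval_X, eval_pow, eval_one]
      rw [e1, e2]
      ring
  · rw [hev]
    apply intervalIntegral.intervalIntegral_pos_of_pos_on (hii 1) _ (by norm_num)
    intro x hx
    have hx1 : 0 < 1 - x := by linarith [hx.2]
    have hx2 : 0 < 1 + x := by linarith [hx.1]
    simp only [eval_one, mul_one]
    positivity
  · intro g
    rw [measFn_ev]; simp

/-! ### Legendre type -/

lemma meas_J2 {A : ℝ} (hA : 0 < A) : ∃ (W : Fn) (μ : Measure ℝ), ListMeas μ ∧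
    JRel W 1 1 (2 / A) (-(2 / A)) ∧ W.ev 1 = 2 + 2 / A ∧
    ∀ g : ℝ[X], W.ev g = ∫ x, (g.comp (C 1 * X + C 0)).eval x ∂μ := by
  set μ : Measure ℝ := MeasureTheory.volume.restrict (Set.Icc (-1 : ℝ) 1)
            + ENNReal.ofReal (1 / A) • (MeasureTheory.Measure.dirac (-1 : ℝ)
                + MeasureTheory.Measure.dirac (1 : ℝ)) with hμ
  have hint0 : ∀ k : ℕ, Integrable (fun x : ℝ => x ^ k)
      (MeasureTheory.volume.restrict (Set.Icc (-1 : ℝ) 1)) := fun k =>
    (continuous_pow k).continuousOn.integrableOn_Icc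
  have hint1 : ∀ k : ℕ, Integrable (fun x : ℝ => x ^ k)
      (MeasureTheory.Measure.dirac (-1 : ℝ) + MeasureTheory.Measure.dirac (1 : ℝ)) := fun k =>
    (integrable_dirac_pow _ k).add_measure (integrable_dirac_pow _ k)
  have hint : ∀ k : ℕ, Integrable (fun x : ℝ => x ^ k) μ := fun k =>
    (hint0 k).add_measure ((hint1 k).smul_measure ENNReal.ofReal_ne_top)
  have hev : ∀ g : ℝ[X], (measFn μ hint).ev g
      = (∫ x in (-1:ℝ)..1, g.eval x) + 1 / A * (g.eval (-1) + g.eval 1) := by
    intro g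
    rw [measFn_ev, hμ, integral_add_measure (integrable_poly hint0 g)
      ((integrable_poly hint1 g).smul_measure ENNReal.ofReal_ne_top),
      integral_smul_measure, integral_add_measure (integrable_poly (integrable_dirac_pow _) g)
      (integrable_poly (integrable_dirac_pow _) g), integral_dirac, integral_dirac,
      ENNReal.toReal_ofReal (by positivity), integral_Icc_eq_integral_Ioc,
      intervalIntegral.integral_of_le (by norm_num)]
    rfl
  refine ⟨measFn μ hint, μ, Or.inr (Or.inr (Or.inr (Or.inl ⟨A, hA, rfl⟩))), ?_, ?_, ?_⟩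
  · intro g
    rw [hev]
    have hF := intervalIntegral.integral_eq_sub_of_hasDerivAt (a := (-1:ℝ)) (b := 1)
      (f := fun x => ((1 - X ^ 2) * g).eval x)
      (f' := fun x => ((1 - X ^ 2) * derivative g + (C (1 - 1) - C (1 + 1) * X) * g).eval x)
      (fun x _ => by
        refine (((1 - X ^ 2) * g).hasDerivAt x).congr_deriv ?_
        simp only [derivative_mul, derivative_sub, derivative_one, derivative_X_pow, eval_add,
          eval_sub, eval_mul, eval_C, eval_X, eval_pow, eval_one, eval_zero]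
        norm_num
        ring)
      (Polynomial.continuous _).continuousOn.intervalIntegrable
    rw [hF]
    simp only [eval_add, eval_sub, eval_mul, eval_C, eval_X, eval_pow, eval_one]
    ring
  · rw [hev]
    simp
    ring
  · intro g
    rw [measFn_ev]; simp

/-! ### Jacobi type -/

lemma meas_J1 {p M : ℝ} (hp : 0 < p) (hM : 0 < M) : ∃ (W : Fn) (μ : Measure ℝ), ListMeas μ ∧
    JRel W p 1 0 (-(2 / M)) ∧ W.ev 1 = 1 / p + 1 / M ∧
    ∀ g : ℝ[X], W.ev g = ∫ x, (g.comp (C 2 * X + C (-1))).eval x ∂μ := by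
  set μ0 : Measure ℝ := MeasureTheory.volume.withDensity (fun x : ℝ => ENNReal.ofReal
            ((Set.Ico (0 : ℝ) 1).indicator (fun y : ℝ => (1 - y) ^ (p - 1)) x)) with hμ0
  set μ : Measure ℝ := μ0 + ENNReal.ofReal (1 / M) • MeasureTheory.Measure.dirac (0 : ℝ) with hμ
  have hm : Measurable (fun y : ℝ => (1 - y) ^ (p - 1)) := by fun_prop
  have h0 : ∀ x ∈ Ico (0:ℝ) 1, 0 ≤ (1 - x) ^ (p - 1) := fun x hx =>
    (Real.rpow_nonneg (by linarith [hx.2]) _)
  have hii : ∀ g : ℝ[X], IntervalIntegrable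
      (fun x : ℝ => ((1 - x) ^ (p - 1)) * g.eval x) volume 0 1 := fun g =>
    (rpow_one_sub_ii (by linarith) 0 1).mul_continuousOn g.continuous.continuousOn
  have hint0 : ∀ k : ℕ, Integrable (fun x : ℝ => x ^ k) μ0 := fun k => by
    refine (wdsi measurableSet_Ico hm h0 _).2 ?_
    have := hii (X ^ k)
    rw [intervalIntegrable_iff_integrableOn_Ico_of_le (by norm_num)] at this
    simpa using this
  have hev0 : ∀ g : ℝ[X], (measFn μ0 hint0).ev g
      = ∫ x in (0:ℝ)..1, ((1 - x) ^ (p - 1)) * g.eval x := by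
    intro g
    rw [measFn_ev, hμ0, wds measurableSet_Ico hm h0, integral_Ico_eq_integral_Ioc,
      intervalIntegral.integral_of_le (by norm_num)]
  have hint : ∀ k : ℕ, Integrable (fun x : ℝ => x ^ k) μ := fun k =>
    (hint0 k).add_measure ((integrable_dirac_pow 0 k).smul_measure ENNReal.ofReal_ne_top)
  have hev : ∀ g : ℝ[X], (measFn μ hint).ev g = (∫ x in (0:ℝ)..1, ((1 - x) ^ (p - 1)) * g.eval x)
      + 1 / M * g.eval 0 := by
    intro g
    rw [← hev0, measFn_ev, hμ, integral_add_measure (integrable_poly hint0 g)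
      (((integrable_poly (integrable_dirac_pow 0) g)).smul_measure ENNReal.ofReal_ne_top),
      integral_smul_measure, integral_dirac, ENNReal.toReal_ofReal (by positivity)]
    rfl
  refine ⟨(measFn μ hint).pull (C 2 * X + C (-1)), μ,
    Or.inr (Or.inr (Or.inr (Or.inr (Or.inr ⟨p - 1, M, by linarith, hM, rfl⟩)))), ?_, ?_, ?_⟩
  · intro g
    rw [Fn.ev_pull, hev]
    have hF := intervalIntegral.integral_eq_sub_of_hasDerivAt_of_le (a := (0:ℝ)) (b := 1)
      (f := fun x => 2 * x * (1 - x) ^ p * g.eval (2 * x - 1))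
      (f' := fun x => ((1 - x) ^ (p - 1)) *
        (((1 - X ^ 2) * derivative g + (C (1 - p) - C (p + 1) * X) * g).comp
          (C 2 * X + C (-1))).eval x)
      (by norm_num) ?_ ?_ (hii _)
    · rw [hF]
      simp only [eval_add, eval_sub, eval_mul, eval_C, eval_X, eval_pow, eval_one, eval_comp,
        sub_self, Real.zero_rpow hp.ne']
      norm_num
      ring
    · apply ContinuousOn.mul
      · apply ContinuousOn.mul (by fun_prop)
        exact ContinuousOn.rpow_const (by fun_prop) (fun x _ => Or.inr hp.le)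
      · exact (g.continuous.comp (by fun_prop)).continuousOn
    · intro x hx
      have hx1 : 0 < 1 - x := by linarith [hx.2]
      have d1 : HasDerivAt (fun x : ℝ => (1 - x) ^ p) (-1 * p * (1 - x) ^ (p - 1)) x := by
        have : HasDerivAt (fun x : ℝ => 1 - x) (-1) x := by
          simpa using (hasDerivAt_id x).const_sub 1
        exact this.rpow_const (Or.inl hx1.ne')
      have d2 : HasDerivAt (fun x : ℝ => 2 * x) 2 x := by
        simpa using (hasDerivAt_id x).const_mul 2
      have d4 : HasDerivAt (fun x : ℝ => g.eval (2 * x - 1)) ((derivative g).eval (2 * x - 1) * 2) x := by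
        have : HasDerivAt (fun x : ℝ => 2 * x - 1) 2 x := d2.sub_const 1
        exact (g.hasDerivAt (2 * x - 1)).comp x this
      have d3 := (d2.mul d1).mul d4
      refine d3.congr_deriv ?_
      have e1 : (1 - x) ^ p = (1 - x) ^ (p - 1) * (1 - x) := by
        rw [← Real.rpow_add_one hx1.ne']; ring_nf
      simp only [Pi.mul_apply, eval_add, eval_sub, eval_mul, eval_C, eval_X, eval_pow, eval_one,
        eval_comp]
      rw [e1, show (2 * x + -1 : ℝ) = 2 * x - 1 by ring]
      ring
  · rw [Fn.ev_pull, hev]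
    simp only [one_comp, eval_one, mul_one]
    have hF := intervalIntegral.integral_eq_sub_of_hasDerivAt_of_le (a := (0:ℝ)) (b := 1)
      (f := fun x => -(1 / p) * (1 - x) ^ p)
      (f' := fun x => (1 - x) ^ (p - 1))
      (by norm_num) ?_ ?_ (by simpa using hii 1)
    · rw [hF]
      simp [Real.zero_rpow hp.ne']
    · apply ContinuousOn.mul (by fun_prop)
      exact ContinuousOn.rpow_const (by fun_prop) (fun x _ => Or.inr hp.le)
    · intro x hx
      have hx1 : 0 < 1 - x := by linarith [hx.2]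
      have d1 : HasDerivAt (fun x : ℝ => (1 - x) ^ p) (-1 * p * (1 - x) ^ (p - 1)) x := by
        have : HasDerivAt (fun x : ℝ => 1 - x) (-1) x := by
          simpa using (hasDerivAt_id x).const_sub 1
        exact this.rpow_const (Or.inl hx1.ne')
      refine (d1.const_mul (-(1 / p))).congr_deriv ?_
      field_simp
  · intro g
    rw [Fn.ev_pull, measFn_ev]

end Pool.Agent.W5h47.Krall
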