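import Pool.Agent.W5h47.Krall.Affine

set_option autoImplicit false
open Polynomial MeasureTheory

namespace Pool.Agent.W5h47.Krall

/-- Hermite relation -/
def HRel (z : Fn) : Prop := ∀ g : ℝ[X], z.ev (derivative g - C 2 * X * g) = 0
/-- Laguerre relation -/
def LRel (z : Fn) (τ κ : ℝ) : Prop :=
  ∀ g : ℝ[X], z.ev (X * derivative g + (C τ - X) * g) = -κ * g.eval 0
/-- Jacobi relation -/
def JRel (z : Fn) (p r κ₁ κ₂ : ℝ) : Prop :=
  ∀ g : ℝ[X], z.ev ((1 - X ^ 2) * derivative g + (C (r - p) - C (p + r) * X) * g)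
    = -κ₁ * g.eval 1 - κ₂ * g.eval (-1)

lemma Fn.eq_of_mono (z w : Fn) (h : ∀ n : ℕ, z.ev (X ^ n) = w.ev (X ^ n)) : z = w := by
  rw [← sub_eq_zero]
  apply Fn.zero_of_mono
  intro n
  rw [Fn.ev_sub, h, sub_self]

lemma HRel.unique {z w : Fn} (hz : HRel z) (hw : HRel w) (h : z.ev 1 = w.ev 1) : z = w := by
  have key : ∀ (z : Fn), HRel z → ∀ n : ℕ,
      (n : ℝ) * z.ev (X ^ (n - 1)) - 2 * z.ev (X ^ (n + 1)) = 0 := by
    intro z hz n
    have := hz (X ^ n)
    rw [derivative_X_pow] at this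
    have e : C (n : ℝ) * X ^ (n - 1) - C 2 * X * X ^ n
        = C (n : ℝ) * X ^ (n - 1) - C 2 * X ^ (n + 1) := by ring
    rw [e, Fn.ev_map_sub, Fn.ev_map_C_mul, Fn.ev_map_C_mul] at this
    exact this
  apply Fn.eq_of_mono
  intro n
  induction n using Nat.strong_induction_on with
  | _ n ih =>
    rcases n with _ | n
    · simpa using h
    · have h1 := key z hz n
      have h2 := key w hw n
      have h3 := ih (n - 1) (by omega)
      rw [h3] at h1
      linarith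

lemma LRel.unique {z w : Fn} {τ κ : ℝ} (hz : LRel z τ κ) (hw : LRel w τ κ) (h : z.ev 1 = w.ev 1) :
    z = w := by
  have key : ∀ (z : Fn), LRel z τ κ → ∀ n : ℕ,
      ((n : ℝ) + τ) * z.ev (X ^ n) - z.ev (X ^ (n + 1)) = -κ * (X ^ n : ℝ[X]).eval 0 := by
    intro z hz n
    rw [← hz (X ^ n), derivative_X_pow]
    have e : X * (C (n : ℝ) * X ^ (n - 1)) + (C τ - X) * X ^ n
        = C ((n : ℝ) + τ) * X ^ n - X ^ (n + 1) := by
      rcases n with _ | n
      · simp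
      · simp only [Nat.add_sub_cancel, C_add]; ring
    rw [e, Fn.ev_map_sub, Fn.ev_map_C_mul]
  apply Fn.eq_of_mono
  intro n
  induction n with
  | zero => simpa using h
  | succ n ih =>
    have h1 := key z hz n
    have h2 := key w hw n
    rw [ih] at h1
    linarith

lemma JRel.unique {z w : Fn} {p r κ₁ κ₂ : ℝ} (hpr : 0 < p + r) (hz : JRel z p r κ₁ κ₂)
    (hw : JRel w p r κ₁ κ₂) (h : z.ev 1 = w.ev 1) : z = w := by
  have key : ∀ (z : Fn), JRel z p r κ₁ κ₂ → ∀ n : ℕ,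
      (n : ℝ) * z.ev (X ^ (n - 1)) + (r - p) * z.ev (X ^ n) - ((n : ℝ) + (p + r)) * z.ev (X ^ (n + 1))
        = -κ₁ * (X ^ n : ℝ[X]).eval 1 - κ₂ * (X ^ n : ℝ[X]).eval (-1) := by
    intro z hz n
    rw [← hz (X ^ n), derivative_X_pow]
    have e : (1 - X ^ 2) * (C (n : ℝ) * X ^ (n - 1)) + (C (r - p) - C (p + r) * X) * X ^ n
        = C (n : ℝ) * X ^ (n - 1) + C (r - p) * X ^ n - C ((n : ℝ) + (p + r)) * X ^ (n + 1) := by
      rcases n with _ | n
      · simp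
      · simp only [Nat.add_sub_cancel, C_add]; ring
    rw [e, Fn.ev_map_sub, Fn.ev_map_add, Fn.ev_map_C_mul, Fn.ev_map_C_mul, Fn.ev_map_C_mul]
  apply Fn.eq_of_mono
  intro n
  induction n using Nat.strong_induction_on with
  | _ n ih =>
    rcases n with _ | n
    · simpa using h
    · have h1 := key z hz n
      have h2 := key w hw n
      have h3 := ih (n - 1) (by omega)
      have h4 := ih n (by omega)
      rw [h3, h4] at h1
      have h5 : ((n : ℝ) + (p + r)) * (z.ev (X ^ (n + 1)) - w.ev (X ^ (n + 1))) = 0 := by linarith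
      have h6 : ((n : ℝ) + (p + r)) ≠ 0 := by positivity
      have := (mul_eq_zero.1 h5).resolve_left h6
      linarith

lemma HRel.smul {z : Fn} (h : HRel z) (l : ℝ) : HRel (C l • z) := by
  intro g
  rw [Fn.ev_smul, Fn.ev_map_C_mul, h, mul_zero]
lemma LRel.smul {z : Fn} {τ κ : ℝ} (h : LRel z τ κ) (l : ℝ) : LRel (C l • z) τ (l * κ) := by
  intro g
  rw [Fn.ev_smul, Fn.ev_map_C_mul, h]; ring
lemma JRel.smul {z : Fn} {p r κ₁ κ₂ : ℝ} (h : JRel z p r κ₁ κ₂) (l : ℝ) :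
    JRel (C l • z) p r (l * κ₁) (l * κ₂) := by
  intro g
  rw [Fn.ev_smul, Fn.ev_map_C_mul, h]; ring

lemma Good.of_smul {z W : Fn} {l : ℝ} (hl : 0 < l) (h : z = C l • W) {μ : Measure ℝ}
    (hμ : ListMeas μ) {a b : ℝ} (ha : a ≠ 0)
    (hW : ∀ g : ℝ[X], W.ev g = ∫ x, (g.comp (C a * X + C b)).eval x ∂μ) : Good z := by
  refine ⟨μ, hμ, a, b, l, ha, hl, ?_⟩
  intro g
  rw [h, Fn.ev_smul, Fn.ev_map_C_mul, hW]

namespace KD
variable (K : KD)

lemma ev_one_pos : 0 < K.u.ev 1 := by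
  have := K.pd 1 one_ne_zero
  simpa using this

lemma cs_strict (f g : ℝ[X]) (hg : g ≠ 0) (h : ∀ t : ℝ, f - C t * g ≠ 0) :
    K.u.ev (f * g) ^ 2 < K.u.ev (f * f) * K.u.ev (g * g) := by
  have hgg := K.pd g hg
  set t := K.u.ev (f * g) / K.u.ev (g * g) with ht
  have h1 := K.pd (f - C t * g) (h t)
  have e : (f - C t * g) * (f - C t * g) = f * f - C (2 * t) * (f * g) + C (t ^ 2) * (g * g) := by
    simp only [C_mul, C_pow]
    rw [show (C (2 : ℝ) : ℝ[X]) = 2 from rfl]; ring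
  rw [e, Fn.ev_map_add, Fn.ev_map_sub, Fn.ev_map_C_mul, Fn.ev_map_C_mul] at h1
  have h2 : t * K.u.ev (g * g) = K.u.ev (f * g) := by rw [ht]; field_simp
  have h3 : K.u.ev (f * f) - 2 * t * K.u.ev (f * g) + t ^ 2 * K.u.ev (g * g)
      = K.u.ev (f * f) - t * K.u.ev (f * g) := by rw [← h2]; ring
  rw [h3] at h1
  have h4 : K.u.ev (f * g) ^ 2 = t * K.u.ev (f * g) * K.u.ev (g * g) := by rw [← h2]; ring
  rw [h4]
  have : t * K.u.ev (f * g) < K.u.ev (f * f) := by linarith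
  exact mul_lt_mul_of_pos_right this hgg

end KD

end Pool.Agent.W5h47.Krall
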